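import Pool.Agent.Y5.Stm

/-! Real-variable lemmas. -/

open Set Filter Topology MeasureTheory

set_option autoImplicit false

namespace Pool.Agent.Y5

lemma mono_of {f f' : ℝ → ℝ} {a b : ℝ} (hab : a ≤ b) (hc : ContinuousOn f (Icc a b))
    (hd : ∀ t ∈ Ioo a b, HasDerivAt f (f' t) t) (h : ∀ t ∈ Ioo a b, 0 ≤ f' t) : f a ≤ f b := by
  have := monotoneOn_of_deriv_nonneg (convex_Icc a b) hc
    (by rw [interior_Icc]; exact fun t ht => (hd t ht).differentiableAt.differentiableWithinAt)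
    (by rw [interior_Icc]; intro t ht; rw [(hd t ht).deriv]; exact h t ht)
  exact this (left_mem_Icc.2 hab) (right_mem_Icc.2 hab) hab

/-- Gronwall for square roots. -/
lemma sqrt_gron {Y D P P' : ℝ → ℝ} {a b q : ℝ} (hab : a ≤ b) (hq : 0 ≤ q)
    (hc : ContinuousOn Y (Icc a b)) (hY : ∀ t ∈ Icc a b, 0 ≤ Y t)
    (hP : ContinuousOn P (Icc a b)) (hPd : ∀ t ∈ Ioo a b, HasDerivAt P (P' t) t)
    (hP0 : ∀ t ∈ Ioo a b, 0 ≤ P' t)
    (hd : ∀ t ∈ Ioo a b, HasDerivAt Y (D t) t)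
    (h : ∀ t ∈ Ioo a b, D t ≤ 2 * P' t * √(Y t) + 2 * q * Y t) :
    √(Y b) ≤ Real.exp (q * (b - a)) * (√(Y a) + (P b - P a)) := by
  have key : ∀ δ : ℝ, 0 < δ →
      √(Y b + δ) ≤ Real.exp (q * (b - a)) * (√(Y a + δ) + (P b - P a)) := by
    intro δ hδ
    have hmono := mono_of (f := fun t => P t - Real.exp (-(q * (t - a))) * √(Y t + δ))
      (f' := fun t => P' t - (Real.exp (-(q * (t - a))) * (-q) * √(Y t + δ)
        + Real.exp (-(q * (t - a))) * (D t / (2 * √(Y t + δ))))) hab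
      (by
        refine hP.sub (ContinuousOn.mul (by fun_prop) ?_)
        exact (hc.add continuousOn_const).sqrt)
      (fun t ht => by
        have hpos : 0 < Y t + δ := by have := hY t ⟨ht.1.le, ht.2.le⟩; linarith
        have e1 : HasDerivAt (fun t => √(Y t + δ)) (D t / (2 * √(Y t + δ))) t :=
          ((hd t ht).add_const δ).sqrt hpos.ne'
        have e2 : HasDerivAt (fun t => Real.exp (-(q * (t - a))))
            (Real.exp (-(q * (t - a))) * (-q)) t := by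
          have := (((hasDerivAt_id t).sub_const a).const_mul q).neg.exp
          simpa using this
        exact (hPd t ht).sub (e2.mul e1))
      (fun t ht => by
        have hY0 := hY t ⟨ht.1.le, ht.2.le⟩
        have hpos : 0 < Y t + δ := by linarith
        set g := √(Y t + δ) with hg
        have hgpos : 0 < g := Real.sqrt_pos.2 hpos
        have hg2 : g ^ 2 = Y t + δ := Real.sq_sqrt hpos.le
        have hsq : √(Y t) ≤ g := Real.sqrt_le_sqrt (by linarith)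
        have hP0' := hP0 t ht
        have h1 : D t / (2 * g) ≤ P' t + q * g := by
          rw [div_le_iff₀ (by positivity)]
          have := h t ht
          nlinarith [mul_le_mul_of_nonneg_left hsq hP0', mul_nonneg hq hδ.le]
        have he : Real.exp (-(q * (t - a))) ≤ 1 := by
          rw [Real.exp_le_one_iff]
          have : 0 ≤ q * (t - a) := mul_nonneg hq (by linarith [ht.1])
          linarith
        have he0 := Real.exp_pos (-(q * (t - a)))
        have h2 : Real.exp (-(q * (t - a))) * (D t / (2 * g))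
            ≤ Real.exp (-(q * (t - a))) * (P' t + q * g) := by gcongr
        nlinarith [mul_le_mul_of_nonneg_right he hP0'])
    have hmono' : P a - √(Y a + δ) ≤ P b - Real.exp (-(q * (b - a))) * √(Y b + δ) := by
      simpa using hmono
    have he : Real.exp (q * (b - a)) * Real.exp (-(q * (b - a))) = 1 := by
      rw [← Real.exp_add]; simp
    have he0 := Real.exp_pos (q * (b - a))
    have h3 : Real.exp (-(q * (b - a))) * √(Y b + δ) ≤ √(Y a + δ) + (P b - P a) := by linarith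
    calc √(Y b + δ) = Real.exp (q * (b - a)) * (Real.exp (-(q * (b - a))) * √(Y b + δ)) := by
          rw [← mul_assoc, he, one_mul]
      _ ≤ _ := by gcongr
  have c1 : Tendsto (fun δ : ℝ => √(Y b + δ)) (𝓝[>] 0) (𝓝 (√(Y b))) := by
    have : Continuous fun δ : ℝ => √(Y b + δ) := by fun_prop
    have := this.tendsto 0
    rw [add_zero] at this
    exact this.mono_left nhdsWithin_le_nhds
  have c2 : Tendsto (fun δ : ℝ => Real.exp (q * (b - a)) * (√(Y a + δ) + (P b - P a))) (𝓝[>] 0)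
      (𝓝 (Real.exp (q * (b - a)) * (√(Y a) + (P b - P a)))) := by
    have : Continuous fun δ : ℝ => Real.exp (q * (b - a)) * (√(Y a + δ) + (P b - P a)) := by
      fun_prop
    have := this.tendsto 0
    simp only [add_zero] at this
    exact this.mono_left nhdsWithin_le_nhds
  exact le_of_tendsto_of_tendsto c1 c2 (eventually_nhdsWithin_of_forall fun δ hδ => key δ hδ)

/-- Continuous induction on `(0, T)`. -/
lemma cont_ind {P : ℝ → Prop} {T : ℝ} (h0 : ∃ δ > 0, ∀ t ∈ Ioo 0 T, t < δ → P t)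
    (h1 : ∀ t ∈ Ioo 0 T, (∀ τ ∈ Ioo 0 t, P τ) → P t)
    (h2 : ∀ t ∈ Ioo 0 T, P t → ∀ᶠ τ in 𝓝 t, P τ) : ∀ t ∈ Ioo 0 T, P t := by
  by_contra hcon
  push Not at hcon
  obtain ⟨t0, ht0, hnt0⟩ := hcon
  obtain ⟨δ, hδ, hδP⟩ := h0
  set N := {t | t ∈ Ioo 0 T ∧ ¬ P t} with hN
  have hNne : N.Nonempty := ⟨t0, ht0, hnt0⟩
  have hNb : BddBelow N := ⟨0, fun t ht => ht.1.1.le⟩
  set a := sInf N with ha
  have haδ : δ ≤ a := le_csInf hNne fun t ht => by
    by_contra hlt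
    exact ht.2 (hδP t ht.1 (not_le.1 hlt))
  have ha0 : 0 < a := hδ.trans_le haδ
  have haT : a < T := (csInf_le hNb ⟨ht0, hnt0⟩).trans_lt ht0.2
  have hbelow : ∀ τ ∈ Ioo 0 a, P τ := fun τ hτ => by
    by_contra hn
    have : a ≤ τ := csInf_le hNb ⟨⟨hτ.1, hτ.2.trans haT⟩, hn⟩
    linarith [hτ.2]
  have hPa := h1 a ⟨ha0, haT⟩ hbelow
  have hev := h2 a ⟨ha0, haT⟩ hPa
  obtain ⟨r, hr, hball⟩ := Metric.eventually_nhds_iff.1 hev
  have hge : ∀ t ∈ N, a + r ≤ t := fun t ht => by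
    by_contra hlt
    push Not at hlt
    have h3 : a ≤ t := csInf_le hNb ht
    exact ht.2 (hball (by rw [Real.dist_eq, abs_of_nonneg (by linarith)]; linarith))
  have : a + r ≤ a := le_csInf hNne hge
  linarith

/-- First time. -/
lemma first_time {f : ℝ → ℝ} {a T : ℝ} (hc : ContinuousOn f (Ico a T))
    (ha : f a < 0) : (∀ t ∈ Ico a T, f t < 0) ∨
      ∃ t₁ ∈ Ioo a T, f t₁ = 0 ∧ ∀ t ∈ Ico a t₁, f t < 0 := by
  by_cases h : ∀ t ∈ Ico a T, f t < 0
  · exact Or.inl h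
  right
  push Not at h
  obtain ⟨t0, ht0, hft0⟩ := h
  set N := {t | t ∈ Icc a t0 ∧ 0 ≤ f t} with hN
  have hcc : ContinuousOn f (Icc a t0) := hc.mono fun t ht => ⟨ht.1, ht.2.trans_lt ht0.2⟩
  have hclosed : IsClosed N := by
    have : N = Icc a t0 ∩ f ⁻¹' Ici 0 := by ext; simp [hN]
    rw [this]
    exact hcc.preimage_isClosed_of_isClosed isClosed_Icc isClosed_Ici
  have hNne : N.Nonempty := ⟨t0, ⟨ht0.1, le_rfl⟩, hft0⟩
  have hNb : BddBelow N := ⟨a, fun t ht => ht.1.1⟩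
  have hmem : sInf N ∈ N := hclosed.csInf_mem hNne hNb
  set b := sInf N with hb
  have hab : a < b := by
    rcases hmem.1.1.eq_or_lt with h | h
    · exfalso; have := hmem.2; rw [← h] at this; linarith
    · exact h
  have hbelow : ∀ t ∈ Ico a b, f t < 0 := fun t ht => by
    by_contra hn
    push Not at hn
    have : b ≤ t := csInf_le hNb ⟨⟨ht.1, ht.2.le.trans hmem.1.2⟩, hn⟩
    linarith [ht.2]
  refine ⟨b, ⟨hab, hmem.1.2.trans_lt ht0.2⟩, le_antisymm ?_ hmem.2, hbelow⟩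
  have hcb : ContinuousWithinAt f (Icc a t0) b := hcc b hmem.1
  have h2 : Tendsto f (𝓝[Ico a b] b) (𝓝 (f b)) :=
    hcb.mono (fun t ht => ⟨ht.1, ht.2.le.trans hmem.1.2⟩)
  have hne : (𝓝[Ico a b] b).NeBot := by
    rw [← mem_closure_iff_nhdsWithin_neBot, closure_Ico hab.ne]
    exact right_mem_Icc.2 hab.le
  exact le_of_tendsto h2 (eventually_nhdsWithin_of_forall fun t ht => (hbelow t ht).le)

/-- primitive -/
noncomputable def Pr (f : ℝ → ℝ) (t : ℝ) : ℝ := ∫ τ in (0 : ℝ)..t, f τ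

@[simp] lemma Pr_zero (f : ℝ → ℝ) : Pr f 0 = 0 := by simp [Pr]

lemma Pr_int {f : ℝ → ℝ} {T : ℝ} (hf : ContinuousOn f (Ico 0 T)) {a b : ℝ} (ha : a ∈ Ico 0 T)
    (hb : b ∈ Ico 0 T) : IntervalIntegrable f volume a b := by
  apply ContinuousOn.intervalIntegrable
  exact hf.mono fun t ht => (ordConnected_Ico.uIcc_subset ha hb) ht

lemma Pr_sub {f : ℝ → ℝ} {T : ℝ} (hf : ContinuousOn f (Ico 0 T)) {a b : ℝ} (ha : a ∈ Ico 0 T)
    (hb : b ∈ Ico 0 T) : Pr f b - Pr f a = ∫ τ in a..b, f τ := by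
  have h0 : (0 : ℝ) ∈ Ico 0 T := ⟨le_rfl, ha.1.trans_lt ha.2⟩
  rw [Pr, Pr, intervalIntegral.integral_interval_sub_left (Pr_int hf h0 hb) (Pr_int hf h0 ha)]

lemma Pr_deriv {f : ℝ → ℝ} {T : ℝ} (hf : ContinuousOn f (Ico 0 T)) {t : ℝ} (ht : t ∈ Ioo 0 T) :
    HasDerivAt (Pr f) (f t) t := by
  have h0 : (0 : ℝ) ∈ Ico 0 T := ⟨le_rfl, ht.1.trans ht.2⟩
  refine intervalIntegral.integral_hasDerivAt_right (Pr_int hf h0 ⟨ht.1.le, ht.2⟩) ?_
    (hf.continuousAt (Ico_mem_nhds ht.1 ht.2))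
  refine ContinuousOn.stronglyMeasurableAtFilter isOpen_Ioo (hf.mono Ioo_subset_Ico_self) t ht

lemma Pr_cont {f : ℝ → ℝ} {T : ℝ} (hf : ContinuousOn f (Ico 0 T)) :
    ContinuousOn (Pr f) (Ico 0 T) := by
  intro t ht
  rcases ht.1.eq_or_lt with h | h
  · -- t = 0
    subst h
    obtain ⟨b, hb0, hbT⟩ := exists_between ht.2
    have h1 : ContinuousOn (fun t => ∫ τ in (0 : ℝ)..t, f τ) (uIcc 0 b) :=
      intervalIntegral.continuousOn_primitive_interval
        ((Pr_int hf ⟨le_rfl, ht.2⟩ ⟨hb0.le, hbT⟩).1.congr_set_ae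
          (by rw [uIcc_of_le hb0.le]; exact (Ioc_ae_eq_Icc).symm))
    have h2 : ContinuousWithinAt (Pr f) (Icc 0 b) 0 := by
      have := h1 0 (by rw [uIcc_of_le hb0.le]; exact left_mem_Icc.2 hb0.le)
      rwa [uIcc_of_le hb0.le] at this
    refine h2.mono_of_mem_nhdsWithin ?_
    exact mem_of_superset (inter_mem_nhdsWithin (Ico 0 T) (Iio_mem_nhds hb0))
      (fun τ hτ => ⟨hτ.1.1, le_of_lt hτ.2⟩)
  · exact (Pr_deriv hf ⟨h, ht.2⟩).continuousAt.continuousWithinAt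

lemma Pr_mono {f : ℝ → ℝ} {T : ℝ} (hf : ContinuousOn f (Ico 0 T)) {a b : ℝ} (ha : a ∈ Ico 0 T)
    (hb : b ∈ Ico 0 T) (hab : a ≤ b) (h : ∀ t ∈ Ioo a b, 0 ≤ f t) : Pr f a ≤ Pr f b :=
  mono_of hab ((Pr_cont hf).mono fun t ht => ⟨ha.1.trans ht.1, ht.2.trans_lt hb.2⟩)
    (fun t ht => Pr_deriv hf ⟨ha.1.trans_lt ht.1, ht.2.trans hb.2⟩) h

/-- comparison of an increment with a primitive -/
lemma incr_le {f f' g : ℝ → ℝ} {T a b : ℝ} (hg : ContinuousOn g (Ico 0 T)) (ha : a ∈ Ico 0 T)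
    (hb : b ∈ Ico 0 T) (hab : a ≤ b) (hc : ContinuousOn f (Icc a b))
    (hd : ∀ t ∈ Ioo a b, HasDerivAt f (f' t) t) (h : ∀ t ∈ Ioo a b, g t ≤ f' t) :
    Pr g b - Pr g a ≤ f b - f a := by
  have := mono_of (f := fun t => f t - Pr g t) (f' := fun t => f' t - g t) hab
    (hc.sub ((Pr_cont hg).mono fun t ht => ⟨ha.1.trans ht.1, ht.2.trans_lt hb.2⟩))
    (fun t ht => (hd t ht).sub (Pr_deriv hg ⟨ha.1.trans_lt ht.1, ht.2.trans hb.2⟩))
    (fun t ht => by linarith [h t ht])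
  linarith

lemma le_incr {f f' g : ℝ → ℝ} {T a b : ℝ} (hg : ContinuousOn g (Ico 0 T)) (ha : a ∈ Ico 0 T)
    (hb : b ∈ Ico 0 T) (hab : a ≤ b) (hc : ContinuousOn f (Icc a b))
    (hd : ∀ t ∈ Ioo a b, HasDerivAt f (f' t) t) (h : ∀ t ∈ Ioo a b, f' t ≤ g t) :
    f b - f a ≤ Pr g b - Pr g a := by
  have := mono_of (f := fun t => Pr g t - f t) (f' := fun t => g t - f' t) hab
    (((Pr_cont hg).mono fun t ht => ⟨ha.1.trans ht.1, ht.2.trans_lt hb.2⟩).sub hc)
    (fun t ht => (Pr_deriv hg ⟨ha.1.trans_lt ht.1, ht.2.trans hb.2⟩).sub (hd t ht))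
    (fun t ht => by linarith [h t ht])
  linarith

end Pool.Agent.Y5
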