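import Pool.Agent.Y5.O6

/-! One stage. -/

open Set Filter Topology MeasureTheory

set_option autoImplicit false

namespace Pool.Agent.Y5

lemma Pr_le_lin {f : ℝ → ℝ} {T : ℝ} (hf : ContinuousOn f (Ico 0 T)) {α t c : ℝ} (ha : 0 ≤ α)
    (ht : t < T) (hab : α ≤ t) (h : ∀ τ ∈ Ioo α t, f τ ≤ c) : Pr f t - Pr f α ≤ c * (t - α) := by
  have := mono_of (f := fun τ => c * τ - Pr f τ) (f' := fun τ => c - f τ) hab
    (ContinuousOn.sub (by fun_prop) ((Pr_cont hf).mono fun τ hτ =>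
      ⟨ha.trans hτ.1, hτ.2.trans_lt ht⟩))
    (fun τ hτ => by
      have h1 := Pr_deriv hf (t := τ) ⟨ha.trans_lt hτ.1, hτ.2.trans ht⟩
      have h2 := ((hasDerivAt_id τ).const_mul c).fun_sub h1
      simpa using h2)
    (fun τ hτ => by linarith [h τ hτ])
  linarith

lemma Pr_ge_lin {f : ℝ → ℝ} {T : ℝ} (hf : ContinuousOn f (Ico 0 T)) {α t c : ℝ} (ha : 0 ≤ α)
    (ht : t < T) (hab : α ≤ t) (h : ∀ τ ∈ Ioo α t, c ≤ f τ) : c * (t - α) ≤ Pr f t - Pr f α := by
  have := mono_of (f := fun τ => Pr f τ - c * τ) (f' := fun τ => f τ - c) hab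
    (ContinuousOn.sub ((Pr_cont hf).mono fun τ hτ =>
      ⟨ha.trans hτ.1, hτ.2.trans_lt ht⟩) (by fun_prop))
    (fun τ hτ => by
      have h1 := Pr_deriv hf (t := τ) ⟨ha.trans_lt hτ.1, hτ.2.trans ht⟩
      have h2 := h1.fun_sub ((hasDerivAt_id τ).const_mul c)
      simpa using h2)
    (fun τ hτ => by linarith [h τ hτ])
  linarith

lemma Pr_le_mul {f f' : ℝ → ℝ} {T : ℝ} (hf : ContinuousOn f (Ico 0 T))
    (hf' : ContinuousOn f' (Ico 0 T)) {t c : ℝ} (h0 : 0 ≤ t)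
    (ht : t < T) (h : ∀ τ ∈ Ioo 0 t, f τ ≤ c * f' τ) : Pr f t ≤ c * Pr f' t := by
  have := mono_of (f := fun τ => c * Pr f' τ - Pr f τ) (f' := fun τ => c * f' τ - f τ) h0
    (ContinuousOn.sub (continuousOn_const.mul ((Pr_cont hf').mono fun τ hτ =>
      ⟨hτ.1, hτ.2.trans_lt ht⟩)) ((Pr_cont hf).mono fun τ hτ => ⟨hτ.1, hτ.2.trans_lt ht⟩))
    (fun τ hτ => by
      have h1 := Pr_deriv hf (t := τ) ⟨hτ.1, hτ.2.trans ht⟩
      have h2 := Pr_deriv hf' (t := τ) ⟨hτ.1, hτ.2.trans ht⟩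
      exact (h2.const_mul c).fun_sub h1)
    (fun τ hτ => by linarith [h τ hτ])
  simp at this
  linarith

lemma lim_le {f : ℝ → ℝ} {T α t c : ℝ} (hf : ContinuousOn f (Ico 0 T)) (hα : 0 ≤ α) (ht : t < T)
    (hab : α < t) (h : ∀ τ ∈ Ioo α t, f τ ≤ c) : f t ≤ c := by
  have h1 : ContinuousWithinAt f (Ico 0 T) t := hf t ⟨hα.trans hab.le, ht⟩
  have h2 : Tendsto f (𝓝[Ioo α t] t) (𝓝 (f t)) :=
    h1.mono (fun τ hτ => ⟨hα.trans hτ.1.le, hτ.2.trans ht⟩)
  have hne : (𝓝[Ioo α t] t).NeBot := by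
    rw [← mem_closure_iff_nhdsWithin_neBot, closure_Ioo hab.ne]
    exact right_mem_Icc.2 hab.le
  exact le_of_tendsto h2 (eventually_nhdsWithin_of_forall fun τ hτ => h τ hτ)

lemma rder_alg {X Z C L v0 v1 : ℝ} (hX : 0 < X) (hZ : 0 ≤ Z) (hC : 0 < C) (hL : 0 < L)
    (h1 : C * L * X ^ 2 + 998 / 1000 * L * X * Z ≤ v1) (h0 : v0 ≤ 1 / 1000 * L * X ^ 2) :
    997 / 1000 * (L * X * (Z / X + C)) ≤ (v1 * X - Z * v0) / X ^ 2 := by
  rw [le_div_iff₀ (by positivity)]
  have h2 := mul_le_mul_of_nonneg_right h1 hX.le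
  have h3 := mul_le_mul_of_nonneg_left h0 hZ
  have e : 997 / 1000 * (L * X * (Z / X + C)) * X ^ 2
      = 997 / 1000 * (L * X ^ 2 * (Z + C * X)) := by field_simp
  have h4 : 0 ≤ C * L * X ^ 3 := by positivity
  rw [e]
  nlinarith

namespace Good

variable {s ν C K T A : ℝ} {B : ℕ → ℝ} {x : ℕ → ℝ → ℝ} {n : ℕ} {σ a : ℕ → ℝ} {t1 : ℝ}

lemma cabs (g : Good s ν C K T A B x) (i : ℕ) :
    ContinuousOn (fun τ => s ^ (5 * i) * |x i τ|) (Ico 0 T) :=
  continuousOn_const.mul (g.cont i).abs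

theorem stage (g : Good s ν C K T A B x) (h : Stg s T A x n σ a)
    (hc : Cur s T x n σ a t1) {t : ℝ} (ht : t ∈ Ioo (σ n) t1)
    (hP : ∀ τ ∈ Ioo 0 t, 0 < x (n + 1) τ ∧ Y x (n + 2) τ ≤ e2 s * x (n + 1) τ ^ 2) :
    99 / 100 * a n ≤ x n t ∧
    Pr (fun τ => s ^ (5 * n) * |x n τ|) t - Pr (fun τ => s ^ (5 * n) * |x n τ|) (σ n)
      ≤ 211 / 10000 * s ^ 5 ∧
    Pr (fun τ => s ^ (5 * (n + 1)) * |x (n + 1) τ|) t
      - Pr (fun τ => s ^ (5 * (n + 1)) * |x (n + 1) τ|) (σ n) ≤ 1004 / 100000 * s ^ 5 := by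
  have hs := g.hs
  have hs0 := g.s0
  have h5 := g.s5
  have h5p : 0 < s ^ 5 := by linarith
  have hC := g.Cpos
  have hν := g.hν
  have hCs' := g.Cs'
  have h0 : 0 ≤ σ n := σnn h le_rfl
  have ha := g.apos h n le_rfl
  have htT : t < T := ht.2.trans_le hc.leT
  have ht0 : 0 < t := h0.trans_lt ht.1
  have hsub : Icc (σ n) t ⊆ Ico 0 T := fun τ hτ => ⟨h0.trans hτ.1, hτ.2.trans_lt htT⟩
  have hX : ∀ τ ∈ Icc (σ n) t, 0 < x n τ := fun τ hτ =>
    (by positivity : 0 < 9 / 10 * a n).trans (hc.act τ ⟨hτ.1, hτ.2.trans_lt ht.2⟩).2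
  set L := s ^ (5 * n) with hL
  have hLp : 0 < L := by positivity
  have he : s ^ (5 * (n + 1)) = L * s ^ 5 := by rw [← pow_add]; congr 1
  -- the ratio
  set r : ℝ → ℝ := fun τ => x (n + 1) τ / x n τ with hr
  set r' : ℝ → ℝ := fun τ => (vf s ν C B (fun k => x k τ) (n + 1) * x n τ
    - x (n + 1) τ * vf s ν C B (fun k => x k τ) n) / x n τ ^ 2 with hr'
  have hrc : ContinuousOn r (Icc (σ n) t) :=
    ((g.cont (n + 1)).mono hsub).div ((g.cont n).mono hsub) fun τ hτ => (hX τ hτ).ne'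
  have hrd : ∀ τ ∈ Ioo (σ n) t, HasDerivAt r (r' τ) τ := fun τ hτ => by
    have hτT : τ ∈ Ioo 0 T := ⟨h0.trans_lt hτ.1, hτ.2.trans htT⟩
    exact (g.derivAt (n + 1) hτT).fun_div (g.derivAt n hτT) (hX τ ⟨hτ.1.le, hτ.2.le⟩).ne'
  have hrge : ∀ τ ∈ Ioo (σ n) t, 997 / 1000 * (L * x n τ * (r τ + C)) ≤ r' τ := fun τ hτ => by
    have hτ1 : τ ∈ Ico (σ n) t1 := ⟨hτ.1.le, hτ.2.trans ht.2⟩
    have hPτ := hP τ ⟨h0.trans_lt hτ.1, hτ.2⟩
    exact rder_alg (hX τ ⟨hτ.1.le, hτ.2.le⟩) hPτ.1.le hC hLp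
      (g.Zder h hc hτ1 hPτ.1 hPτ.2) (g.Xup h hc hτ1 hPτ.1.le)
  have hr0 : ∀ τ ∈ Ioo (σ n) t, 0 < r τ := fun τ hτ =>
    div_pos (hP τ ⟨h0.trans_lt hτ.1, hτ.2⟩).1 (hX τ ⟨hτ.1.le, hτ.2.le⟩)
  have hra : 0 ≤ r (σ n) := by
    refine div_nonneg ?_ (hX _ ⟨le_rfl, ht.1.le⟩).le
    rcases n with _ | m
    · rw [h.σ0, g.hn]
    · exact (hP (σ (m + 1)) ⟨(σnn h (by omega : m ≤ m + 1)).trans_lt (h.σlt m (by omega)),
        ht.1⟩).1.le
  have hrt : r t ≤ 1 / 100 := by
    simp only [hr]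
    have hXt := hX t ⟨ht.1.le, le_rfl⟩
    rw [div_le_iff₀ hXt]
    have h1 := (hc.act t ⟨ht.1.le, ht.2⟩).1
    have h2 := g.sq_le (t := t) ⟨ht0.le, htT⟩ (le_refl (n + 1))
    exact (le_abs_self _).trans (abs_le_of_sq_le_sq (h2.trans h1.le) (by positivity))
  have hrtn : 0 ≤ r t := by
    have : -(r t) ≤ 0 := by
      have hh := lim_le (f := fun τ => -(x (n + 1) τ)) (T := T) (α := σ n) (t := t) (c := 0)
        (g.cont (n + 1)).neg h0 htT ht.1 (fun τ hτ => by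
          have := (hP τ ⟨h0.trans_lt hτ.1, hτ.2⟩).1
          linarith)
      have : 0 ≤ x (n + 1) t := by linarith
      have : 0 ≤ r t := div_nonneg this (hX t ⟨ht.1.le, le_rfl⟩).le
      linarith
    linarith
  refine ⟨?_, ?_, ?_⟩
  · -- lower bound for the mode
    set d := ν * s ^ (4 * n) with hd
    have hd0 : 0 ≤ d := by positivity
    have hmono := mono_of (f := fun τ => Real.log (x n τ) + 503 / 1000 * (r τ + C) ^ 2 + d * τ)
      (f' := fun τ => vf s ν C B (fun k => x k τ) n / x n τ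
        + 503 / 1000 * (2 * (r τ + C) * r' τ) + d) ht.1.le
      (by
        refine ContinuousOn.add (ContinuousOn.add ?_ ?_) (by fun_prop)
        · exact ContinuousOn.log ((g.cont n).mono hsub) fun τ hτ => (hX τ hτ).ne'
        · exact continuousOn_const.mul ((hrc.add continuousOn_const).pow 2))
      (fun τ hτ => by
        have hτT : τ ∈ Ioo 0 T := ⟨h0.trans_lt hτ.1, hτ.2.trans htT⟩
        have h1 := (g.derivAt n hτT).log (hX τ ⟨hτ.1.le, hτ.2.le⟩).ne'
        have h2 := (((hrd τ hτ).add_const C).fun_pow 2).const_mul (503 / 1000 : ℝ)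
        have h3 := (h1.fun_add h2).fun_add ((hasDerivAt_id τ).const_mul d)
        simpa using h3)
      (fun τ hτ => by
        have hτ1 : τ ∈ Ico (σ n) t1 := ⟨hτ.1.le, hτ.2.trans ht.2⟩
        have hPτ := hP τ ⟨h0.trans_lt hτ.1, hτ.2⟩
        have hXτ := hX τ ⟨hτ.1.le, hτ.2.le⟩
        have h1 := g.Xlo h hc hτ1 hPτ.1 hPτ.2
        have h2 := hrge τ hτ
        have h3 := hr0 τ hτ
        have e1 : x (n + 1) τ = r τ * x n τ := by simp only [hr]; field_simp
        have h4 : -d - C * (L * x n τ * r τ) - 10012 / 10000 * (L * x n τ * r τ ^ 2)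
            ≤ vf s ν C B (fun k => x k τ) n / x n τ := by
          rw [le_div_iff₀ hXτ]
          refine le_trans (le_of_eq ?_) h1
          rw [e1]; ring
        have h5' : 2 * (r τ + C) * (997 / 1000 * (L * x n τ * (r τ + C)))
            ≤ 2 * (r τ + C) * r' τ := by gcongr
        have h6 : 0 < L * x n τ := by positivity
        have h7 : 0 ≤ L * x n τ * (r τ * C) := by positivity
        have h8 : 0 ≤ L * x n τ * (r τ ^ 2) := by positivity
        have h9 : 0 ≤ L * x n τ * (C ^ 2) := by positivity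
        nlinarith)
    -- conclusion
    have hdt : d * (t - σ n) ≤ 1 / 100000 := by
      have hvis := g.vis h n le_rfl
      have hel := g.el' h hc.le (i := n) le_rfl
      have h1 : (t - σ n) * (s ^ (5 * n) * a n) ≤ (t1 - σ n) * (s ^ (5 * n) * a n) := by
        have := ht.2
        gcongr
      have htp : 0 ≤ t - σ n := by linarith [ht.1]
      have h2 : d * (t - σ n) * s ^ 9 ≤ 233 / 10000 * s ^ 5 := by
        calc d * (t - σ n) * s ^ 9 = (t - σ n) * (ν * s ^ (4 * n) * s ^ 9) := by rw [hd]; ring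
          _ ≤ (t - σ n) * (s ^ (5 * n) * a n) := by gcongr
          _ ≤ _ := h1.trans hel
      have h3 : (10 : ℝ) ^ 6 * s ^ 5 ≤ s ^ 9 := by
        calc (10 : ℝ) ^ 6 * s ^ 5 ≤ s ^ 4 * s ^ 5 := by
              gcongr
              calc (10 : ℝ) ^ 6 ≤ s := by linarith
                _ ≤ s ^ 4 := le_self_pow₀ (by linarith) (by norm_num)
          _ = s ^ 9 := by ring
      have h4 : d * (t - σ n) * (10 ^ 6 * s ^ 5) ≤ 233 / 10000 * s ^ 5 :=
        (by gcongr : _ ≤ _).trans h2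
      have h6 : (d * (t - σ n) * 10 ^ 6) * s ^ 5 ≤ (233 / 10000) * s ^ 5 := by linarith
      have := le_of_mul_le_mul_right h6 h5p
      linarith
    have hsq1 : 0 ≤ (r (σ n) + C) ^ 2 := sq_nonneg _
    have hsq2 : (r t + C) ^ 2 ≤ (1 / 100 + 1 / 10 ^ 20) ^ 2 := by gcongr
    have hlog : Real.log (x n (σ n)) - 1 / 10000 ≤ Real.log (x n t) := by
      norm_num at hsq2
      nlinarith
    have hXa := hX (σ n) ⟨le_rfl, ht.1.le⟩
    have hXt := hX t ⟨ht.1.le, le_rfl⟩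
    have h6 : x n (σ n) * Real.exp (-(1 / 10000)) ≤ x n t := by
      have := Real.exp_le_exp.2 hlog
      rw [Real.exp_log hXt, sub_eq_add_neg, Real.exp_add, Real.exp_log hXa] at this
      exact this
    have h7 : 1 - 1 / 10000 ≤ Real.exp (-(1 / 10000)) := by
      have := Real.add_one_le_exp (-(1 / 10000) : ℝ); linarith
    have h8 := h.init
    have h9 : x n (σ n) * (1 - 1 / 10000) ≤ x n (σ n) * Real.exp (-(1 / 10000)) := by gcongr
    linarith
  · -- integral of the mode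
    have h1 := incr_le (f := fun τ => 1000 / 997 * Real.log (r τ + C))
      (f' := fun τ => 1000 / 997 * (r' τ / (r τ + C)))
      (g := fun τ => s ^ (5 * n) * |x n τ|) (T := T) (a := σ n) (b := t) (g.cabs n)
      ⟨h0, ht.1.trans htT⟩ ⟨ht0.le, htT⟩ ht.1.le
      (by
        refine continuousOn_const.mul (ContinuousOn.log (hrc.add continuousOn_const) ?_)
        intro τ hτ
        have : 0 < r τ + C := by
          rcases hτ.1.eq_or_lt with h2 | h2
          · rw [← h2]; linarith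
          · rcases hτ.2.eq_or_lt with h3 | h3
            · rw [h3]; linarith
            · have := hr0 τ ⟨h2, h3⟩; linarith
        exact this.ne')
      (fun τ hτ => by
        have := hr0 τ hτ
        exact (((hrd τ hτ).add_const C).log (by linarith)).const_mul _)
      (fun τ hτ => by
        have h2 := hr0 τ hτ
        have h3 := hrge τ hτ
        have h4 := hX τ ⟨hτ.1.le, hτ.2.le⟩
        have h6 : 997 / 1000 * (L * x n τ) ≤ r' τ / (r τ + C) := by
          rw [le_div_iff₀ (by linarith)]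
          linarith
        rw [abs_of_pos h4]
        linarith)
    refine h1.trans ?_
    have h2 : Real.log (r t + C) ≤ 0 := by
      apply Real.log_nonpos
      · linarith
      · have : (1 : ℝ) / 10 ^ 20 ≤ 1 / 2 := by norm_num
        linarith
    have h3 : -(21 / 1000 * s ^ 5) ≤ Real.log (r (σ n) + C) := by
      rw [Real.le_log_iff_exp_le (by linarith)]
      linarith [g.hC1]
    have h4 : 1000 / 997 * Real.log (r t + C) - 1000 / 997 * Real.log (r (σ n) + C)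
        ≤ 1000 / 997 * (21 / 1000 * s ^ 5) := by linarith
    refine h4.trans ?_
    linarith
  · -- integral of the next mode
    have h1 := incr_le (f := fun τ => 1000 / 997 * s ^ 5 * r τ)
      (f' := fun τ => 1000 / 997 * s ^ 5 * r' τ)
      (g := fun τ => s ^ (5 * (n + 1)) * |x (n + 1) τ|) (T := T) (a := σ n) (b := t)
      (g.cabs (n + 1))
      ⟨h0, ht.1.trans htT⟩ ⟨ht0.le, htT⟩ ht.1.le
      (continuousOn_const.mul hrc)
      (fun τ hτ => (hrd τ hτ).const_mul _)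
      (fun τ hτ => by
        have h2 := hr0 τ hτ
        have h3 := hrge τ hτ
        have h4 := hX τ ⟨hτ.1.le, hτ.2.le⟩
        have hPτ := hP τ ⟨h0.trans_lt hτ.1, hτ.2⟩
        have e1 : x (n + 1) τ = r τ * x n τ := by simp only [hr]; field_simp
        rw [abs_of_pos hPτ.1, he, e1]
        have h6 : 997 / 1000 * (L * x n τ * r τ) ≤ r' τ := by
          have : 0 ≤ L * x n τ * C := by positivity
          nlinarith
        have h7 : L * x n τ * r τ ≤ 1000 / 997 * r' τ := by linarith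
        calc L * s ^ 5 * (r τ * x n τ) = s ^ 5 * (L * x n τ * r τ) := by ring
          _ ≤ s ^ 5 * (1000 / 997 * r' τ) := by gcongr
          _ = _ := by ring)
    refine h1.trans ?_
    have h2 : 1000 / 997 * s ^ 5 * r t ≤ 1000 / 997 * s ^ 5 * (1 / 100) := by gcongr
    have h3 : 0 ≤ 1000 / 997 * s ^ 5 * r (σ n) := by positivity
    linarith

/-- duration of a stage -/
lemma stage_time (g : Good s ν C K T A B x) (h : Stg s T A x n σ a)
    (hc : Cur s T x n σ a t1) {t : ℝ} (ht : t ∈ Ioo (σ n) t1)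
    (hP : ∀ τ ∈ Ioo 0 t, 0 < x (n + 1) τ ∧ Y x (n + 2) τ ≤ e2 s * x (n + 1) τ ^ 2) :
    (t - σ n) * (s ^ (5 * n) * a n) ≤ 214 / 10000 * s ^ 5 := by
  have h0 : 0 ≤ σ n := σnn h le_rfl
  have ha := g.apos h n le_rfl
  have htT : t < T := ht.2.trans_le hc.leT
  have hs0 := g.s0
  have h5 := g.s5
  have h1 := (g.stage h hc ht hP).2.1
  have h2 := Pr_ge_lin (g.cabs n) (α := σ n) (t := t) (c := s ^ (5 * n) * (99 / 100 * a n)) h0 htT
    ht.1.le (fun τ hτ => by
      have h3 := (g.stage h hc (t := τ) ⟨hτ.1, hτ.2.trans ht.2⟩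
        (fun w hw => hP w ⟨hw.1, hw.2.trans hτ.2⟩)).1
      have : 99 / 100 * a n ≤ |x n τ| := h3.trans (le_abs_self _)
      gcongr)
  nlinarith

end Good

end Pool.Agent.Y5
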