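import Mathlib

/-!
Definitions for the constrained Navier-Stokes system spanned by the dilates of one packet.
-/

open Set Filter Topology MeasureTheory
open scoped SchwartzMap

set_option autoImplicit false

namespace Pool.Agent.Y5

/-! ### The reduced system -/

/-- Vector field of the reduced system (one mode per scale). -/
noncomputable def vf (s ν C : ℝ) (B : ℕ → ℝ) (x : ℕ → ℝ) (n : ℕ) : ℝ :=
  -(ν * s ^ (4 * n) * x n)
  + (if n = 0 then 0 else C * s ^ (5 * (n - 1)) * x (n - 1) ^ 2)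
  - C * s ^ (5 * n) * x n * x (n + 1)
  + x n * ∑ i ∈ Finset.range n, s ^ (5 * i) * B (n - i) * x i
  - s ^ (5 * n) * ∑' m : ℕ, B (m + 1) * x (n + 1 + m) ^ 2

/-- Regular solutions of the reduced system on `[0, T)`. -/
structure RSol (s ν C : ℝ) (B : ℕ → ℝ) (T : ℝ) (x : ℕ → ℝ → ℝ) : Prop where
  deriv : ∀ n, ∀ t ∈ Ico 0 T,
    HasDerivWithinAt (x n) (vf s ν C B (fun m => x m t) n) (Ico 0 T) t
  bdd : ∀ T' < T, ∃ M, ∀ t ∈ Icc 0 T', ∀ n, s ^ (8 * n) * |x n t| ≤ M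

/-! ### The fields -/

abbrev E3 := EuclideanSpace ℝ (Fin 3)

/-- The dilate `s^(3n) φ(s^(2n) y)` of the field `φ`. -/
noncomputable def packet (s : ℝ) (φ : E3 → E3) (n : ℕ) (y : E3) : E3 :=
  s ^ (3 * n) • φ (s ^ (2 * n) • y)

/-- `∫ ((u · ∇) v) · w`. -/
noncomputable def tri (u v w : E3 → E3) : ℝ := ∫ y, inner ℝ (fderiv ℝ v y (u y)) (w y)

/-- `∫ ∇v : ∇w`. -/
noncomputable def gradIn (v w : E3 → E3) : ℝ :=
  ∫ y, ∑ i : Fin 3, inner ℝ (fderiv ℝ v y (EuclideanSpace.single i 1))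
    (fderiv ℝ w y (EuclideanSpace.single i 1))

/-- The packet and its interaction table. -/
structure Packet (s : ℝ) (φ : 𝓢(E3, E3)) (μ C : ℝ) (B : ℕ → ℝ) : Prop where
  div : ∀ y, ∑ i : Fin 3, (fderiv ℝ φ y (EuclideanSpace.single i 1)) i = 0
  mass : ∀ m n, ∫ y, inner ℝ (packet s φ m y) (packet s φ n y) = if m = n then 1 else 0
  grad : ∀ m n, gradIn (packet s φ m) (packet s φ n) = if m = n then μ * s ^ (4 * n) else 0
  tri : ∀ i j n, tri (packet s φ i) (packet s φ j) (packet s φ n) =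
    (if i = n ∧ j < n then -(s ^ (5 * j) * B (n - j)) else 0)
    + (if i = j ∧ n < i then s ^ (5 * n) * B (i - n) else 0)
    + (if i = j ∧ n = i + 1 then -(s ^ (5 * i) * C) else 0)
    + (if i = n ∧ j = n + 1 then s ^ (5 * n) * C else 0)

/-- The horizontal field with stream function `∫ cos (2 π ξ · y) G(ξ) dξ`. -/
noncomputable def flow (G : E3 → ℝ) (y : E3) : E3 :=
  ∫ ξ : E3, (2 * Real.pi * Real.sin (2 * Real.pi * inner ℝ ξ y) * G ξ) •
    (WithLp.toLp 2 ![-ξ 1, ξ 0, 0] : E3)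

/-- Smooth even functions with compact support. -/
structure Cce (G : E3 → ℝ) : Prop where
  smooth : ContDiff ℝ (⊤ : ℕ∞) G
  supp : HasCompactSupport G
  even : ∀ ξ, G (-ξ) = G ξ

end Pool.Agent.Y5
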