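import Pool.Agent.Y5.Defs

/-! Statements of the main steps. -/

open Set Filter Topology MeasureTheory
open scoped SchwartzMap

set_option autoImplicit false

namespace Pool.Agent.Y5

/-- Uniqueness for the reduced system. -/
def S_UNIQ : Prop := ∀ (s ν C b T : ℝ) (B : ℕ → ℝ) (x y : ℕ → ℝ → ℝ), 1 < s → 0 ≤ ν →
  (∀ j, |B j| ≤ b) → RSol s ν C B T x → RSol s ν C B T y → (∀ n, x n 0 = y n 0) →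
  ∀ n, ∀ t ∈ Ico 0 T, x n t = y n t

/-- Maximal solution of the reduced system: global, or the norm with weight `8` blows up. -/
def S_EXMAX : Prop := ∀ (s ν C b : ℝ) (B : ℕ → ℝ) (x₀ : ℕ → ℝ), 1 < s → 0 ≤ ν →
  (∀ j, |B j| ≤ b) → (∀ k : ℕ, ∃ M, ∀ n, s ^ (k * n) * |x₀ n| ≤ M) →
  ∃ x : ℕ → ℝ → ℝ, (∀ n, x n 0 = x₀ n) ∧
    ((∀ T, RSol s ν C B T x) ∨
      ∃ T, 0 < T ∧ RSol s ν C B T x ∧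
        (∀ k : ℕ, ∀ T' < T, ∃ M, ∀ t ∈ Icc 0 T', ∀ n, s ^ (k * n) * |x n t| ≤ M) ∧
        ¬ ∃ M, ∀ t ∈ Ico 0 T, ∀ n, s ^ (8 * n) * |x n t| ≤ M)

/-- Derivative of the energy of the tail. -/
def S_TAIL : Prop := ∀ (s ν C b T : ℝ) (B : ℕ → ℝ) (x : ℕ → ℝ → ℝ), 1 < s → 0 ≤ ν →
  (∀ j, |B j| ≤ b) → RSol s ν C B T x → ∀ m : ℕ, ∀ t ∈ Ico 0 T,
    HasDerivWithinAt (fun τ => ∑' j : ℕ, x (m + j) τ ^ 2)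
      (-(2 * ∑' j : ℕ, ν * s ^ (4 * (m + j)) * x (m + j) t ^ 2)
        + 2 * (if m = 0 then 0 else C * s ^ (5 * (m - 1)) * x (m - 1) t ^ 2 * x m t)
        + 2 * ∑ i ∈ Finset.range m, s ^ (5 * i) * x i t *
            ∑' j : ℕ, B (m + j - i) * x (m + j) t ^ 2) (Ico 0 T) t

/-- Fourier representation of the quantities for horizontal fields. -/
def S_FREP : Prop :=
  (∀ G, Cce G → ∃ φ : 𝓢(E3, E3), ∀ y, φ y = flow G y) ∧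
  (∀ G, Cce G → ∀ y, ∑ i : Fin 3, (fderiv ℝ (flow G) y (EuclideanSpace.single i 1)) i = 0) ∧
  (∀ G H, Cce G → Cce H → ∫ y, inner ℝ (flow G y) (flow H y)
    = (2 * Real.pi) ^ 2 * ∫ ξ : E3, G ξ * H ξ * (ξ 0 ^ 2 + ξ 1 ^ 2)) ∧
  (∀ G H, Cce G → Cce H → gradIn (flow G) (flow H)
    = (2 * Real.pi) ^ 4 * ∫ ξ : E3, G ξ * H ξ * (ξ 0 ^ 2 + ξ 1 ^ 2) * ‖ξ‖ ^ 2) ∧
  ∀ F G H, Cce F → Cce G → Cce H → tri (flow F) (flow G) (flow H)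
    = (2 * Real.pi) ^ 4 * ∫ ξ : E3, ∫ η : E3, F ξ * G η * H (ξ + η)
      * (ξ 0 * η 1 - ξ 1 * η 0) * (η 0 * (ξ 0 + η 0) + η 1 * (ξ 1 + η 1))

/-- Existence of the packets. -/
def S_PACK : Prop := ∃ b₁ b₂ c₁ c₂ K s₀ : ℝ, 0 < b₁ ∧ 0 < c₁ ∧ 0 < K ∧ 1 < s₀ ∧
  ∀ s ≥ s₀, ∀ ε ∈ Ioc (0 : ℝ) (s ^ 2)⁻¹, ∃ (φ : 𝓢(E3, E3)) (μ C b : ℝ) (B : ℕ → ℝ),
    Packet s φ μ C B ∧ 0 < μ ∧ b₁ ≤ b ∧ b ≤ b₂ ∧ c₁ * ε ≤ C ∧ C ≤ c₂ * ε ∧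
    ∀ j, 1 ≤ j → |B j - b| * s ^ (2 * j) ≤ K

end Pool.Agent.Y5
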