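import Pool.Agent.Y5.O9
import Pool.Agent.Y37.NS.WP
import Pool.Agent.Y812.NS.FREP
import Pool.Agent.Y784.NS.PACK
import Pool.Agent.Y68.NS.REPB
import Pool.Agent.Y68.NS.SUP
import Pool.Agent.Y721.NS.FIN

namespace Pool.Agent.Y5

theorem main_thm : S_MAIN :=
  Pool.Agent.Y721.NS.t_FIN Pool.Agent.Y37.NS.t_UNIQ Pool.Agent.Y37.NS.t_EXMAX
    Pool.Agent.Y274.TAIL.t_TAIL (Pool.Agent.Y784.NS.t_PACK Pool.Agent.Y812.NS.t_FREP)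
    Pool.Agent.Y68.NS.t_REP Pool.Agent.Y68.NS.t_SUP t_ODE

end Pool.Agent.Y5
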