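import Pool.Agent.Y5.Stm

/-! Basic facts on regular solutions of the reduced system. -/

open Set Filter Topology MeasureTheory

set_option autoImplicit false

namespace Pool.Agent.Y5

/-- energy of the tail -/
noncomputable def Y (x : ℕ → ℝ → ℝ) (m : ℕ) (t : ℝ) : ℝ := ∑' j : ℕ, x (m + j) t ^ 2

/-- total strain of the lower modes -/
noncomputable def U (s : ℝ) (x : ℕ → ℝ → ℝ) (m : ℕ) (t : ℝ) : ℝ :=
  ∑ i ∈ Finset.range m, s ^ (5 * i) * |x i t|

/-- Assumptions. -/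
structure Good (s ν C K T A : ℝ) (B : ℕ → ℝ) (x : ℕ → ℝ → ℝ) : Prop where
  hs : 1000000 ≤ s
  hν : 0 ≤ ν
  hK : 0 ≤ K
  hKs : K ≤ s
  hB : ∀ j, 1 ≤ j → |B j - 1| * s ^ (2 * j) ≤ K
  hB0 : |B 0| ≤ 2
  hC1 : Real.exp (-(21 / 1000 * s ^ 5)) ≤ C
  hC2 : C ≤ Real.exp (-(19 / 1000 * s ^ 5))
  hA : 0 < A
  hνA : ν * s ^ 10 ≤ A
  hT : 0 < T
  sol : RSol s ν C B T x
  h0 : x 0 0 = A
  hn : ∀ n, x (n + 1) 0 = 0
  tail : S_TAIL

namespace Good

variable {s ν C K T A : ℝ} {B : ℕ → ℝ} {x : ℕ → ℝ → ℝ}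

lemma s1 (g : Good s ν C K T A B x) : 1 < s := by have := g.hs; linarith
lemma s0 (g : Good s ν C K T A B x) : 0 < s := by have := g.hs; linarith

lemma Cpos (g : Good s ν C K T A B x) : 0 < C := (Real.exp_pos _).trans_le g.hC1

lemma B1 (g : Good s ν C K T A B x) {j : ℕ} (hj : 1 ≤ j) : |B j - 1| ≤ 1 / 1000 := by
  have h := g.hB j hj
  have hs := g.hs
  have h2 : s * 1000000 ≤ s ^ (2 * j) := by
    calc s * 1000000 ≤ s * s := by gcongr
      _ = s ^ 2 := by ring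
      _ ≤ s ^ (2 * j) := pow_le_pow_right₀ (by linarith) (by omega)
  have h3 : |B j - 1| * (s * 1000000) ≤ s := by
    calc |B j - 1| * (s * 1000000) ≤ |B j - 1| * s ^ (2 * j) := by gcongr
      _ ≤ K := h
      _ ≤ s := g.hKs
  have h4 : |B j - 1| * 1000000 ≤ 1 := by
    have : (|B j - 1| * 1000000) * s ≤ 1 * s := by nlinarith
    exact le_of_mul_le_mul_right this g.s0
  linarith [abs_nonneg (B j - 1)]

lemma Blo (g : Good s ν C K T A B x) {j : ℕ} (hj : 1 ≤ j) : 999 / 1000 ≤ B j := by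
  have := abs_le.1 (g.B1 hj); linarith [this.1]

lemma Bhi (g : Good s ν C K T A B x) {j : ℕ} (hj : 1 ≤ j) : B j ≤ 1001 / 1000 := by
  have := abs_le.1 (g.B1 hj); linarith [this.2]

lemma Babs (g : Good s ν C K T A B x) (j : ℕ) : |B j| ≤ 2 := by
  rcases Nat.eq_zero_or_pos j with rfl | hj
  · exact g.hB0
  · rw [abs_le]; constructor <;> linarith [g.Blo hj, g.Bhi hj]

lemma cont (g : Good s ν C K T A B x) (n : ℕ) : ContinuousOn (x n) (Ico 0 T) :=
  fun t ht => (g.sol.deriv n t ht).continuousWithinAt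

lemma derivAt (g : Good s ν C K T A B x) (n : ℕ) {t : ℝ} (ht : t ∈ Ioo 0 T) :
    HasDerivAt (x n) (vf s ν C B (fun m => x m t) n) t :=
  (g.sol.deriv n t ⟨ht.1.le, ht.2⟩).hasDerivAt (Ico_mem_nhds ht.1 ht.2)

/-- pointwise bound -/
lemma ptbd (g : Good s ν C K T A B x) {t : ℝ} (ht : t ∈ Ico 0 T) :
    ∃ M, 0 ≤ M ∧ ∀ n, s ^ (8 * n) * |x n t| ≤ M := by
  obtain ⟨M, hM⟩ := g.sol.bdd t ht.2
  have := hM t ⟨ht.1, le_rfl⟩
  exact ⟨M, (by have := this 0; simp at this; exact (abs_nonneg _).trans this), this⟩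

lemma xle {M t : ℝ} {n : ℕ} (hs : 1 < s) (h : s ^ (8 * n) * |x n t| ≤ M) :
    |x n t| ≤ M * (s⁻¹) ^ (8 * n) := by
  have hp : 0 < s ^ (8 * n) := by positivity
  rw [inv_pow, ← div_eq_mul_inv, le_div_iff₀ hp]
  linarith [mul_comm (s ^ (8 * n)) |x n t|]

lemma summ (g : Good s ν C K T A B x) {t : ℝ} (ht : t ∈ Ico 0 T) (m : ℕ) :
    Summable fun j : ℕ => x (m + j) t ^ 2 := by
  obtain ⟨M, hM0, hM⟩ := g.ptbd ht
  have hs1 := g.s1
  have hr : (s⁻¹) < 1 := inv_lt_one_of_one_lt₀ hs1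
  have hr0 : 0 ≤ s⁻¹ := by positivity
  refine Summable.of_nonneg_of_le (fun j => sq_nonneg _) (fun j => ?_)
    ((summable_geometric_of_lt_one hr0 hr).mul_left (M ^ 2))
  have h1 := xle (x := x) hs1 (hM (m + j))
  have h2 : (s⁻¹) ^ (8 * (m + j)) ≤ 1 := pow_le_one₀ hr0 hr.le
  have h3 : |x (m + j) t| ^ 2 ≤ (M * (s⁻¹) ^ (8 * (m + j))) ^ 2 := by gcongr
  rw [sq_abs] at h3
  refine h3.trans ?_
  rw [mul_pow, ← pow_mul]
  gcongr M ^ 2 * ?_
  exact pow_le_pow_of_le_one hr0 hr.le (by omega)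

lemma Y_nonneg (m : ℕ) (t : ℝ) : 0 ≤ Y x m t := tsum_nonneg fun _ => sq_nonneg _

lemma Y_succ (g : Good s ν C K T A B x) {t : ℝ} (ht : t ∈ Ico 0 T) (m : ℕ) :
    Y x m t = x m t ^ 2 + Y x (m + 1) t := by
  rw [Y, (g.summ ht m).tsum_eq_zero_add]
  congr 1
  rw [Y]
  congr 1; ext j; congr 2; ring

lemma sq_le (g : Good s ν C K T A B x) {t : ℝ} (ht : t ∈ Ico 0 T) {m n : ℕ} (h : m ≤ n) :
    x n t ^ 2 ≤ Y x m t := by
  obtain ⟨k, rfl⟩ := Nat.exists_eq_add_of_le h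
  exact (g.summ ht m).le_tsum k fun j _ => sq_nonneg _

lemma Y_anti (g : Good s ν C K T A B x) {t : ℝ} (ht : t ∈ Ico 0 T) (m : ℕ) :
    Y x (m + 1) t ≤ Y x m t := by
  rw [g.Y_succ ht m]; nlinarith [sq_nonneg (x m t)]

lemma abs_le_sqrt (g : Good s ν C K T A B x) {t : ℝ} (ht : t ∈ Ico 0 T) {m n : ℕ} (h : m ≤ n) :
    |x n t| ≤ √(Y x m t) := Real.abs_le_sqrt (g.sq_le ht h)

/-- weighted tails -/
lemma tsB (g : Good s ν C K T A B x) {t : ℝ} (ht : t ∈ Ico 0 T) (m : ℕ) (c : ℕ → ℕ)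
    (hc : ∀ j, 1 ≤ c j) :
    Summable (fun j : ℕ => B (c j) * x (m + j) t ^ 2) ∧
    0 ≤ ∑' j : ℕ, B (c j) * x (m + j) t ^ 2 ∧
    ∑' j : ℕ, B (c j) * x (m + j) t ^ 2 ≤ 1001 / 1000 * Y x m t := by
  have hS := g.summ ht m
  have h1 : Summable (fun j : ℕ => B (c j) * x (m + j) t ^ 2) := by
    refine Summable.of_norm_bounded (hS.mul_left 2) fun j => ?_
    rw [Real.norm_eq_abs, abs_mul, abs_of_nonneg (sq_nonneg (x (m + j) t))]
    gcongr
    exact g.Babs _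
  refine ⟨h1, tsum_nonneg fun j => mul_nonneg (by linarith [g.Blo (hc j)]) (sq_nonneg _), ?_⟩
  rw [Y, ← tsum_mul_left]
  refine h1.tsum_le_tsum (fun j => ?_) (hS.mul_left _)
  have := g.Bhi (hc j)
  gcongr

lemma U_nonneg (hs : 0 ≤ s) (m : ℕ) (t : ℝ) : 0 ≤ U s x m t :=
  Finset.sum_nonneg fun _ _ => by positivity

/-- strain sum -/
lemma strain (g : Good s ν C K T A B x) (m : ℕ) (t : ℝ) :
    |∑ i ∈ Finset.range m, s ^ (5 * i) * B (m - i) * x i t| ≤ 1001 / 1000 * U s x m t := by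
  have hs0 := g.s0
  refine (Finset.abs_sum_le_sum_abs _ _).trans ?_
  rw [U, Finset.mul_sum]
  refine Finset.sum_le_sum fun i hi => ?_
  have hi' : 1 ≤ m - i := by have := Finset.mem_range.1 hi; omega
  rw [abs_mul, abs_mul, abs_of_pos (by positivity : 0 < s ^ (5 * i)),
    abs_of_nonneg (by linarith [g.Blo hi'] : 0 ≤ B (m - i))]
  have := g.Bhi hi'
  have h2 : s ^ (5 * i) * B (m - i) * |x i t| ≤ s ^ (5 * i) * (1001 / 1000) * |x i t| := by
    gcongr
  linarith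

/-- lower bound for the vector field at a positive mode -/
lemma vf_ge (g : Good s ν C K T A B x) {t : ℝ} (ht : t ∈ Ico 0 T) (m : ℕ) :
    (if m = 0 then 0 else C * s ^ (5 * (m - 1)) * x (m - 1) t ^ 2)
      - (ν * s ^ (4 * m) + C * s ^ (5 * m) * |x (m + 1) t|
        + 1001 / 1000 * U s x m t) * |x m t| - 1001 / 1000 * s ^ (5 * m) * Y x (m + 1) t
      ≤ vf s ν C B (fun k => x k t) m := by
  have hs0 := g.s0
  have hC := g.Cpos
  have h1 := (g.tsB ht (m + 1) (fun j => j + 1) (fun j => by omega)).2.2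
  have h2 := g.strain m t
  have h3 : -(1001 / 1000 * U s x m t * |x m t|)
      ≤ x m t * ∑ i ∈ Finset.range m, s ^ (5 * i) * B (m - i) * x i t := by
    have : |x m t * ∑ i ∈ Finset.range m, s ^ (5 * i) * B (m - i) * x i t|
        ≤ 1001 / 1000 * U s x m t * |x m t| := by
      rw [abs_mul, mul_comm]; gcongr
    exact neg_le_of_abs_le this
  have h4 : s ^ (5 * m) * ∑' k : ℕ, B (k + 1) * x (m + 1 + k) t ^ 2
      ≤ 1001 / 1000 * s ^ (5 * m) * Y x (m + 1) t := by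
    calc _ ≤ s ^ (5 * m) * (1001 / 1000 * Y x (m + 1) t) := by gcongr
      _ = _ := by ring
  have h5 : ν * s ^ (4 * m) * x m t ≤ ν * s ^ (4 * m) * |x m t| := by
    have := g.hν
    gcongr
    exact le_abs_self _
  have h6 : C * s ^ (5 * m) * x m t * x (m + 1) t
      ≤ C * s ^ (5 * m) * |x (m + 1) t| * |x m t| := by
    have : x m t * x (m + 1) t ≤ |x (m + 1) t| * |x m t| := by
      rw [← abs_mul, mul_comm]; exact le_abs_self _
    calc C * s ^ (5 * m) * x m t * x (m + 1) t = C * s ^ (5 * m) * (x m t * x (m + 1) t) := by ring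
      _ ≤ C * s ^ (5 * m) * (|x (m + 1) t| * |x m t|) := by gcongr
      _ = _ := by ring
  unfold vf
  simp only
  linarith

/-- upper bound for the vector field at a positive mode with a positive next mode -/
lemma vf_le (g : Good s ν C K T A B x) {t : ℝ} (ht : t ∈ Ico 0 T) (m : ℕ) (h0 : 0 ≤ x m t)
    (h1 : 0 ≤ x (m + 1) t) :
    vf s ν C B (fun k => x k t) m ≤
    (if m = 0 then 0 else C * s ^ (5 * (m - 1)) * x (m - 1) t ^ 2)
      + 1001 / 1000 * U s x m t * x m t := by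
  have hs0 := g.s0
  have hC := g.Cpos
  have hν := g.hν
  have h2 := g.strain m t
  have h3 : x m t * ∑ i ∈ Finset.range m, s ^ (5 * i) * B (m - i) * x i t
      ≤ 1001 / 1000 * U s x m t * x m t := by
    have := le_of_abs_le h2
    nlinarith
  have h4 := (g.tsB ht (m + 1) (fun j => j + 1) (fun j => by omega)).2.1
  have h4' : 0 ≤ s ^ (5 * m) * ∑' k : ℕ, B (k + 1) * x (m + 1 + k) t ^ 2 := by positivity
  have h5 : 0 ≤ ν * s ^ (4 * m) * x m t := by positivity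
  have h6 : 0 ≤ C * s ^ (5 * m) * x m t * x (m + 1) t := by positivity
  unfold vf
  simp only
  linarith

/-- derivative of the tail energy -/
lemma Yder (g : Good s ν C K T A B x) (m : ℕ) {t : ℝ} (ht : t ∈ Ico 0 T) :
    ∃ D, HasDerivWithinAt (Y x m) D (Ico 0 T) t ∧
      D ≤ -(2 * (ν * s ^ (4 * m)) * Y x m t)
        + 2 * (if m = 0 then 0 else C * s ^ (5 * (m - 1)) * x (m - 1) t ^ 2 * x m t)
        + 2 * ∑ i ∈ Finset.range m, s ^ (5 * i) * x i t *
            ∑' j : ℕ, B (m + j - i) * x (m + j) t ^ 2 := by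
  have hs0 := g.s0
  have hs1 := g.s1
  have hν := g.hν
  refine ⟨_, g.tail s ν C 2 T B x g.s1 g.hν g.Babs g.sol m t ht, ?_⟩
  have hS := g.summ ht m
  have h : ν * s ^ (4 * m) * Y x m t ≤ ∑' j : ℕ, ν * s ^ (4 * (m + j)) * x (m + j) t ^ 2 := by
    rw [Y, ← tsum_mul_left]
    refine (hS.mul_left _).tsum_le_tsum (fun j => ?_) ?_
    · gcongr
      · exact hs1.le
      · omega
    · obtain ⟨M, hM0, hM⟩ := g.ptbd ht
      have hr : (s⁻¹) < 1 := inv_lt_one_of_one_lt₀ hs1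
      have hr0 : 0 ≤ s⁻¹ := by positivity
      refine Summable.of_nonneg_of_le (fun j => by positivity) (fun j => ?_)
        ((summable_geometric_of_lt_one hr0 hr).mul_left (ν * M ^ 2))
      have h1 := xle (x := x) hs1 (hM (m + j))
      have h3 : |x (m + j) t| ^ 2 ≤ (M * (s⁻¹) ^ (8 * (m + j))) ^ 2 := by gcongr
      rw [sq_abs] at h3
      calc ν * s ^ (4 * (m + j)) * x (m + j) t ^ 2
          ≤ ν * s ^ (4 * (m + j)) * (M * (s⁻¹) ^ (8 * (m + j))) ^ 2 := by gcongr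
        _ = ν * M ^ 2 * (s⁻¹) ^ (12 * (m + j)) := by
            rw [mul_pow, ← pow_mul]
            have : s ^ (4 * (m + j)) * (s⁻¹) ^ (8 * (m + j) * 2) = (s⁻¹) ^ (12 * (m + j)) := by
              have e : 8 * (m + j) * 2 = 4 * (m + j) + 12 * (m + j) := by ring
              rw [e, pow_add, ← mul_assoc, ← mul_pow, mul_inv_cancel₀ hs0.ne', one_pow, one_mul]
            rw [← this]; ring
        _ ≤ ν * M ^ 2 * (s⁻¹) ^ j := by
            gcongr ν * M ^ 2 * ?_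
            exact pow_le_pow_of_le_one hr0 hr.le (by omega)
  linarith

lemma Ycont (g : Good s ν C K T A B x) (m : ℕ) : ContinuousOn (Y x m) (Ico 0 T) := fun _ ht =>
  (g.Yder m ht).choose_spec.1.continuousWithinAt

/-- crude bound for the derivative of the tail energy -/
lemma Yder' (g : Good s ν C K T A B x) (m : ℕ) {t : ℝ} (ht : t ∈ Ico 0 T) :
    ∃ D, HasDerivWithinAt (Y x m) D (Ico 0 T) t ∧
      D ≤ 2 * (if m = 0 then 0 else C * s ^ (5 * (m - 1)) * x (m - 1) t ^ 2) * √(Y x m t)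
        + 2 * (1001 / 1000 * U s x m t) * Y x m t := by
  obtain ⟨D, hD, h⟩ := g.Yder m ht
  refine ⟨D, hD, h.trans ?_⟩
  have hs0 := g.s0
  have hν := g.hν
  have hC := g.Cpos
  have hY := Y_nonneg (x := x) m t
  have h1 : ∑ i ∈ Finset.range m, s ^ (5 * i) * x i t *
      ∑' j : ℕ, B (m + j - i) * x (m + j) t ^ 2 ≤ 1001 / 1000 * U s x m t * Y x m t := by
    rw [U, Finset.mul_sum, Finset.sum_mul]
    refine Finset.sum_le_sum fun i hi => ?_
    have hi' := Finset.mem_range.1 hi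
    obtain ⟨_, h2, h3⟩ := g.tsB ht m (fun j => m + j - i) (fun j => by omega)
    calc s ^ (5 * i) * x i t * ∑' j : ℕ, B (m + j - i) * x (m + j) t ^ 2
        ≤ s ^ (5 * i) * |x i t| * ∑' j : ℕ, B (m + j - i) * x (m + j) t ^ 2 := by
          gcongr; exact le_abs_self _
      _ ≤ s ^ (5 * i) * |x i t| * (1001 / 1000 * Y x m t) := by gcongr
      _ = _ := by ring
  have h2 : (if m = 0 then 0 else C * s ^ (5 * (m - 1)) * x (m - 1) t ^ 2 * x m t)
      ≤ (if m = 0 then 0 else C * s ^ (5 * (m - 1)) * x (m - 1) t ^ 2) * √(Y x m t) := by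
    split_ifs
    · simp
    · gcongr
      exact (le_abs_self _).trans (g.abs_le_sqrt ht le_rfl)
  have h3 : 0 ≤ 2 * (ν * s ^ (4 * m)) * Y x m t := by positivity
  nlinarith

end Good

end Pool.Agent.Y5
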