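import Pool.Agent.Y5.O1
import Pool.Agent.Y5.O2

/-! Initial behaviour of the modes. -/

open Set Filter Topology MeasureTheory

set_option autoImplicit false

namespace Pool.Agent.Y5.Good

variable {s ν C K T A : ℝ} {B : ℕ → ℝ} {x : ℕ → ℝ → ℝ}

lemma cp (g : Good s ν C K T A B x) (m : ℕ) :
    ContinuousOn (fun t => C * s ^ (5 * m) * x m t ^ 2) (Ico 0 T) :=
  continuousOn_const.mul ((g.cont m).pow 2)

lemma initial (g : Good s ν C K T A B x) {m : ℕ}
    (hpos : ∃ δ > 0, ∀ t ∈ Ioo 0 T, t < δ → x m t ≠ 0) {ρ : ℝ} (hρ : 0 < ρ) :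
    ∃ δ > 0, ∀ t ∈ Ioo 0 T, t < δ → 0 < x (m + 1) t ∧
      Y x (m + 2) t ≤ ρ * x (m + 1) t ^ 2 := by
  have hs0 := g.s0
  have hs1 := g.s1
  have hC := g.Cpos
  have hν := g.hν
  have hTpos := g.hT
  obtain ⟨δ0, hδ0, hx⟩ := hpos
  obtain ⟨M', hM'⟩ := g.sol.bdd (T / 2) (by linarith)
  set M := max M' 0 with hMdef
  have hM0 : 0 ≤ M := le_max_right _ _
  have hM : ∀ t ∈ Icc 0 (T / 2), ∀ n, |x n t| ≤ M := by
    intro t ht n
    have h1 := (hM' t ht n).trans (le_max_left M' 0)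
    have h2 : 1 ≤ s ^ (8 * n) := one_le_pow₀ hs1.le
    nlinarith [abs_nonneg (x n t)]
  have hU : ∀ k, ∀ t ∈ Icc 0 (T / 2), U s x k t ≤ ∑ i ∈ Finset.range k, s ^ (5 * i) * M := by
    intro k t ht
    refine Finset.sum_le_sum fun i _ => ?_
    have := hM t ht i
    gcongr
  set L1 : ℝ := ν * s ^ (4 * (m + 1)) + C * s ^ (5 * (m + 1)) * M
    + 1001 / 1000 * ∑ i ∈ Finset.range (m + 2), s ^ (5 * i) * M with hL1
  have hsum : ∑ i ∈ Finset.range (m + 1), s ^ (5 * i) * M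
      ≤ ∑ i ∈ Finset.range (m + 2), s ^ (5 * i) * M := by
    refine Finset.sum_le_sum_of_subset_of_nonneg (Finset.range_mono (by omega))
      (fun _ _ _ => by positivity)
  have hsum0 : 0 ≤ ∑ i ∈ Finset.range (m + 1), s ^ (5 * i) * M :=
    Finset.sum_nonneg fun _ _ => by positivity
  have ha1 : 0 ≤ ν * s ^ (4 * (m + 1)) := by positivity
  have ha2 : 0 ≤ C * s ^ (5 * (m + 1)) * M := by positivity
  have hL10 : 0 ≤ L1 := by rw [hL1]; linarith
  have hU1 : ∀ t ∈ Icc 0 (T / 2), 1001 / 1000 * U s x (m + 1) t ≤ L1 := fun t ht => by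
    have := hU (m + 1) t ht
    rw [hL1]; linarith
  have hU2 : ∀ t ∈ Icc 0 (T / 2), 1001 / 1000 * U s x (m + 2) t ≤ L1 := fun t ht => by
    have := hU (m + 2) t ht
    rw [hL1]; linarith
  set p : ℝ → ℝ := fun t => C * s ^ (5 * m) * x m t ^ 2 with hp
  have hpc : ContinuousOn p (Ico 0 T) := g.cp m
  set S := Pr p with hS
  have hp0 : ∀ t, 0 ≤ p t := fun t => by rw [hp]; positivity
  have hmem0 : (0 : ℝ) ∈ Ico 0 T := ⟨le_rfl, hTpos⟩
  have hmem : ∀ t ∈ Icc 0 (T / 2), t ∈ Ico 0 T := fun t ht => ⟨ht.1, by linarith [ht.2]⟩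
  have hSmono : ∀ a ∈ Icc 0 (T / 2), ∀ b ∈ Icc 0 (T / 2), a ≤ b → S a ≤ S b :=
    fun a ha b hb hab => Pr_mono hpc (hmem a ha) (hmem b hb) hab fun t _ => hp0 t
  have hS0 : ∀ t ∈ Icc 0 (T / 2), 0 ≤ S t := fun t ht => by
    have := hSmono 0 ⟨le_rfl, by linarith⟩ t ht ht.1
    simpa [hS] using this
  set E := Real.exp (L1 * (T / 2)) with hE
  have hE1 : 1 ≤ E := by rw [hE]; exact Real.one_le_exp (by positivity)
  have hEt : ∀ t ∈ Icc 0 (T / 2), Real.exp (L1 * (t - 0)) ≤ E := fun t ht => by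
    rw [hE, sub_zero]
    gcongr
    exact ht.2
  -- zero data
  have hY0 : ∀ k, 1 ≤ k → Y x k 0 = 0 := by
    intro k hk
    rw [Y]
    have : ∀ j : ℕ, x (k + j) 0 ^ 2 = 0 := fun j => by
      obtain ⟨l, hl⟩ : ∃ l, k + j = l + 1 := ⟨k + j - 1, by omega⟩
      rw [hl, g.hn l]; simp
    simp [this]
  have hsub : ∀ {t}, t ∈ Icc 0 (T / 2) → Icc 0 t ⊆ Ico 0 T := fun ht τ hτ =>
    ⟨hτ.1, by linarith [hτ.2, ht.2]⟩
  have hYd : ∀ k, ∀ τ ∈ Ioo 0 T, HasDerivAt (Y x k) (deriv (Y x k) τ) τ ∧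
      deriv (Y x k) τ ≤ 2 * (if k = 0 then 0 else C * s ^ (5 * (k - 1)) * x (k - 1) τ ^ 2) *
        √(Y x k τ) + 2 * (1001 / 1000 * U s x k τ) * Y x k τ := by
    intro k τ hτ
    obtain ⟨D, hD, hDle⟩ := g.Yder' k ⟨hτ.1.le, hτ.2⟩
    have h1 := hD.hasDerivAt (Ico_mem_nhds hτ.1 hτ.2)
    rw [h1.deriv]
    exact ⟨h1, hDle⟩
  -- first bound
  have hY1 : ∀ t ∈ Icc 0 (T / 2), √(Y x (m + 1) t) ≤ E * S t := by
    intro t ht
    have h1 := sqrt_gron (Y := Y x (m + 1)) (D := deriv (Y x (m + 1))) (P := S) (P' := p)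
      (a := 0) (b := t) (q := L1) ht.1 hL10 ((g.Ycont (m + 1)).mono (hsub ht))
      (fun τ _ => Y_nonneg _ _) ((Pr_cont hpc).mono (hsub ht))
      (fun τ hτ => Pr_deriv hpc ⟨hτ.1, by linarith [hτ.2, ht.2]⟩) (fun τ _ => hp0 τ)
      (fun τ hτ => (hYd (m + 1) τ ⟨hτ.1, by linarith [hτ.2, ht.2]⟩).1)
      (fun τ hτ => by
        have h2 := (hYd (m + 1) τ ⟨hτ.1, by linarith [hτ.2, ht.2]⟩).2
        rw [if_neg (by omega)] at h2
        have h3 := hU1 τ ⟨hτ.1.le, by linarith [hτ.2, ht.2]⟩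
        have h4 := Y_nonneg (x := x) (m + 1) τ
        simp only [Nat.add_sub_cancel] at h2
        have : 2 * (1001 / 1000 * U s x (m + 1) τ) * Y x (m + 1) τ
          ≤ 2 * L1 * Y x (m + 1) τ := by gcongr
        simp only [hp]
        linarith)
    have hS00 : S 0 = 0 := by rw [hS, Pr_zero]
    have e0 : (0 : ℝ) + (S t - 0) = S t := by ring
    rw [hY0 (m + 1) (by omega), Real.sqrt_zero, hS00, e0] at h1
    refine h1.trans ?_
    have := hS0 t ht
    have := hEt t ht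
    gcongr
  -- second bound
  have hY2 : ∀ t ∈ Icc 0 (T / 2), √(Y x (m + 2) t)
      ≤ E * (C * s ^ (5 * (m + 1)) * (E * S t) ^ 2 * t) := by
    intro t ht
    set c := C * s ^ (5 * (m + 1)) * (E * S t) ^ 2 with hc
    have hc0 : 0 ≤ c := by positivity
    have h1 := sqrt_gron (Y := Y x (m + 2)) (D := deriv (Y x (m + 2))) (P := fun τ => c * τ)
      (P' := fun _ => c) (a := 0) (b := t) (q := L1) ht.1 hL10
      ((g.Ycont (m + 2)).mono (hsub ht))
      (fun τ _ => Y_nonneg _ _) (by fun_prop)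
      (fun τ hτ => by simpa using (hasDerivAt_id τ).const_mul c) (fun τ _ => hc0)
      (fun τ hτ => (hYd (m + 2) τ ⟨hτ.1, by linarith [hτ.2, ht.2]⟩).1)
      (fun τ hτ => by
        have hτ' : τ ∈ Icc 0 (T / 2) := ⟨hτ.1.le, by linarith [hτ.2, ht.2]⟩
        have h2 := (hYd (m + 2) τ ⟨hτ.1, by linarith [hτ.2, ht.2]⟩).2
        rw [if_neg (by omega)] at h2
        have h3 := hU2 τ hτ'
        have h4 := Y_nonneg (x := x) (m + 2) τ
        have e1 : m + 2 - 1 = m + 1 := by omega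
        rw [e1] at h2
        have h5 : 2 * (1001 / 1000 * U s x (m + 2) τ) * Y x (m + 2) τ
          ≤ 2 * L1 * Y x (m + 2) τ := by gcongr
        have h6 : x (m + 1) τ ^ 2 ≤ (E * S t) ^ 2 := by
          have h7 : |x (m + 1) τ| ≤ E * S t := by
            refine (g.abs_le_sqrt (hmem τ hτ') le_rfl).trans ((hY1 τ hτ').trans ?_)
            have := hSmono τ hτ' t ht hτ.2.le
            gcongr
          rw [← sq_abs]
          gcongr
        have h8 : C * s ^ (5 * (m + 1)) * x (m + 1) τ ^ 2 ≤ c := by rw [hc]; gcongr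
        have h9 : 2 * (C * s ^ (5 * (m + 1)) * x (m + 1) τ ^ 2) * √(Y x (m + 2) τ)
          ≤ 2 * c * √(Y x (m + 2) τ) := by gcongr
        linarith)
    rw [hY0 (m + 2) (by omega), Real.sqrt_zero, zero_add] at h1
    simp only [mul_zero, sub_zero] at h1
    refine h1.trans ?_
    have := hEt t ht
    rw [sub_zero] at this
    have h0t := ht.1
    gcongr
  -- lower bound
  have hlow : ∀ t ∈ Icc 0 (T / 2), S t - t * (L1 * (E * S t) + 1001 / 1000 *
      s ^ (5 * (m + 1)) * (E * (C * s ^ (5 * (m + 1)) * (E * S t) ^ 2 * t)) ^ 2)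
      ≤ x (m + 1) t := by
    intro t ht
    set R := L1 * (E * S t) + 1001 / 1000 *
      s ^ (5 * (m + 1)) * (E * (C * s ^ (5 * (m + 1)) * (E * S t) ^ 2 * t)) ^ 2 with hR
    have h1 := mono_of (f := fun τ => x (m + 1) τ - S τ + R * τ)
      (f' := fun τ => vf s ν C B (fun k => x k τ) (m + 1) - p τ + R) ht.1
      ((((g.cont (m + 1)).mono (hsub ht)).sub ((Pr_cont hpc).mono (hsub ht))).add
        (by fun_prop))
      (fun τ hτ => by
        have hτ' : τ ∈ Ioo 0 T := ⟨hτ.1, by linarith [hτ.2, ht.2]⟩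
        have := ((g.derivAt (m + 1) hτ').fun_sub (Pr_deriv hpc hτ')).fun_add
          ((hasDerivAt_id τ).const_mul R)
        simpa using this)
      (fun τ hτ => by
        have hτ' : τ ∈ Icc 0 (T / 2) := ⟨hτ.1.le, by linarith [hτ.2, ht.2]⟩
        have h2 := g.vf_ge (hmem τ hτ') (m + 1)
        rw [if_neg (by omega)] at h2
        simp only [Nat.add_sub_cancel] at h2
        have h3 : |x (m + 1) τ| ≤ E * S t := by
          refine (g.abs_le_sqrt (hmem τ hτ') le_rfl).trans ((hY1 τ hτ').trans ?_)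
          have := hSmono τ hτ' t ht hτ.2.le
          gcongr
        have h4 : Y x (m + 2) τ ≤ (E * (C * s ^ (5 * (m + 1)) * (E * S t) ^ 2 * t)) ^ 2 := by
          have h5 := hY2 τ hτ'
          have h6 : √(Y x (m + 2) τ) ≤ E * (C * s ^ (5 * (m + 1)) * (E * S t) ^ 2 * t) := by
            refine h5.trans ?_
            have := hSmono τ hτ' t ht hτ.2.le
            have := hS0 τ hτ'
            have := hτ.2.le
            have := hτ.1.le
            gcongr
          calc Y x (m + 2) τ = √(Y x (m + 2) τ) ^ 2 := (Real.sq_sqrt (Y_nonneg _ _)).symm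
            _ ≤ _ := by gcongr
        have h7 : ν * s ^ (4 * (m + 1)) + C * s ^ (5 * (m + 1)) * |x (m + 1 + 1) τ|
            + 1001 / 1000 * U s x (m + 1) τ ≤ L1 := by
          have a1 := hU (m + 1) τ hτ'
          have a2 := hM τ hτ' (m + 1 + 1)
          have a3 : C * s ^ (5 * (m + 1)) * |x (m + 1 + 1) τ| ≤ C * s ^ (5 * (m + 1)) * M := by
            gcongr
          rw [hL1]
          linarith
        have h8 : (ν * s ^ (4 * (m + 1)) + C * s ^ (5 * (m + 1)) * |x (m + 1 + 1) τ|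
            + 1001 / 1000 * U s x (m + 1) τ) * |x (m + 1) τ| ≤ L1 * (E * S t) := by
          have := U_nonneg (x := x) hs0.le (m + 1) τ
          gcongr
        have h9 : 1001 / 1000 * s ^ (5 * (m + 1)) * Y x (m + 1 + 1) τ
            ≤ 1001 / 1000 * s ^ (5 * (m + 1)) *
              (E * (C * s ^ (5 * (m + 1)) * (E * S t) ^ 2 * t)) ^ 2 := by gcongr
        simp only [hp, hR]
        linarith)
    have h0 : x (m + 1) 0 = 0 := g.hn m
    simp only [h0, hS, Pr_zero, mul_zero, sub_zero, add_zero] at h1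
    rw [← hS] at h1
    linarith [mul_comm R t]
  -- constants
  set Sb := S (T / 2) with hSb
  have hSb0 : 0 ≤ Sb := hS0 _ ⟨by linarith, le_rfl⟩
  set K1 := L1 * E + 1001 / 1000 * s ^ (5 * (m + 1)) * (E * (C * s ^ (5 * (m + 1)) * E ^ 2)) ^ 2
    * Sb ^ 3 with hK1
  have hK10 : 0 ≤ K1 := by positivity
  set K2 := 4 * (E * (C * s ^ (5 * (m + 1)) * E ^ 2)) ^ 2 * Sb ^ 2 with hK2
  have hK20 : 0 ≤ K2 := by positivity
  refine ⟨min (min δ0 (T / 2)) (min (1 / (2 * K1 + 1)) (min 1 (ρ / (K2 + 1)))), by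
    refine lt_min (lt_min hδ0 (by linarith)) (lt_min (by positivity) (lt_min one_pos
      (by positivity))), fun t ht htδ => ?_⟩
  have b1 : t < δ0 := htδ.trans_le ((min_le_left _ _).trans (min_le_left _ _))
  have b2 : t < T / 2 := htδ.trans_le ((min_le_left _ _).trans (min_le_right _ _))
  have b3 : t < 1 / (2 * K1 + 1) := htδ.trans_le ((min_le_right _ _).trans (min_le_left _ _))
  have b4 : t < 1 := htδ.trans_le ((min_le_right _ _).trans
    ((min_le_right _ _).trans (min_le_left _ _)))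
  have b5 : t < ρ / (K2 + 1) := htδ.trans_le ((min_le_right _ _).trans
    ((min_le_right _ _).trans (min_le_right _ _)))
  have ht' : t ∈ Icc 0 (T / 2) := ⟨ht.1.le, b2.le⟩
  have hSt : 0 < S t := by
    rw [hS, Pr]
    refine intervalIntegral.intervalIntegral_pos_of_pos_on
      (Pr_int hpc hmem0 (hmem t ht')) (fun τ hτ => ?_) ht.1
    have := hx τ ⟨hτ.1, hτ.2.trans ht.2⟩ (hτ.2.trans b1)
    simp only [hp]
    positivity
  have hSle : S t ≤ Sb := hSmono t ht' _ ⟨by linarith, le_rfl⟩ b2.le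
  have ht0 := ht.1
  have key1 : S t / 2 ≤ x (m + 1) t := by
    refine le_trans ?_ (hlow t ht')
    have e1 : L1 * (E * S t) + 1001 / 1000 *
      s ^ (5 * (m + 1)) * (E * (C * s ^ (5 * (m + 1)) * (E * S t) ^ 2 * t)) ^ 2 ≤ K1 * S t := by
      have : (E * (C * s ^ (5 * (m + 1)) * (E * S t) ^ 2 * t)) ^ 2
          ≤ (E * (C * s ^ (5 * (m + 1)) * E ^ 2)) ^ 2 * Sb ^ 3 * S t := by
        calc (E * (C * s ^ (5 * (m + 1)) * (E * S t) ^ 2 * t)) ^ 2
            = (E * (C * s ^ (5 * (m + 1)) * E ^ 2)) ^ 2 * (S t) ^ 3 * S t * t ^ 2 := by ring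
          _ ≤ (E * (C * s ^ (5 * (m + 1)) * E ^ 2)) ^ 2 * Sb ^ 3 * S t * 1 := by
              gcongr
              nlinarith
          _ = _ := by ring
      calc _ ≤ L1 * (E * S t) + 1001 / 1000 * s ^ (5 * (m + 1)) *
            ((E * (C * s ^ (5 * (m + 1)) * E ^ 2)) ^ 2 * Sb ^ 3 * S t) := by gcongr
        _ = K1 * S t := by rw [hK1]; ring
    have e2 : t * (2 * K1 + 1) ≤ 1 := by
      rw [lt_div_iff₀ (by positivity)] at b3
      exact b3.le
    have e3 : t * (K1 * S t) ≤ S t / 2 := by nlinarith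
    have e4 : t * (L1 * (E * S t) + 1001 / 1000 *
      s ^ (5 * (m + 1)) * (E * (C * s ^ (5 * (m + 1)) * (E * S t) ^ 2 * t)) ^ 2)
      ≤ t * (K1 * S t) := by gcongr
    linarith
  have hxpos : 0 < x (m + 1) t := by linarith
  refine ⟨hxpos, ?_⟩
  have h10 : Y x (m + 2) t ≤ (E * (C * s ^ (5 * (m + 1)) * (E * S t) ^ 2 * t)) ^ 2 := by
    calc Y x (m + 2) t = √(Y x (m + 2) t) ^ 2 := (Real.sq_sqrt (Y_nonneg _ _)).symm
      _ ≤ _ := by gcongr; exact hY2 t ht'
  calc Y x (m + 2) t ≤ (E * (C * s ^ (5 * (m + 1)) * (E * S t) ^ 2 * t)) ^ 2 := h10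
    _ = (E * (C * s ^ (5 * (m + 1)) * E ^ 2)) ^ 2 * (S t) ^ 2 * (S t) ^ 2 * (t * t) := by ring
    _ ≤ (E * (C * s ^ (5 * (m + 1)) * E ^ 2)) ^ 2 * Sb ^ 2 * (S t) ^ 2 * (t * 1) := by
        gcongr
    _ = (K2 * t) * (S t / 2) ^ 2 := by rw [hK2]; ring
    _ ≤ ρ * (x (m + 1) t) ^ 2 := by
        have e5 : K2 * t ≤ ρ := by
          rw [lt_div_iff₀ (by positivity)] at b5
          nlinarith
        gcongr

end Pool.Agent.Y5.Good
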