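import Pool.Agent.Y5.O3

/-! The ratio of the tail to an inactive mode stays small. -/

open Set Filter Topology MeasureTheory

set_option autoImplicit false

namespace Pool.Agent.Y5

noncomputable def e1 (s : ℝ) : ℝ := Real.exp (-(s ^ 5 / 100))
noncomputable def e2 (s : ℝ) : ℝ := 1 / (1000 * s ^ 5)

lemma geo_sum (r : ℝ) (h0 : 0 ≤ r) (h1 : r ≤ 1 / 2) (n : ℕ) :
    ∑ i ∈ Finset.range n, r ^ (2 * (n - i)) ≤ 2 * r ^ 2 := by
  induction n with
  | zero => simp; positivity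
  | succ n ih =>
    rw [Finset.sum_range_succ]
    have e : ∑ i ∈ Finset.range n, r ^ (2 * (n + 1 - i))
        = r ^ 2 * ∑ i ∈ Finset.range n, r ^ (2 * (n - i)) := by
      rw [Finset.mul_sum]
      refine Finset.sum_congr rfl fun i hi => ?_
      have hi' := Finset.mem_range.1 hi
      rw [← pow_add]; congr 1; omega
    rw [e]
    have e2 : 2 * (n + 1 - n) = 2 := by omega
    rw [e2]
    have h2 : r ^ 2 ≤ 1 / 4 := by nlinarith
    have h3 : 0 ≤ r ^ 2 := by positivity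
    nlinarith

namespace Good

variable {s ν C K T A : ℝ} {B : ℕ → ℝ} {x : ℕ → ℝ → ℝ}

lemma s5 (g : Good s ν C K T A B x) : (10 : ℝ) ^ 30 ≤ s ^ 5 := by
  have := g.hs
  calc (10 : ℝ) ^ 30 = (1000000 : ℝ) ^ 5 := by norm_num
    _ ≤ s ^ 5 := by gcongr

lemma e1_lt (g : Good s ν C K T A B x) : e1 s < e2 s := by
  have h := g.s5
  rw [e1, e2, Real.exp_neg, ← one_div]
  have h1 : (s ^ 5 / 100) ^ 2 / 2 ≤ Real.exp (s ^ 5 / 100) :=
    Real.quadratic_le_exp_of_nonneg (by linarith) |>.trans' (by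
      have : (0 : ℝ) ≤ s ^ 5 / 100 := by linarith
      linarith)
  have h2 : 1000 * s ^ 5 < (s ^ 5 / 100) ^ 2 / 2 := by nlinarith
  exact one_div_lt_one_div_of_lt (by linarith) (h2.trans_le h1)

lemma e2_small (g : Good s ν C K T A B x) : e2 s ≤ 1 / 10000 := by
  have h := g.s5
  rw [e2]
  exact one_div_le_one_div_of_le (by norm_num) (by linarith)

lemma e1_pos : 0 < e1 s := Real.exp_pos _

lemma numQ (g : Good s ν C K T A B x) {W : ℝ} (hW : W ≤ 2047 / 100000 * s ^ 5) :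
    Real.exp W * (336 * C ^ 2) ≤ e1 s := by
  have h := g.s5
  have hC := g.Cpos
  have h1 : C ^ 2 ≤ Real.exp (-(38 / 1000 * s ^ 5)) := by
    calc C ^ 2 ≤ (Real.exp (-(19 / 1000 * s ^ 5))) ^ 2 := by gcongr; exact g.hC2
      _ = _ := by rw [← Real.exp_nat_mul]; congr 1; push_cast; ring
  have h2 : Real.exp W ≤ Real.exp (2047 / 100000 * s ^ 5) := Real.exp_le_exp.2 hW
  have h3 : (336 : ℝ) ≤ Real.exp (753 / 100000 * s ^ 5) := by
    have := Real.add_one_le_exp (753 / 100000 * s ^ 5)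
    linarith
  calc Real.exp W * (336 * C ^ 2)
      ≤ Real.exp (2047 / 100000 * s ^ 5) * (Real.exp (753 / 100000 * s ^ 5) *
        Real.exp (-(38 / 1000 * s ^ 5))) := by gcongr
    _ = e1 s := by
        rw [e1, ← Real.exp_add, ← Real.exp_add]; congr 1; ring

lemma Binv (g : Good s ν C K T A B x) {j : ℕ} (hj : 1 ≤ j) : |B j - 1| ≤ K * (s⁻¹) ^ (2 * j) := by
  have h := g.hB j hj
  have hp : 0 < s ^ (2 * j) := pow_pos g.s0 _
  rw [inv_pow, ← div_eq_mul_inv, le_div_iff₀ hp]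
  exact h

/-- difference of weighted tails -/
lemma tdiff (g : Good s ν C K T A B x) {t : ℝ} (ht : t ∈ Ico 0 T) {i m : ℕ} (hi : i ≤ m) (y : ℝ) :
    y * ((∑' j : ℕ, B (m + 2 + j - i) * x (m + 2 + j) t ^ 2) - B (m + 1 - i) * Y x (m + 2) t)
      ≤ |y| * (2 * K * (s⁻¹) ^ (2 * (m + 1 - i)) * Y x (m + 2) t) := by
  have hs0 := g.s0
  have hs1 := g.s1
  have hr : (s⁻¹) < 1 := inv_lt_one_of_one_lt₀ hs1
  have hr0 : 0 ≤ s⁻¹ := by positivity
  set δ := 2 * K * (s⁻¹) ^ (2 * (m + 1 - i)) with hδ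
  have hK := g.hK
  have hS := g.summ ht (m + 2)
  have hB : ∀ j : ℕ, |B (m + 2 + j - i) - B (m + 1 - i)| ≤ δ := by
    intro j
    have h1 := g.Binv (j := m + 2 + j - i) (by omega)
    have h2 := g.Binv (j := m + 1 - i) (by omega)
    have h3 : (s⁻¹) ^ (2 * (m + 2 + j - i)) ≤ (s⁻¹) ^ (2 * (m + 1 - i)) :=
      pow_le_pow_of_le_one hr0 hr.le (by omega)
    have h4 : K * (s⁻¹) ^ (2 * (m + 2 + j - i)) ≤ K * (s⁻¹) ^ (2 * (m + 1 - i)) := by gcongr
    calc |B (m + 2 + j - i) - B (m + 1 - i)|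
        = |(B (m + 2 + j - i) - 1) - (B (m + 1 - i) - 1)| := by congr 1; ring
      _ ≤ |B (m + 2 + j - i) - 1| + |B (m + 1 - i) - 1| := abs_sub _ _
      _ ≤ δ := by rw [hδ]; linarith
  have hTs : Summable (fun j : ℕ => B (m + 2 + j - i) * x (m + 2 + j) t ^ 2) :=
    (g.tsB ht (m + 2) (fun j => m + 2 + j - i) (fun j => by omega)).1
  have hup : (∑' j : ℕ, B (m + 2 + j - i) * x (m + 2 + j) t ^ 2)
      ≤ (B (m + 1 - i) + δ) * Y x (m + 2) t := by
    rw [Y, ← tsum_mul_left]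
    refine hTs.tsum_le_tsum (fun j => ?_) (hS.mul_left _)
    have := (abs_le.1 (hB j)).2
    have : B (m + 2 + j - i) ≤ B (m + 1 - i) + δ := by linarith
    gcongr
  have hlo : (B (m + 1 - i) - δ) * Y x (m + 2) t
      ≤ (∑' j : ℕ, B (m + 2 + j - i) * x (m + 2 + j) t ^ 2) := by
    rw [Y, ← tsum_mul_left]
    refine (hS.mul_left _).tsum_le_tsum (fun j => ?_) hTs
    have := (abs_le.1 (hB j)).1
    have : B (m + 1 - i) - δ ≤ B (m + 2 + j - i) := by linarith
    gcongr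
  have habs : |(∑' j : ℕ, B (m + 2 + j - i) * x (m + 2 + j) t ^ 2)
      - B (m + 1 - i) * Y x (m + 2) t| ≤ δ * Y x (m + 2) t := by
    rw [abs_le]; constructor <;> nlinarith
  calc _ ≤ |y * ((∑' j : ℕ, B (m + 2 + j - i) * x (m + 2 + j) t ^ 2)
        - B (m + 1 - i) * Y x (m + 2) t)| := le_abs_self _
    _ ≤ _ := by rw [abs_mul]; gcongr

/-- algebraic inequality for the derivative of the ratio -/
lemma Qineq (g : Good s ν C K T A B x) {t : ℝ} (ht : t ∈ Ico 0 T) (m : ℕ)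
    (hX : 0 < x (m + 1) t) (hq : Y x (m + 2) t ≤ e2 s * x (m + 1) t ^ 2) {D : ℝ}
    (hD : D ≤ -(2 * (ν * s ^ (4 * (m + 2))) * Y x (m + 2) t)
        + 2 * (C * s ^ (5 * (m + 1)) * x (m + 1) t ^ 2 * x (m + 2) t)
        + 2 * ∑ i ∈ Finset.range (m + 2), s ^ (5 * i) * x i t *
            ∑' j : ℕ, B (m + 2 + j - i) * x (m + 2 + j) t ^ 2) :
    (D * x (m + 1) t ^ 2 - Y x (m + 2) t *
      (2 * x (m + 1) t * vf s ν C B (fun k => x k t) (m + 1))) / (x (m + 1) t ^ 2) ^ 2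
    ≤ (2006 / 1000 * (s ^ (5 * (m + 1)) * |x (m + 1) t|)
        + 2 * ∑ i ∈ Finset.range (m + 1),
          2 * K * (s⁻¹) ^ (2 * (m + 1 - i)) * (s ^ (5 * i) * |x i t|))
      * (Y x (m + 2) t / x (m + 1) t ^ 2 + 168 * C ^ 2) := by
  have hs0 := g.s0
  have hs1 := g.s1
  have hν := g.hν
  have hC := g.Cpos
  have hK := g.hK
  set X := x (m + 1) t with hXd
  set Yv := Y x (m + 2) t with hYd
  set L := s ^ (5 * (m + 1)) with hL
  have hLpos : 0 < L := by positivity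
  set q := Yv / X ^ 2 with hqd
  have hYq : Yv = q * X ^ 2 := by rw [hqd]; field_simp
  have hY0 : 0 ≤ Yv := Y_nonneg _ _
  have hq0 : 0 ≤ q := by positivity
  have hqe : q ≤ 1 / 10000 := by
    have : q ≤ e2 s := by rw [hqd, div_le_iff₀ (by positivity)]; exact hq
    exact this.trans g.e2_small
  set V := ∑ i ∈ Finset.range (m + 1),
          2 * K * (s⁻¹) ^ (2 * (m + 1 - i)) * (s ^ (5 * i) * |x i t|) with hV
  have hV0 : 0 ≤ V := Finset.sum_nonneg fun i _ => by positivity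
  -- split of the sum
  rw [Finset.sum_range_succ] at hD
  obtain ⟨_, ht1, ht2⟩ := g.tsB ht (m + 2) (fun j => m + 2 + j - (m + 1)) (fun j => by omega)
  obtain ⟨_, hs1', hs2'⟩ := g.tsB ht (m + 1 + 1) (fun j => j + 1) (fun j => by omega)
  set T1 := ∑' j : ℕ, B (m + 2 + j - (m + 1)) * x (m + 2 + j) t ^ 2 with hT1
  have hvf : vf s ν C B (fun k => x k t) (m + 1) = -(ν * s ^ (4 * (m + 1)) * X)
      + C * s ^ (5 * m) * x m t ^ 2 - C * L * X * x (m + 2) t
      + X * ∑ i ∈ Finset.range (m + 1), s ^ (5 * i) * B (m + 1 - i) * x i t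
      - L * ∑' k : ℕ, B (k + 1) * x (m + 1 + 1 + k) t ^ 2 := by
    simp only [vf, hXd, hL]
    rw [if_neg (by omega)]
    simp only [Nat.add_sub_cancel]
  set TS := ∑' k : ℕ, B (k + 1) * x (m + 1 + 1 + k) t ^ 2 with hTS
  have hTSle : TS ≤ 1001 / 1000 * Yv := hs2'
  have hTS0 : 0 ≤ TS := hs1'
  -- the sum of the differences
  have hsum : ∑ i ∈ Finset.range (m + 1), s ^ (5 * i) * x i t *
        (∑' j : ℕ, B (m + 2 + j - i) * x (m + 2 + j) t ^ 2)
      - Yv * ∑ i ∈ Finset.range (m + 1), s ^ (5 * i) * B (m + 1 - i) * x i t ≤ V * Yv := by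
    rw [Finset.mul_sum, ← Finset.sum_sub_distrib, hV, Finset.sum_mul]
    refine Finset.sum_le_sum fun i hi => ?_
    have hi' := Finset.mem_range.1 hi
    have h1 := g.tdiff ht (i := i) (m := m) (by omega) (x i t)
    have h2 : 0 < s ^ (5 * i) := by positivity
    calc _ = s ^ (5 * i) * (x i t * ((∑' j : ℕ, B (m + 2 + j - i) * x (m + 2 + j) t ^ 2)
          - B (m + 1 - i) * Yv)) := by ring
      _ ≤ s ^ (5 * i) * (|x i t| * (2 * K * (s⁻¹) ^ (2 * (m + 1 - i)) * Yv)) := by gcongr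
      _ = _ := by ring
  set Sg1 := ∑ i ∈ Finset.range (m + 1), s ^ (5 * i) * x i t *
        (∑' j : ℕ, B (m + 2 + j - i) * x (m + 2 + j) t ^ 2) with hSg1
  set Sg2 := ∑ i ∈ Finset.range (m + 1), s ^ (5 * i) * B (m + 1 - i) * x i t with hSg2
  -- the term with C
  set z := |x (m + 2) t| with hz
  have hz0 : 0 ≤ z := abs_nonneg _
  have hz2 : z ^ 2 ≤ q * X ^ 2 := by
    rw [hz, sq_abs, ← hYq]; exact g.sq_le ht le_rfl
  have hzC : 2002 / 1000 * C * z ≤ X * (3 / 1000 * q + 335 * C ^ 2) := by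
    have h1 : 2002 / 1000 * C * z * X ≤ X * (3 / 1000 * q + 335 * C ^ 2) * X := by
      nlinarith [sq_nonneg (z - 334 * C * X), sq_nonneg (C * X), hz2]
    exact le_of_mul_le_mul_right h1 hX
  have hxz : x (m + 2) t ≤ z := le_abs_self _
  -- dissipation
  have hdiss : ν * s ^ (4 * (m + 1)) ≤ ν * s ^ (4 * (m + 2)) := by
    gcongr
    · exact hs1.le
    · omega
  have hkey : D - 2 * q * X * vf s ν C B (fun k => x k t) (m + 1)
      ≤ X ^ 2 * ((2006 / 1000 * (L * X) + 2 * V) * (q + 168 * C ^ 2)) := by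
    rw [hvf]
    have a1 : D ≤ -(2 * (ν * s ^ (4 * (m + 2))) * (q * X ^ 2)) + 2 * (C * L * X ^ 2 * x (m + 2) t)
        + 2 * (Sg1 + L * X * (1001 / 1000 * (q * X ^ 2))) := by
      have : L * X * T1 ≤ L * X * (1001 / 1000 * (q * X ^ 2)) := by
        rw [← hYq]; gcongr
      rw [← hYq]
      rw [← hYq] at this
      linarith
    have a2 : Sg1 ≤ V * (q * X ^ 2) + q * X ^ 2 * Sg2 := by
      rw [hYq] at hsum; linarith
    have a3 : 2 * q * X * (L * TS) ≤ 2 * q * X * (L * (1001 / 1000 * (q * X ^ 2))) := by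
      rw [← hYq]; gcongr
    have a4 : 0 ≤ 2 * q * X * (C * s ^ (5 * m) * x m t ^ 2) := by positivity
    have a5 : 2 * (ν * s ^ (4 * (m + 1))) * (q * X ^ 2)
        ≤ 2 * (ν * s ^ (4 * (m + 2))) * (q * X ^ 2) := by gcongr
    have a6 : 2 * (C * L * X ^ 2 * x (m + 2) t) + 2 * q * X * (C * L * X * x (m + 2) t)
        ≤ L * X ^ 2 * (X * (3 / 1000 * q + 335 * C ^ 2)) := by
      calc 2 * (C * L * X ^ 2 * x (m + 2) t) + 2 * q * X * (C * L * X * x (m + 2) t)
          = L * X ^ 2 * (2 * (1 + q) * C * x (m + 2) t) := by ring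
        _ ≤ L * X ^ 2 * (2 * (1 + q) * C * z) := by gcongr
        _ ≤ L * X ^ 2 * (2 * (1 + 1 / 10000) * C * z) := by gcongr
        _ ≤ L * X ^ 2 * (2002 / 1000 * C * z) := by gcongr; norm_num
        _ ≤ _ := by gcongr
    have a7 : q * q ≤ 1 / 10000 * q := by nlinarith
    have a8 : L * X ^ 3 * (2002 / 1000 * (q * q)) ≤ L * X ^ 3 * (2002 / 1000 * (1 / 10000 * q)) := by
      gcongr
    have a9 : 0 ≤ V * C ^ 2 * X ^ 2 := by positivity
    have a10 : 0 ≤ L * X ^ 3 * C ^ 2 := by positivity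
    have a11 : 0 ≤ L * X ^ 3 * q := by positivity
    nlinarith
  have hX2 : 0 < X ^ 2 := by positivity
  have e1' : (D * X ^ 2 - Yv * (2 * X * vf s ν C B (fun k => x k t) (m + 1))) / (X ^ 2) ^ 2
      = (D - 2 * q * X * vf s ν C B (fun k => x k t) (m + 1)) / X ^ 2 := by
    rw [hYq]; field_simp
  rw [e1', div_le_iff₀ hX2, abs_of_pos hX]
  linarith

/-- The ratio lemma. -/
theorem QL (g : Good s ν C K T A B x) {m : ℕ} {t1 : ℝ} (ht1 : t1 ≤ T)
    (hG : ∀ i < m + 1, ∀ t ∈ Ioo 0 t1, (∀ τ ∈ Ioo 0 t, 0 < x (m + 1) τ ∧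
        Y x (m + 2) τ ≤ e2 s * x (m + 1) τ ^ 2) →
      Pr (fun τ => s ^ (5 * i) * |x i τ|) t ≤ s ^ 5 / 25)
    (hpos : ∃ δ > 0, ∀ t ∈ Ioo 0 T, t < δ → x m t ≠ 0)
    (hJ : ∀ t ∈ Ioo 0 t1, (∀ τ ∈ Ioo 0 t, 0 < x (m + 1) τ ∧
        Y x (m + 2) τ ≤ e2 s * x (m + 1) τ ^ 2) →
      Pr (fun τ => s ^ (5 * (m + 1)) * |x (m + 1) τ|) t ≤ 102 / 10000 * s ^ 5) :
    ∀ t ∈ Ioo 0 t1, 0 < x (m + 1) t ∧ Y x (m + 2) t ≤ e1 s * x (m + 1) t ^ 2 := by
  have hs0 := g.s0
  have hs1 := g.s1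
  have hν := g.hν
  have hC := g.Cpos
  have hK := g.hK
  have hs5 := g.s5
  have he2 : 0 < e2 s := by rw [e2]; positivity
  have hcabs : ∀ i : ℕ, ContinuousOn (fun τ => s ^ (5 * i) * |x i τ|) (Ico 0 T) := fun i =>
    continuousOn_const.mul (g.cont i).abs
  obtain ⟨δ0, hδ0, hinit⟩ := g.initial hpos (ρ := min (168 * C ^ 2) (e2 s / 2)) (by positivity)
  have key : ∀ t ∈ Ioo 0 t1, (∀ τ ∈ Ioo 0 t, 0 < x (m + 1) τ ∧
      Y x (m + 2) τ < e2 s * x (m + 1) τ ^ 2) →
      0 < x (m + 1) t ∧ Y x (m + 2) t ≤ e1 s * x (m + 1) t ^ 2 := by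
    intro t ht hP
    have htT : t < T := ht.2.trans_le ht1
    have ht0 := ht.1
    -- positivity at t
    obtain ⟨M', hM'⟩ := g.sol.bdd t htT
    set M := max M' 0 with hMdef
    have hM0 : 0 ≤ M := le_max_right _ _
    have hM : ∀ τ ∈ Icc 0 t, ∀ n, |x n τ| ≤ M := by
      intro τ hτ n
      have h1 := (hM' τ hτ n).trans (le_max_left M' 0)
      have h2 : 1 ≤ s ^ (8 * n) := one_le_pow₀ hs1.le
      nlinarith [abs_nonneg (x n τ)]
    set L1 : ℝ := ν * s ^ (4 * (m + 1)) + C * s ^ (5 * (m + 1)) * M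
      + 1001 / 1000 * (∑ i ∈ Finset.range (m + 1), s ^ (5 * i) * M)
      + 1001 / 1000 * s ^ (5 * (m + 1)) * (e2 s * M) with hL1
    have hxt : 0 < x (m + 1) t := by
      have h1 := mono_of (f := fun τ => Real.exp (L1 * τ) * x (m + 1) τ)
        (f' := fun τ => Real.exp (L1 * τ) * L1 * x (m + 1) τ
          + Real.exp (L1 * τ) * vf s ν C B (fun k => x k τ) (m + 1)) (a := t / 2) (b := t)
        (by linarith)
        (ContinuousOn.mul (by fun_prop) ((g.cont (m + 1)).mono fun τ hτ =>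
          ⟨by linarith [hτ.1], hτ.2.trans_lt htT⟩))
        (fun τ hτ => by
          have e : HasDerivAt (fun τ => Real.exp (L1 * τ)) (Real.exp (L1 * τ) * L1) τ := by
            simpa using ((hasDerivAt_id τ).const_mul L1).exp
          exact e.fun_mul (g.derivAt (m + 1) ⟨by linarith [hτ.1], hτ.2.trans htT⟩))
        (fun τ hτ => by
          have hτI : τ ∈ Ico 0 T := ⟨by linarith [hτ.1], hτ.2.trans htT⟩
          have hτc : τ ∈ Icc 0 t := ⟨by linarith [hτ.1], hτ.2.le⟩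
          have hPτ := hP τ ⟨by linarith [hτ.1], hτ.2⟩
          have h2 := g.vf_ge hτI (m + 1)
          rw [if_neg (by omega)] at h2
          simp only [Nat.add_sub_cancel] at h2
          have h3 : U s x (m + 1) τ ≤ ∑ i ∈ Finset.range (m + 1), s ^ (5 * i) * M := by
            refine Finset.sum_le_sum fun i _ => ?_
            have := hM τ hτc i
            gcongr
          have h4 := hM τ hτc (m + 1 + 1)
          have h5 : |x (m + 1) τ| = x (m + 1) τ := abs_of_pos hPτ.1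
          have h6 : x (m + 1) τ ≤ M := (le_abs_self _).trans (hM τ hτc (m + 1))
          have h7 : Y x (m + 1 + 1) τ ≤ e2 s * M * x (m + 1) τ := by
            refine hPτ.2.le.trans ?_
            have := hPτ.1
            calc e2 s * x (m + 1) τ ^ 2 = e2 s * x (m + 1) τ * x (m + 1) τ := by ring
              _ ≤ e2 s * M * x (m + 1) τ := by gcongr
          have h8 : (ν * s ^ (4 * (m + 1)) + C * s ^ (5 * (m + 1)) * |x (m + 1 + 1) τ|
              + 1001 / 1000 * U s x (m + 1) τ) * x (m + 1) τ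
              ≤ (ν * s ^ (4 * (m + 1)) + C * s ^ (5 * (m + 1)) * M
                + 1001 / 1000 * (∑ i ∈ Finset.range (m + 1), s ^ (5 * i) * M)) * x (m + 1) τ := by
            have := hPτ.1
            gcongr
          have h9 : 1001 / 1000 * s ^ (5 * (m + 1)) * Y x (m + 1 + 1) τ
              ≤ 1001 / 1000 * s ^ (5 * (m + 1)) * (e2 s * M * x (m + 1) τ) := by gcongr
          have h10 : 0 ≤ C * s ^ (5 * m) * x m τ ^ 2 := by positivity
          rw [h5] at h2
          have h11 : 0 ≤ L1 * x (m + 1) τ + vf s ν C B (fun k => x k τ) (m + 1) := by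
            rw [hL1]; linarith
          have h12 := Real.exp_pos (L1 * τ)
          nlinarith)
      have h2 := (hP (t / 2) ⟨by linarith, by linarith⟩).1
      have h3 : 0 < Real.exp (L1 * t) * x (m + 1) t :=
        lt_of_lt_of_le (by positivity) h1
      exact (mul_pos_iff_of_pos_left (Real.exp_pos _)).1 h3
    refine ⟨hxt, ?_⟩
    have hP' : ∀ τ ∈ Ioc 0 t, 0 < x (m + 1) τ := fun τ hτ => by
      rcases hτ.2.eq_or_lt with h | h
      · rw [h]; exact hxt
      · exact (hP τ ⟨hτ.1, h⟩).1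
    -- choice of the initial time
    set τ0 := min (t / 2) (δ0 / 2) with hτ0
    have hτ0pos : 0 < τ0 := lt_min (by linarith) (by linarith)
    have hτ0t : τ0 < t := (min_le_left _ _).trans_lt (by linarith)
    have hτ0δ : τ0 < δ0 := (min_le_right _ _).trans_lt (by linarith)
    have hi0 := hinit τ0 ⟨hτ0pos, hτ0t.trans htT⟩ hτ0δ
    set W : ℝ → ℝ := fun τ => 2006 / 1000 * Pr (fun τ => s ^ (5 * (m + 1)) * |x (m + 1) τ|) τ
      + 2 * ∑ i ∈ Finset.range (m + 1),
          2 * K * (s⁻¹) ^ (2 * (m + 1 - i)) * Pr (fun τ => s ^ (5 * i) * |x i τ|) τ with hW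
    set W' : ℝ → ℝ := fun τ => 2006 / 1000 * (s ^ (5 * (m + 1)) * |x (m + 1) τ|)
      + 2 * ∑ i ∈ Finset.range (m + 1),
          2 * K * (s⁻¹) ^ (2 * (m + 1 - i)) * (s ^ (5 * i) * |x i τ|) with hW'
    have hWd : ∀ τ ∈ Ioo 0 T, HasDerivAt W (W' τ) τ := by
      intro τ hτ
      refine HasDerivAt.fun_add ((Pr_deriv (hcabs (m + 1)) hτ).const_mul _) ?_
      refine HasDerivAt.const_mul 2 ?_
      exact HasDerivAt.fun_sum fun i _ => (Pr_deriv (hcabs i) hτ).const_mul _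
    have hWc : ContinuousOn W (Ico 0 T) := by
      refine ContinuousOn.add ((Pr_cont (hcabs (m + 1))).const_smul (2006 / 1000 : ℝ)) ?_
      refine ContinuousOn.mul continuousOn_const ?_
      exact continuousOn_finsetSum _ fun i _ => continuousOn_const.mul (Pr_cont (hcabs i))
    have hWt0 : 0 ≤ W τ0 := by
      have hpr : ∀ i : ℕ, 0 ≤ Pr (fun τ => s ^ (5 * i) * |x i τ|) τ0 := fun i => by
        have := Pr_mono (hcabs i) (a := 0) (b := τ0) ⟨le_rfl, g.hT⟩ ⟨hτ0pos.le, hτ0t.trans htT⟩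
          hτ0pos.le (fun τ _ => by positivity)
        simpa using this
      have := hpr (m + 1)
      have h2 : 0 ≤ ∑ i ∈ Finset.range (m + 1),
          2 * K * (s⁻¹) ^ (2 * (m + 1 - i)) * Pr (fun τ => s ^ (5 * i) * |x i τ|) τ0 :=
        Finset.sum_nonneg fun i _ => by have := hpr i; positivity
      simp only [hW]
      linarith
    have hWt : W t ≤ 2047 / 100000 * s ^ 5 := by
      have h1 := hJ t ht (fun τ hτ => ⟨(hP τ hτ).1, (hP τ hτ).2.le⟩)
      have h2 : ∑ i ∈ Finset.range (m + 1),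
          2 * K * (s⁻¹) ^ (2 * (m + 1 - i)) * Pr (fun τ => s ^ (5 * i) * |x i τ|) t
          ≤ ∑ i ∈ Finset.range (m + 1), 2 * K * (s ^ 5 / 25) * (s⁻¹) ^ (2 * (m + 1 - i)) := by
        refine Finset.sum_le_sum fun i hi => ?_
        have := hG i (Finset.mem_range.1 hi) t ht (fun τ hτ => ⟨(hP τ hτ).1, (hP τ hτ).2.le⟩)
        calc 2 * K * (s⁻¹) ^ (2 * (m + 1 - i)) * Pr (fun τ => s ^ (5 * i) * |x i τ|) t
            ≤ 2 * K * (s⁻¹) ^ (2 * (m + 1 - i)) * (s ^ 5 / 25) := by gcongr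
          _ = _ := by ring
      rw [← Finset.mul_sum] at h2
      have h3 := geo_sum s⁻¹ (by positivity) (by
        have := g.hs
        rw [inv_le_comm₀ hs0 (by norm_num)]; linarith) (m + 1)
      have h4 : 2 * K * (s ^ 5 / 25) * ∑ i ∈ Finset.range (m + 1), (s⁻¹) ^ (2 * (m + 1 - i))
          ≤ 2 * K * (s ^ 5 / 25) * (2 * (s⁻¹) ^ 2) := by gcongr
      have h5 : 2 * K * (s ^ 5 / 25) * (2 * (s⁻¹) ^ 2) ≤ s ^ 5 / 4000000 := by
        have e1 : K * (s⁻¹) ^ 2 ≤ 1 / 1000000 := by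
          have h6 : K * (s⁻¹) ^ 2 ≤ s * (s⁻¹) ^ 2 := by
            have := g.hKs
            gcongr
          have h7 : s * (s⁻¹) ^ 2 = s⁻¹ := by field_simp
          have h8 : s⁻¹ ≤ 1 / 1000000 := by
            rw [inv_le_comm₀ hs0 (by norm_num)]; simpa using g.hs
          linarith
        calc 2 * K * (s ^ 5 / 25) * (2 * (s⁻¹) ^ 2) = 4 / 25 * s ^ 5 * (K * (s⁻¹) ^ 2) := by ring
          _ ≤ 4 / 25 * s ^ 5 * (1 / 1000000) := by gcongr
          _ ≤ _ := by linarith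
      simp only [hW]
      linarith
    -- monotonicity
    set Q : ℝ → ℝ := fun τ => Y x (m + 2) τ / x (m + 1) τ ^ 2 with hQ
    have hmono := mono_of (f := fun τ => -(Real.exp (-(W τ)) * (Q τ + 168 * C ^ 2)))
      (f' := fun τ => -(Real.exp (-(W τ)) * (-(W' τ)) * (Q τ + 168 * C ^ 2)
        + Real.exp (-(W τ)) * ((deriv (Y x (m + 2)) τ * x (m + 1) τ ^ 2 - Y x (m + 2) τ *
      (2 * x (m + 1) τ * vf s ν C B (fun k => x k τ) (m + 1))) / (x (m + 1) τ ^ 2) ^ 2)))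
      (a := τ0) (b := t) hτ0t.le
      (by
        have hsub : Icc τ0 t ⊆ Ico 0 T := fun τ hτ => ⟨hτ0pos.le.trans hτ.1, hτ.2.trans_lt htT⟩
        refine ContinuousOn.neg (ContinuousOn.mul ?_ (ContinuousOn.add ?_ continuousOn_const))
        · exact ((hWc.mono hsub).neg).rexp
        · refine ContinuousOn.div ((g.Ycont (m + 2)).mono hsub)
            (((g.cont (m + 1)).mono hsub).pow 2) fun τ hτ => ?_
          have := hP' τ ⟨hτ0pos.trans_le hτ.1, hτ.2⟩
          positivity)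
      (fun τ hτ => by
        have hτT : τ ∈ Ioo 0 T := ⟨hτ0pos.trans hτ.1, hτ.2.trans htT⟩
        have hxτ := hP' τ ⟨hτT.1, hτ.2.le⟩
        obtain ⟨D, hD, hDle⟩ := g.Yder (m + 2) ⟨hτT.1.le, hτT.2⟩
        have h1 := hD.hasDerivAt (Ico_mem_nhds hτT.1 hτT.2)
        have h2 : HasDerivAt (fun τ => x (m + 1) τ ^ 2)
            (2 * x (m + 1) τ * vf s ν C B (fun k => x k τ) (m + 1)) τ := by
          simpa using (g.derivAt (m + 1) hτT).fun_pow 2
        have h3 := h1.fun_div h2 (by positivity)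
        have h4 := ((hWd τ hτT).fun_neg).exp
        have h5 := (h4.fun_mul (h3.add_const (168 * C ^ 2))).fun_neg
        rw [h1.deriv]
        exact h5)
      (fun τ hτ => by
        have hτT : τ ∈ Ioo 0 T := ⟨hτ0pos.trans hτ.1, hτ.2.trans htT⟩
        have hτI : τ ∈ Ico 0 T := ⟨hτT.1.le, hτT.2⟩
        have hPτ := hP τ ⟨hτT.1, hτ.2⟩
        obtain ⟨D, hD, hDle⟩ := g.Yder (m + 2) hτI
        have h1 := hD.hasDerivAt (Ico_mem_nhds hτT.1 hτT.2)
        rw [h1.deriv]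
        rw [if_neg (by omega)] at hDle
        have e1 : m + 2 - 1 = m + 1 := by omega
        rw [e1] at hDle
        have h2 := g.Qineq hτI m hPτ.1 hPτ.2.le hDle
        have h3 := Real.exp_pos (-(W τ))
        have h4 := mul_le_mul_of_nonneg_left h2 h3.le
        simp only [hQ, hW']
        linarith)
    have h1 : Real.exp (-(W t)) * (Q t + 168 * C ^ 2)
        ≤ Real.exp (-(W τ0)) * (Q τ0 + 168 * C ^ 2) := by linarith
    have h2 : Q τ0 ≤ 168 * C ^ 2 := by
      simp only [hQ]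
      rw [div_le_iff₀ (by have := hi0.1; positivity)]
      refine hi0.2.trans ?_
      gcongr
      exact min_le_left _ _
    have h3 : Real.exp (-(W τ0)) ≤ 1 := Real.exp_le_one_iff.2 (by linarith)
    have h4 : Q t + 168 * C ^ 2 ≤ Real.exp (W t) * (336 * C ^ 2) := by
      have e : Real.exp (W t) * Real.exp (-(W t)) = 1 := by rw [← Real.exp_add]; simp
      have h5 : Real.exp (-(W τ0)) * (Q τ0 + 168 * C ^ 2) ≤ 1 * (336 * C ^ 2) := by
        have : 0 ≤ Q τ0 + 168 * C ^ 2 := by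
          have := Y_nonneg (x := x) (m + 2) τ0
          simp only [hQ]; positivity
        gcongr
        linarith
      calc Q t + 168 * C ^ 2 = Real.exp (W t) * (Real.exp (-(W t)) * (Q t + 168 * C ^ 2)) := by
            rw [← mul_assoc, e, one_mul]
        _ ≤ Real.exp (W t) * (336 * C ^ 2) :=
            mul_le_mul_of_nonneg_left (by linarith) (Real.exp_pos _).le
    have h5 : Q t ≤ e1 s := by
      have := g.numQ hWt
      have h6 : 0 ≤ 168 * C ^ 2 := by positivity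
      linarith
    simp only [hQ] at h5
    rwa [div_le_iff₀ (by positivity)] at h5
  have he12 := g.e1_lt
  have hall := cont_ind (P := fun t => 0 < x (m + 1) t ∧ Y x (m + 2) t < e2 s * x (m + 1) t ^ 2)
    (T := t1)
    ⟨δ0, hδ0, fun t ht htδ => by
      have h1 := hinit t ⟨ht.1, ht.2.trans_le ht1⟩ htδ
      refine ⟨h1.1, h1.2.trans_lt ?_⟩
      have h2 : 0 < x (m + 1) t ^ 2 := by have := h1.1; positivity
      have h3 : min (168 * C ^ 2) (e2 s / 2) ≤ e2 s / 2 := min_le_right _ _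
      nlinarith⟩
    (fun t ht hP => by
      have h1 := key t ht hP
      refine ⟨h1.1, h1.2.trans_lt ?_⟩
      have h2 : 0 < x (m + 1) t ^ 2 := by have := h1.1; positivity
      gcongr)
    (fun t ht hP => by
      have htT : t < T := ht.2.trans_le ht1
      have hn : Ico 0 T ∈ 𝓝 t := Ico_mem_nhds ht.1 htT
      have c1 := (g.cont (m + 1)).continuousAt hn
      have c2 := (g.Ycont (m + 2)).continuousAt hn
      refine (c1.eventually (lt_mem_nhds hP.1)).and ?_
      have c3 : ContinuousAt (fun τ => e2 s * x (m + 1) τ ^ 2 - Y x (m + 2) τ) t :=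
        (continuousAt_const.mul (c1.pow 2)).sub c2
      have := c3.eventually (lt_mem_nhds (sub_pos.2 hP.2))
      filter_upwards [this] with τ hτ
      linarith)
  exact fun t ht => key t ht fun τ hτ => hall τ ⟨hτ.1, hτ.2.trans ht.2⟩

end Good

end Pool.Agent.Y5
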