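import Pool.Agent.Y5.O4

/-! Stages: a priori bounds. -/

open Set Filter Topology MeasureTheory

set_option autoImplicit false

namespace Pool.Agent.Y5

/-- The state at the beginning of the stage `n`. -/
structure Stg (s T A : ℝ) (x : ℕ → ℝ → ℝ) (n : ℕ) (σ a : ℕ → ℝ) : Prop where
  σ0 : σ 0 = 0
  a0 : a 0 = A
  σlt : ∀ i < n, σ i < σ (i + 1)
  σT : σ n < T
  dur : ∀ i < n, σ (i + 1) - σ i ≤ 23 / 1000 * s ^ 5 / (s ^ (5 * i) * a i)
  agrow : ∀ i < n, 9 / 1000 * a i ≤ a (i + 1)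
  cross : ∀ i < n, x i (σ (i + 1)) = 100 * a (i + 1)
  aY : ∀ i ≤ n, √(Y x i (σ i)) = a i
  init : 995 / 1000 * a n ≤ x n (σ n)
  initY : Y x (n + 1) (σ n) ≤ e1 s * x n (σ n) ^ 2
  ql : ∀ i < n, ∀ t ∈ Ioo 0 (σ (i + 1)), 0 < x (i + 1) t ∧ Y x (i + 2) t ≤ e1 s * x (i + 1) t ^ 2
  J : ∀ i < n, Pr (fun τ => s ^ (5 * (i + 1)) * |x (i + 1) τ|) (σ (i + 1)) ≤ 102 / 10000 * s ^ 5
  Γ : ∀ i < n, Pr (fun τ => s ^ (5 * i) * |x i τ|) (σ (i + 1)) ≤ 314 / 10000 * s ^ 5

namespace Good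

variable {s ν C K T A : ℝ} {B : ℕ → ℝ} {x : ℕ → ℝ → ℝ}

lemma Cs (g : Good s ν C K T A B x) : C * s ^ 5 ≤ 1 / 10 ^ 20 := by
  have h := g.s5
  have hC := g.Cpos
  have h1 : (19 / 1000 * s ^ 5) ^ 2 / 2 ≤ Real.exp (19 / 1000 * s ^ 5) :=
    Real.quadratic_le_exp_of_nonneg (by linarith) |>.trans' (by
      have : (0 : ℝ) ≤ 19 / 1000 * s ^ 5 := by linarith
      linarith)
  have h2 : C * Real.exp (19 / 1000 * s ^ 5) ≤ 1 := by
    calc C * Real.exp (19 / 1000 * s ^ 5)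
        ≤ Real.exp (-(19 / 1000 * s ^ 5)) * Real.exp (19 / 1000 * s ^ 5) := by
          gcongr; exact g.hC2
      _ = 1 := by rw [← Real.exp_add]; simp
  have h3 : C * ((19 / 1000 * s ^ 5) ^ 2 / 2) ≤ 1 := (by gcongr : _ ≤ _).trans h2
  have h4 : C * s ^ 5 * (10 ^ 20) ≤ C * ((19 / 1000 * s ^ 5) ^ 2 / 2) := by
    have : (10 : ℝ) ^ 20 ≤ (19 / 1000) ^ 2 / 2 * s ^ 5 := by linarith
    calc C * s ^ 5 * (10 ^ 20) ≤ C * s ^ 5 * ((19 / 1000) ^ 2 / 2 * s ^ 5) := by
          have : 0 < s ^ 5 := by linarith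
          gcongr
      _ = _ := by ring
  rw [le_div_iff₀ (by positivity)]
  linarith

lemma Cs' (g : Good s ν C K T A B x) : C ≤ 1 / 10 ^ 20 := by
  have h := g.s5
  have hC := g.Cpos
  have := g.Cs
  nlinarith

/-- square root of `e1` -/
noncomputable def eh (s : ℝ) : ℝ := Real.exp (-(s ^ 5 / 200))

lemma eh_pos : 0 < eh s := Real.exp_pos _

lemma eh_sq : e1 s = eh s ^ 2 := by
  rw [e1, eh, ← Real.exp_nat_mul]; congr 1; push_cast; ring

lemma eh_small (g : Good s ν C K T A B x) : eh s * (s ^ 5) ^ 2 ≤ 1 / 10 ^ 20 := by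
  have h := g.s5
  have he := eh_pos (s := s)
  have h1 : (s ^ 5 / 400) ^ 2 / 2 ≤ Real.exp (s ^ 5 / 400) :=
    Real.quadratic_le_exp_of_nonneg (by linarith) |>.trans' (by
      have : (0 : ℝ) ≤ s ^ 5 / 400 := by linarith
      linarith)
  have h2 : eh s * (Real.exp (s ^ 5 / 400)) ^ 2 = 1 := by
    rw [eh, ← Real.exp_nat_mul, ← Real.exp_add]
    rw [← Real.exp_zero]; congr 1; push_cast; ring
  have hpos : 0 < s ^ 5 := by linarith
  have h3 : eh s * ((s ^ 5 / 400) ^ 2 / 2) ^ 2 ≤ 1 := by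
    rw [← h2]; gcongr
  have h5 : (10 : ℝ) ^ 20 ≤ (s ^ 5) ^ 2 / 400 ^ 4 / 4 := by
    have : (10 : ℝ) ^ 60 ≤ (s ^ 5) ^ 2 := by
      calc (10 : ℝ) ^ 60 = ((10 : ℝ) ^ 30) ^ 2 := by norm_num
        _ ≤ (s ^ 5) ^ 2 := by gcongr
    linarith
  have h4 : eh s * (s ^ 5) ^ 2 * 10 ^ 20 ≤ eh s * ((s ^ 5 / 400) ^ 2 / 2) ^ 2 := by
    calc eh s * (s ^ 5) ^ 2 * 10 ^ 20 ≤ eh s * (s ^ 5) ^ 2 * ((s ^ 5) ^ 2 / 400 ^ 4 / 4) := by
          gcongr
      _ = _ := by ring
  rw [le_div_iff₀ (by positivity)]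
  linarith

lemma eh_small1 (g : Good s ν C K T A B x) : eh s * s ^ 5 ≤ 1 / 10 ^ 20 := by
  have h := g.s5
  have he := eh_pos (s := s)
  refine le_trans ?_ g.eh_small
  gcongr
  nlinarith

lemma eh_small0 (g : Good s ν C K T A B x) : eh s ≤ 1 / 10 ^ 20 := by
  have h := g.s5
  have he := eh_pos (s := s)
  refine le_trans ?_ g.eh_small1
  nlinarith

variable {n : ℕ} {σ a : ℕ → ℝ}

lemma exp_le {y : ℝ} (hy : y ≤ 1 / 100) : Real.exp y ≤ 102 / 100 := by
  have h1 : Real.exp y ≤ Real.exp (1 / 100) := Real.exp_le_exp.2 hy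
  have h2 : 1 - 1 / 100 ≤ Real.exp (-(1 / 100)) := by
    have := Real.add_one_le_exp (-(1 / 100) : ℝ); linarith
  have h3 : Real.exp (1 / 100) * Real.exp (-(1 / 100)) = 1 := by rw [← Real.exp_add]; simp
  have h4 := Real.exp_pos (1 / 100)
  have h5 : Real.exp (1 / 100) * (1 - 1 / 100) ≤ 1 :=
    (mul_le_mul_of_nonneg_left h2 h4.le).trans h3.le
  linarith

lemma exp3 {y : ℝ} (hy : y ≤ 3) : Real.exp y ≤ 209 / 10 := by
  have h1 : Real.exp y ≤ Real.exp 3 := Real.exp_le_exp.2 hy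
  have h2 : Real.exp 3 = Real.exp 1 ^ 3 := by rw [← Real.exp_nat_mul]; congr 1; norm_num
  have h3 := Real.exp_one_lt_d9
  have h4 : Real.exp 1 ^ 3 ≤ 2.75 ^ 3 := by
    have := Real.exp_pos 1
    gcongr; linarith
  linarith [show (2.75 : ℝ) ^ 3 ≤ 209 / 10 by norm_num]

lemma apos (g : Good s ν C K T A B x) (h : Stg s T A x n σ a) : ∀ i ≤ n, 0 < a i := by
  intro i
  induction i with
  | zero => intro _; rw [h.a0]; exact g.hA
  | succ i ih =>
    intro hi
    have := ih (by omega)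
    have := h.agrow i (by omega)
    linarith

lemma Gpos (g : Good s ν C K T A B x) (h : Stg s T A x n σ a) (i : ℕ) (hi : i ≤ n) :
    0 < s ^ (5 * i) * a i := by
  have := g.apos h i hi
  have := g.s0
  positivity

lemma Gstep (g : Good s ν C K T A B x) (h : Stg s T A x n σ a) {i : ℕ} (hi : i < n) :
    s ^ 5 * (9 / 1000) * (s ^ (5 * i) * a i) ≤ s ^ (5 * (i + 1)) * a (i + 1) := by
  have := g.s0
  have h1 := h.agrow i hi
  have e : s ^ (5 * (i + 1)) = s ^ (5 * i) * s ^ 5 := by rw [← pow_add]; congr 1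
  rw [e]
  calc s ^ 5 * (9 / 1000) * (s ^ (5 * i) * a i) = s ^ (5 * i) * s ^ 5 * (9 / 1000 * a i) := by ring
    _ ≤ _ := by gcongr

lemma Gsum (g : Good s ν C K T A B x) (h : Stg s T A x n σ a) : ∀ i ≤ n,
    ∑ j ∈ Finset.range i, s ^ (5 * (j + 1)) * a (j + 1) ≤ 1001 / 1000 * (s ^ (5 * i) * a i) := by
  intro i
  induction i with
  | zero => intro h0; have := g.Gpos h 0 h0; simp at this ⊢; linarith
  | succ i ih =>
    intro hi
    rw [Finset.sum_range_succ]
    have h1 := ih (by omega)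
    have h2 := g.Gstep h (i := i) (by omega)
    have h3 := g.s5
    have h4 := g.Gpos h i (by omega)
    have h5 : 10 ^ 10 * (s ^ (5 * i) * a i) ≤ s ^ 5 * (9 / 1000) * (s ^ (5 * i) * a i) := by
      gcongr; linarith
    linarith

lemma sa (g : Good s ν C K T A B x) (h : Stg s T A x n σ a) : ∀ i ≤ n, A ≤ s ^ i * a i := by
  intro i
  induction i with
  | zero => intro h0; rw [h.a0]; simp
  | succ i ih =>
    intro hi
    have h1 := ih (by omega)
    have h2 := h.agrow i (by omega)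
    have hs := g.hs
    have hs0 := g.s0
    have h3 := g.apos h i (by omega)
    calc A ≤ s ^ i * a i := h1
      _ ≤ s * (9 / 1000) * (s ^ i * a i) := by
          have : 0 < s ^ i * a i := by positivity
          nlinarith
      _ = s ^ (i + 1) * (9 / 1000 * a i) := by ring
      _ ≤ _ := by gcongr

lemma vis (g : Good s ν C K T A B x) (h : Stg s T A x n σ a) (i : ℕ) (hi : i ≤ n) :
    ν * s ^ (4 * i) * s ^ 9 ≤ s ^ (5 * i) * a i := by
  have hs := g.hs
  have hs0 := g.s0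
  have hν := g.hν
  have h1 := g.sa h i hi
  have h2 : ν * s ^ 9 ≤ ν * s ^ 10 := by gcongr <;> linarith
  calc ν * s ^ (4 * i) * s ^ 9 = s ^ (4 * i) * (ν * s ^ 9) := by ring
    _ ≤ s ^ (4 * i) * (s ^ i * a i) :=
        mul_le_mul_of_nonneg_left (by linarith [g.hνA]) (by positivity)
    _ = s ^ (5 * i) * a i := by rw [← mul_assoc, ← pow_add]; congr 2; ring

/-- elapsed time -/
lemma el (g : Good s ν C K T A B x) (h : Stg s T A x n σ a) {t1 : ℝ}
    (h1 : t1 ≤ σ n + 23 / 1000 * s ^ 5 / (s ^ (5 * n) * a n)) :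
    ∀ k i, i + k = n → t1 - σ i ≤ 233 / 10000 * s ^ 5 / (s ^ (5 * i) * a i) := by
  intro k
  induction k with
  | zero =>
    intro i hi
    have : i = n := by omega
    subst this
    have hG := g.Gpos h i le_rfl
    have hs0 := g.s0
    have : 23 / 1000 * s ^ 5 / (s ^ (5 * i) * a i) ≤ 233 / 10000 * s ^ 5 / (s ^ (5 * i) * a i) := by
      refine div_le_div_of_nonneg_right ?_ hG.le
      have : 0 < s ^ 5 := by positivity
      linarith
    linarith
  | succ k ih =>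
    intro i hi
    have h2 := ih (i + 1) (by omega)
    have h3 := h.dur i (by omega)
    have hG := g.Gpos h i (by omega)
    have hG' := g.Gpos h (i + 1) (by omega)
    have h4 := g.Gstep h (i := i) (by omega)
    have h5 := g.s5
    have hs0 := g.s0
    have h6 : 233 / 10000 * s ^ 5 / (s ^ (5 * (i + 1)) * a (i + 1))
        ≤ 3 / 10000 * s ^ 5 / (s ^ (5 * i) * a i) := by
      rw [div_le_div_iff₀ hG' hG]
      have h7 : 233 / 10000 * (s ^ (5 * i) * a i)
          ≤ 3 / 10000 * (s ^ 5 * (9 / 1000) * (s ^ (5 * i) * a i)) := by nlinarith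
      nlinarith
    have h8 : 23 / 1000 * s ^ 5 / (s ^ (5 * i) * a i) + 3 / 10000 * s ^ 5 / (s ^ (5 * i) * a i)
        = 233 / 10000 * s ^ 5 / (s ^ (5 * i) * a i) := by ring
    linarith

lemma el' (g : Good s ν C K T A B x) (h : Stg s T A x n σ a) {t1 : ℝ}
    (h1 : t1 ≤ σ n + 23 / 1000 * s ^ 5 / (s ^ (5 * n) * a n)) {i : ℕ} (hi : i ≤ n) :
    (t1 - σ i) * (s ^ (5 * i) * a i) ≤ 233 / 10000 * s ^ 5 := by
  have := g.el h h1 (n - i) i (by omega)
  rwa [le_div_iff₀ (g.Gpos h i hi)] at this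

lemma σmono (h : Stg s T A x n σ a) {i j : ℕ} (hij : i ≤ j) (hj : j ≤ n) : σ i ≤ σ j := by
  induction j with
  | zero => have : i = 0 := by omega
            rw [this]
  | succ j ih =>
    rcases hij.eq_or_lt with h1 | h1
    · rw [h1]
    · exact (ih (by omega) (by omega)).trans (h.σlt j (by omega)).le

lemma σnn (h : Stg s T A x n σ a) {i : ℕ} (hi : i ≤ n) : 0 ≤ σ i := by
  have := σmono h (Nat.zero_le i) hi
  rwa [h.σ0] at this

/-- growth of the energy of the tail under a bounded strain -/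
lemma grow (g : Good s ν C K T A B x) (i : ℕ) {α t q c : ℝ} (h0 : 0 ≤ α) (hαt : α ≤ t) (ht : t < T)
    (hq : 0 ≤ q) (hc : 0 ≤ c) (hU : ∀ τ ∈ Ioo α t, 1001 / 1000 * U s x i τ ≤ q)
    (hx : ∀ τ ∈ Ioo α t, (if i = 0 then 0 else C * s ^ (5 * (i - 1)) * x (i - 1) τ ^ 2) ≤ c) :
    √(Y x i t) ≤ Real.exp (q * (t - α)) * (√(Y x i α) + c * (t - α)) := by
  have hsub : Icc α t ⊆ Ico 0 T := fun τ hτ => ⟨h0.trans hτ.1, hτ.2.trans_lt ht⟩
  have h1 := sqrt_gron (Y := Y x i) (D := deriv (Y x i)) (P := fun τ => c * τ) (P' := fun _ => c)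
    (a := α) (b := t) (q := q) hαt hq ((g.Ycont i).mono hsub) (fun τ _ => Y_nonneg _ _)
    (by fun_prop) (fun τ _ => by simpa using (hasDerivAt_id τ).const_mul c) (fun _ _ => hc)
    (fun τ hτ => by
      have hτ' : τ ∈ Ico 0 T := hsub ⟨hτ.1.le, hτ.2.le⟩
      obtain ⟨D, hD, _⟩ := g.Yder' i hτ'
      have h2 := hD.hasDerivAt (Ico_mem_nhds (h0.trans_lt hτ.1) (hτ.2.trans ht))
      rw [h2.deriv]; exact h2)
    (fun τ hτ => by
      have hτ' : τ ∈ Ico 0 T := hsub ⟨hτ.1.le, hτ.2.le⟩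
      obtain ⟨D, hD, hDle⟩ := g.Yder' i hτ'
      have h2 := hD.hasDerivAt (Ico_mem_nhds (h0.trans_lt hτ.1) (hτ.2.trans ht))
      rw [h2.deriv]
      refine hDle.trans ?_
      have h3 := hU τ hτ
      have h4 := hx τ hτ
      have h5 := Y_nonneg (x := x) i τ
      gcongr)
  have e : c * t - c * α = c * (t - α) := by ring
  rwa [e] at h1

/-- a priori bounds -/
lemma UB (g : Good s ν C K T A B x) (h : Stg s T A x n σ a) {t1 : ℝ} (hT : t1 ≤ T)
    (h1 : t1 ≤ σ n + 23 / 1000 * s ^ 5 / (s ^ (5 * n) * a n)) : ∀ i ≤ n,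
    (∀ t ∈ Ico (σ i) t1, U s x i t ≤ 121 / s ^ 5 * (s ^ (5 * i) * a i)) ∧
    (∀ t ∈ Ico (σ i) t1, √(Y x i t) ≤ 21 * a i) ∧
    (i < n → ∀ t ∈ Ico (σ (i + 1)) t1, √(Y x i t) ≤ 120 * a (i + 1)) := by
  intro i
  induction i using Nat.strong_induction_on with
  | _ i ih =>
  intro hi
  have hs0 := g.s0
  have h5 := g.s5
  have h5p : 0 < s ^ 5 := by linarith
  have hC := g.Cpos
  have hGi := g.Gpos h i hi
  have hai := g.apos h i hi
  set G := s ^ (5 * i) * a i with hG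
  have hU : ∀ t ∈ Ico (σ i) t1, U s x i t ≤ 121 / s ^ 5 * G := by
    intro t ht
    have h2 : U s x i t ≤ ∑ j ∈ Finset.range i, 120 / s ^ 5 * (s ^ (5 * (j + 1)) * a (j + 1)) := by
      refine Finset.sum_le_sum fun j hj => ?_
      have hj' := Finset.mem_range.1 hj
      have h3 := (ih j hj' (by omega)).2.2 (by omega) t
        ⟨(σmono h (by omega) hi).trans ht.1, ht.2⟩
      have h4 := g.abs_le_sqrt (t := t) ⟨(σnn h hi).trans ht.1, ht.2.trans_le hT⟩ (le_refl j)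
      have e : s ^ (5 * (j + 1)) = s ^ (5 * j) * s ^ 5 := by rw [← pow_add]; congr 1
      calc s ^ (5 * j) * |x j t| ≤ s ^ (5 * j) * (120 * a (j + 1)) := by
            gcongr; exact h4.trans h3
        _ = _ := by rw [e]; field_simp
    rw [← Finset.mul_sum] at h2
    have h3 := g.Gsum h i hi
    calc U s x i t ≤ 120 / s ^ 5 * _ := h2
      _ ≤ 120 / s ^ 5 * (1001 / 1000 * G) := by gcongr
      _ = 120 * 1001 / 1000 / s ^ 5 * G := by ring
      _ ≤ 121 / s ^ 5 * G := by gcongr; norm_num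
  -- the source
  set c : ℝ := if i = 0 then 0 else C * s ^ (5 * (i - 1)) * (120 * a i) ^ 2 with hc
  have hc0 : 0 ≤ c := by rw [hc]; split_ifs <;> positivity
  have hx : ∀ t ∈ Ico (σ i) t1,
      (if i = 0 then 0 else C * s ^ (5 * (i - 1)) * x (i - 1) t ^ 2) ≤ c := by
    intro t ht
    rw [hc]
    split_ifs with h0
    · exact le_rfl
    · have h3 := (ih (i - 1) (by omega) (by omega)).2.2 (by omega) t (by
        rw [Nat.sub_add_cancel (by omega)]; exact ht)
      rw [Nat.sub_add_cancel (by omega)] at h3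
      have h4 := g.abs_le_sqrt (t := t) ⟨(σnn h hi).trans ht.1, ht.2.trans_le hT⟩ (le_refl (i - 1))
      have h6 : x (i - 1) t ^ 2 ≤ (120 * a i) ^ 2 := by
        rw [← sq_abs]; gcongr; exact h4.trans h3
      gcongr
  -- c times the time
  have hcG : c * s ^ 5 ≤ C * 14400 * a i * G := by
    rw [hc]
    split_ifs with h0
    · have : 0 ≤ C * 14400 * a i * G := by positivity
      linarith
    · have e : s ^ (5 * (i - 1)) * s ^ 5 = s ^ (5 * i) := by rw [← pow_add]; congr 1; omega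
      have : C * s ^ (5 * (i - 1)) * (120 * a i) ^ 2 * s ^ 5
          = C * (s ^ (5 * (i - 1)) * s ^ 5) * 14400 * a i ^ 2 := by ring
      rw [this, e, hG]
      apply le_of_eq; ring
  set q : ℝ := 1001 / 1000 * (121 / s ^ 5 * G) with hq
  have hq0 : 0 ≤ q := by positivity
  have hCs := g.Cs
  have hCs' := g.Cs'
  refine ⟨hU, fun t ht => ?_, fun hin t ht => ?_⟩
  · have hel : (t - σ i) * G ≤ 233 / 10000 * s ^ 5 := by
      have := g.el' h h1 hi
      have h2 : (t - σ i) * G ≤ (t1 - σ i) * G := by gcongr; exact ht.2.le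
      linarith
    have h2 := g.grow i (α := σ i) (t := t) (q := q) (c := c) (σnn h hi) ht.1
      (ht.2.trans_le hT) hq0 hc0
      (fun τ hτ => by
        have := hU τ ⟨hτ.1.le, hτ.2.trans ht.2⟩
        rw [hq]; gcongr)
      (fun τ hτ => hx τ ⟨hτ.1.le, hτ.2.trans ht.2⟩)
    rw [h.aY i hi] at h2
    have h3 : q * (t - σ i) ≤ 3 := by
      have : q * (t - σ i) = 1001 / 1000 * 121 * ((t - σ i) * G) / s ^ 5 := by
        rw [hq]; field_simp
      rw [this, div_le_iff₀ h5p]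
      nlinarith
    have h4 : c * (t - σ i) ≤ 1 / 1000 * a i := by
      have ht0 : 0 ≤ t - σ i := by linarith [ht.1]
      have h6 : c * (t - σ i) * s ^ 5 ≤ C * 14400 * a i * (233 / 10000 * s ^ 5) := by
        calc c * (t - σ i) * s ^ 5 = (c * s ^ 5) * (t - σ i) := by ring
          _ ≤ (C * 14400 * a i * G) * (t - σ i) := by gcongr
          _ = C * 14400 * a i * ((t - σ i) * G) := by ring
          _ ≤ _ := by gcongr
      have h7 : C * 14400 * a i * (233 / 10000 * s ^ 5) ≤ 1 / 1000 * a i * s ^ 5 := by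
        have : C * 14400 * (233 / 10000) ≤ 1 / 1000 := by linarith
        calc C * 14400 * a i * (233 / 10000 * s ^ 5)
            = C * 14400 * (233 / 10000) * (a i * s ^ 5) := by ring
          _ ≤ 1 / 1000 * (a i * s ^ 5) := by gcongr
          _ = _ := by ring
      exact le_of_mul_le_mul_right (h6.trans h7) h5p
    calc √(Y x i t) ≤ Real.exp (q * (t - σ i)) * (a i + c * (t - σ i)) := h2
      _ ≤ 209 / 10 * (a i + 1 / 1000 * a i) := by
          have := exp3 h3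
          have := Real.exp_pos (q * (t - σ i))
          have : 0 ≤ c * (t - σ i) := mul_nonneg hc0 (by linarith [ht.1])
          gcongr
      _ ≤ 21 * a i := by linarith
  · have hσσ : σ i ≤ σ (i + 1) := (h.σlt i hin).le
    have hG1 := g.Gpos h (i + 1) (by omega)
    have ha1 := g.apos h (i + 1) (by omega)
    have hst := g.Gstep h hin
    set G1 := s ^ (5 * (i + 1)) * a (i + 1) with hG1d
    have hel : (t - σ (i + 1)) * G1 ≤ 233 / 10000 * s ^ 5 := by
      have := g.el' h h1 (i := i + 1) (by omega)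
      have h2 : (t - σ (i + 1)) * G1 ≤ (t1 - σ (i + 1)) * G1 := by gcongr; exact ht.2.le
      linarith
    have ht0 : 0 ≤ t - σ (i + 1) := by linarith [ht.1]
    have hel2 : (t - σ (i + 1)) * G ≤ 3 := by
      have h2 : (t - σ (i + 1)) * (s ^ 5 * (9 / 1000) * G) ≤ 233 / 10000 * s ^ 5 :=
        (by gcongr : _ ≤ _).trans hel
      have h3 : ((t - σ (i + 1)) * G) * s ^ 5 ≤ 3 * s ^ 5 := by nlinarith
      exact le_of_mul_le_mul_right h3 h5p
    have h2 := g.grow i (α := σ (i + 1)) (t := t) (q := q) (c := c) (σnn h (by omega)) ht.1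
      (ht.2.trans_le hT) hq0 hc0
      (fun τ hτ => by
        have := hU τ ⟨hσσ.trans hτ.1.le, hτ.2.trans ht.2⟩
        rw [hq]; gcongr)
      (fun τ hτ => hx τ ⟨hσσ.trans hτ.1.le, hτ.2.trans ht.2⟩)
    have hσT : σ (i + 1) < T := (σmono h (by omega) le_rfl).trans_lt h.σT
    have h3 : √(Y x i (σ (i + 1))) ≤ 101 * a (i + 1) := by
      rw [g.Y_succ ⟨σnn h (by omega), hσT⟩, h.cross i hin]
      have h4 : Y x (i + 1) (σ (i + 1)) = a (i + 1) ^ 2 := by
        rw [← h.aY (i + 1) (by omega), Real.sq_sqrt (Y_nonneg _ _)]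
      rw [h4]
      apply Real.sqrt_le_iff.2
      constructor
      · positivity
      · nlinarith
    have h4 : q * (t - σ (i + 1)) ≤ 1 / 100 := by
      have : q * (t - σ (i + 1)) = 1001 / 1000 * 121 * ((t - σ (i + 1)) * G) / s ^ 5 := by
        rw [hq]; field_simp
      rw [this, div_le_iff₀ h5p]
      nlinarith
    have h6 : c * (t - σ (i + 1)) ≤ 1 / 1000 * a (i + 1) := by
      have h6 : c * (t - σ (i + 1)) * s ^ 5 ≤ C * 14400 * a i * 3 := by
        calc c * (t - σ (i + 1)) * s ^ 5 = (c * s ^ 5) * (t - σ (i + 1)) := by ring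
          _ ≤ (C * 14400 * a i * G) * (t - σ (i + 1)) := by gcongr
          _ = C * 14400 * a i * ((t - σ (i + 1)) * G) := by ring
          _ ≤ _ := by gcongr
      have h8 := h.agrow i hin
      have h9 : a i ≤ 1000 / 9 * a (i + 1) := by linarith
      have h7 : C * 14400 * a i * 3 ≤ 1 / 1000 * a (i + 1) * s ^ 5 := by
        calc C * 14400 * a i * 3 ≤ 1 / 10 ^ 20 * 14400 * (1000 / 9 * a (i + 1)) * 3 := by gcongr
          _ ≤ 1 / 1000 * a (i + 1) * 10 ^ 30 := by nlinarith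
          _ ≤ _ := by gcongr
      exact le_of_mul_le_mul_right (h6.trans h7) h5p
    calc √(Y x i t) ≤ Real.exp (q * (t - σ (i + 1))) * (√(Y x i (σ (i + 1)))
          + c * (t - σ (i + 1))) := h2
      _ ≤ 102 / 100 * (101 * a (i + 1) + 1 / 1000 * a (i + 1)) := by
          have := exp_le h4
          have := Real.exp_pos (q * (t - σ (i + 1)))
          gcongr
      _ ≤ 120 * a (i + 1) := by linarith

end Good

end Pool.Agent.Y5
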