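import Pool.Agent.Y5.O5

/-! The dynamics during one stage. -/

open Set Filter Topology MeasureTheory

set_option autoImplicit false

namespace Pool.Agent.Y5

/-- The current stage on `[σ n, t1)`. -/
structure Cur (s T : ℝ) (x : ℕ → ℝ → ℝ) (n : ℕ) (σ a : ℕ → ℝ) (t1 : ℝ) : Prop where
  lt : σ n < t1
  leT : t1 ≤ T
  le : t1 ≤ σ n + 23 / 1000 * s ^ 5 / (s ^ (5 * n) * a n)
  act : ∀ t ∈ Ico (σ n) t1, Y x (n + 1) t < (1 / 100 * x n t) ^ 2 ∧ 9 / 10 * a n < x n t

namespace Good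

variable {s ν C K T A : ℝ} {B : ℕ → ℝ} {x : ℕ → ℝ → ℝ} {n : ℕ} {σ a : ℕ → ℝ} {t1 : ℝ}

lemma strain' (g : Good s ν C K T A B x) (m k : ℕ) (hk : m ≤ k) (t : ℝ) :
    |∑ i ∈ Finset.range m, s ^ (5 * i) * B (k - i) * x i t| ≤ 1001 / 1000 * U s x m t := by
  have hs0 := g.s0
  refine (Finset.abs_sum_le_sum_abs _ _).trans ?_
  rw [U, Finset.mul_sum]
  refine Finset.sum_le_sum fun i hi => ?_
  have hi' : 1 ≤ k - i := by have := Finset.mem_range.1 hi; omega
  rw [abs_mul, abs_mul, abs_of_pos (by positivity : 0 < s ^ (5 * i)),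
    abs_of_nonneg (by linarith [g.Blo hi'] : 0 ≤ B (k - i))]
  have := g.Bhi hi'
  have h2 : s ^ (5 * i) * B (k - i) * |x i t| ≤ s ^ (5 * i) * (1001 / 1000) * |x i t| := by
    gcongr
  linarith

/-- lower bound of the previous mode -/
lemma C4 (g : Good s ν C K T A B x) {m : ℕ} (h : Stg s T A x (m + 1) σ a)
    (hc : Cur s T x (m + 1) σ a t1) : ∀ t ∈ Ico (σ (m + 1)) t1,
    50 * a (m + 1) ≤ x m t ∧
    U s x m t ≤ 1 / 1000 * (s ^ (5 * m) * a (m + 1)) := by
  have hs := g.hs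
  have hs0 := g.s0
  have h5 := g.s5
  have h5p : 0 < s ^ 5 := by linarith
  have hC := g.Cpos
  have hν := g.hν
  have hub := g.UB h hc.leT hc.le m (by omega)
  have hub1 := g.UB h hc.leT hc.le (m + 1) le_rfl
  have ha := g.apos h (m + 1) le_rfl
  have hGm := g.Gpos h m (by omega)
  have hst := g.Gstep h (i := m) (by omega)
  have hvis := g.vis h m (by omega)
  have hCs' := g.Cs'
  have he : s ^ (5 * (m + 1)) = s ^ (5 * m) * s ^ 5 := by rw [← pow_add]; congr 1
  set Gm := s ^ (5 * m) * a m with hGmd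
  set P := s ^ (5 * m) * a (m + 1) with hP
  have hP0 : 0 < P := by positivity
  have hGP : 9 / 1000 * Gm ≤ P := by
    have : s ^ 5 * (9 / 1000 * Gm) ≤ s ^ 5 * P := by rw [hP]; rw [he] at hst; linarith
    exact le_of_mul_le_mul_left this h5p
  have hUm : ∀ t ∈ Ico (σ (m + 1)) t1, U s x m t ≤ 1 / 1000 * P := by
    intro t ht
    have h1 := hub.1 t ⟨(h.σlt m (by omega)).le.trans ht.1, ht.2⟩
    refine h1.trans ?_
    have h2 : 121 / s ^ 5 ≤ 1 / 10 ^ 6 := by
      rw [div_le_div_iff₀ h5p (by positivity)]; linarith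
    calc 121 / s ^ 5 * Gm ≤ 1 / 10 ^ 6 * (1000 / 9 * P) := by gcongr; linarith
      _ ≤ _ := by linarith
  intro t ht
  refine ⟨?_, hUm t ht⟩
  set R := 500 * a (m + 1) * P with hR
  have hd : ν * s ^ (4 * m) ≤ 1 / 1000 * P := by
    have h1 : (10 : ℝ) ^ 6 ≤ s ^ 9 := by
      calc (10 : ℝ) ^ 6 ≤ s := by linarith
        _ ≤ s ^ 9 := le_self_pow₀ (by linarith) (by norm_num)
    have h2 : ν * s ^ (4 * m) * 10 ^ 6 ≤ ν * s ^ (4 * m) * s ^ 9 := by gcongr
    linarith
  have hα0 : 0 ≤ σ (m + 1) := σnn h le_rfl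
  have h1 := mono_of (f := fun τ => x m τ + R * τ)
    (f' := fun τ => vf s ν C B (fun k => x k τ) m + R) ht.1
    (((g.cont m).mono fun τ hτ => ⟨hα0.trans hτ.1, hτ.2.trans_lt (ht.2.trans_le hc.leT)⟩).add
      (by fun_prop))
    (fun τ hτ => by
      have := (g.derivAt m (t := τ) ⟨hα0.trans_lt hτ.1, hτ.2.trans (ht.2.trans_le hc.leT)⟩).fun_add
        ((hasDerivAt_id τ).const_mul R)
      simpa using this)
    (fun τ hτ => by
      have hτ1 : τ ∈ Ico (σ (m + 1)) t1 := ⟨hτ.1.le, hτ.2.trans ht.2⟩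
      have hτI : τ ∈ Ico 0 T := ⟨hα0.trans hτ.1.le, hτ.2.trans (ht.2.trans_le hc.leT)⟩
      have h2 := g.vf_ge hτI m
      have h3 : |x m τ| ≤ 120 * a (m + 1) :=
        (g.abs_le_sqrt hτI le_rfl).trans (hub.2.2 (by omega) τ hτ1)
      have h4 : |x (m + 1) τ| ≤ 21 * a (m + 1) :=
        (g.abs_le_sqrt hτI le_rfl).trans (hub1.2.1 τ hτ1)
      have h6 : Y x (m + 1) τ ≤ 441 * a (m + 1) ^ 2 := by
        have := hub1.2.1 τ hτ1
        calc Y x (m + 1) τ = √(Y x (m + 1) τ) ^ 2 := (Real.sq_sqrt (Y_nonneg _ _)).symm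
          _ ≤ (21 * a (m + 1)) ^ 2 := by gcongr
          _ = _ := by ring
      have h7 := hUm τ hτ1
      have h8 : C * s ^ (5 * m) * |x (m + 1) τ| ≤ 1 / 1000 * P := by
        calc C * s ^ (5 * m) * |x (m + 1) τ| ≤ C * s ^ (5 * m) * (21 * a (m + 1)) := by gcongr
          _ = 21 * C * P := by rw [hP]; ring
          _ ≤ 1 / 1000 * P := by gcongr; linarith
      have h9 : (ν * s ^ (4 * m) + C * s ^ (5 * m) * |x (m + 1) τ|
          + 1001 / 1000 * U s x m τ) * |x m τ| ≤ 4 / 1000 * P * (120 * a (m + 1)) := by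
        have := U_nonneg (x := x) hs0.le m τ
        gcongr
        linarith
      have h10 : 1001 / 1000 * s ^ (5 * m) * Y x (m + 1) τ ≤ 442 * a (m + 1) * P := by
        calc 1001 / 1000 * s ^ (5 * m) * Y x (m + 1) τ
            ≤ 1001 / 1000 * s ^ (5 * m) * (441 * a (m + 1) ^ 2) := by gcongr
          _ = 1001 / 1000 * 441 * (a (m + 1) * P) := by rw [hP]; ring
          _ ≤ 442 * (a (m + 1) * P) := by gcongr; norm_num
          _ = _ := by ring
      have h11 : 0 ≤ (if m = 0 then 0 else C * s ^ (5 * (m - 1)) * x (m - 1) τ ^ 2) := by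
        split_ifs <;> positivity
      have h12 : 0 < a (m + 1) * P := by positivity
      rw [hR]
      nlinarith)
  rw [h.cross m (by omega)] at h1
  have hel : (t - σ (m + 1)) * P ≤ 233 / 10000 := by
    have h2 := g.el' h hc.le (i := m + 1) le_rfl
    have h3 : (t - σ (m + 1)) * (s ^ (5 * (m + 1)) * a (m + 1))
        ≤ (t1 - σ (m + 1)) * (s ^ (5 * (m + 1)) * a (m + 1)) := by
      gcongr; exact ht.2.le
    have h4 : (t - σ (m + 1)) * (s ^ (5 * (m + 1)) * a (m + 1))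
        = ((t - σ (m + 1)) * P) * s ^ 5 := by rw [he, hP]; ring
    rw [h4] at h3
    exact le_of_mul_le_mul_right (h3.trans h2) h5p
  have h2 : R * t - R * σ (m + 1) = 500 * a (m + 1) * ((t - σ (m + 1)) * P) := by
    rw [hR]; ring
  have h3 : 500 * a (m + 1) * ((t - σ (m + 1)) * P) ≤ 500 * a (m + 1) * (233 / 10000) := by
    gcongr
  linarith

lemma strain_nonneg (g : Good s ν C K T A B x) (h : Stg s T A x n σ a)
    (hc : Cur s T x n σ a t1) {t : ℝ} (ht : t ∈ Ico (σ n) t1) :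
    0 ≤ ∑ i ∈ Finset.range n, s ^ (5 * i) * B (n - i) * x i t := by
  rcases n with _ | m
  · simp
  · rw [Finset.sum_range_succ]
    obtain ⟨h1, h2⟩ := g.C4 h hc t ht
    have h3 := (abs_le.1 (g.strain' m (m + 1) (by omega) t)).1
    have hs0 := g.s0
    have ha := g.apos h (m + 1) le_rfl
    have e : m + 1 - m = 1 := by omega
    rw [e]
    have hB := g.Blo (le_refl 1)
    have h4 : s ^ (5 * m) * (999 / 1000) * (50 * a (m + 1)) ≤ s ^ (5 * m) * B 1 * x m t := by
      gcongr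
    have h5 : 0 < s ^ (5 * m) * a (m + 1) := by positivity
    nlinarith

/-- consequences of the smallness of the tail -/
lemma Zsm (g : Good s ν C K T A B x) (h : Stg s T A x n σ a)
    (hc : Cur s T x n σ a t1) {t : ℝ} (ht : t ∈ Ico (σ n) t1) (hZ : 0 ≤ x (n + 1) t) :
    x (n + 1) t ≤ 1 / 100 * x n t := by
  have h0 : 0 ≤ σ n := σnn h le_rfl
  have h1 := (hc.act t ht).1
  have hX : 0 < x n t := (by have := g.apos h n le_rfl; positivity : 0 < 9 / 10 * a n).trans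
    (hc.act t ht).2
  have h2 := g.sq_le (t := t) ⟨h0.trans ht.1, ht.2.trans_le hc.leT⟩ (le_refl (n + 1))
  exact le_of_sq_le_sq (h2.trans h1.le) (by positivity)
where
  le_of_sq_le_sq {a b : ℝ} (h : a ^ 2 ≤ b ^ 2) (hb : 0 ≤ b) : a ≤ b := by
    exact (le_abs_self a).trans (abs_le_of_sq_le_sq h hb)

lemma GX (g : Good s ν C K T A B x) (h : Stg s T A x n σ a)
    (hc : Cur s T x n σ a t1) {t : ℝ} (ht : t ∈ Ico (σ n) t1) :
    s ^ (5 * n) * a n ≤ 10 / 9 * (s ^ (5 * n) * x n t) := by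
  have h1 := (hc.act t ht).2
  have hs0 := g.s0
  have : 0 < s ^ (5 * n) := by positivity
  nlinarith

/-- lower bound for the growth of the next mode -/
lemma Zder (g : Good s ν C K T A B x) (h : Stg s T A x n σ a)
    (hc : Cur s T x n σ a t1) {t : ℝ} (ht : t ∈ Ico (σ n) t1) (hZ : 0 < x (n + 1) t)
    (hY : Y x (n + 2) t ≤ e2 s * x (n + 1) t ^ 2) :
    C * s ^ (5 * n) * x n t ^ 2 + 998 / 1000 * s ^ (5 * n) * x n t * x (n + 1) t
      ≤ vf s ν C B (fun k => x k t) (n + 1) := by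
  have hs := g.hs
  have hs0 := g.s0
  have h5 := g.s5
  have h5p : 0 < s ^ 5 := by linarith
  have hC := g.Cpos
  have hν := g.hν
  have hCs := g.Cs
  have h0 : 0 ≤ σ n := σnn h le_rfl
  have htI : t ∈ Ico 0 T := ⟨h0.trans ht.1, ht.2.trans_le hc.leT⟩
  have hub := (g.UB h hc.leT hc.le n le_rfl).1 t ht
  have hvis := g.vis h n le_rfl
  have hGX := g.GX h hc ht
  have hZX := g.Zsm h hc ht hZ.le
  have ha := g.apos h n le_rfl
  have hX : 0 < x n t := (by positivity : 0 < 9 / 10 * a n).trans (hc.act t ht).2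
  set X := x n t with hXd
  set Z := x (n + 1) t with hZd
  set L := s ^ (5 * n) with hL
  have hLp : 0 < L := by positivity
  have he : s ^ (5 * (n + 1)) = L * s ^ 5 := by rw [← pow_add]; congr 1
  have he' : s ^ (4 * (n + 1)) * s ^ 5 = s ^ (4 * n) * s ^ 9 := by
    rw [← pow_add, ← pow_add]; congr 1
  -- viscosity
  have hd : ν * s ^ (4 * (n + 1)) ≤ 1 / 10000 * (L * X) := by
    have h1 : ν * s ^ (4 * (n + 1)) * s ^ 5 ≤ 10 / 9 * (L * X) := by
      calc ν * s ^ (4 * (n + 1)) * s ^ 5 = ν * (s ^ (4 * (n + 1)) * s ^ 5) := by ring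
        _ = ν * s ^ (4 * n) * s ^ 9 := by rw [he']; ring
        _ ≤ _ := hvis.trans hGX
    have h2 : ν * s ^ (4 * (n + 1)) * 10 ^ 30 ≤ ν * s ^ (4 * (n + 1)) * s ^ 5 := by gcongr
    have h3 : 0 < L * X := by positivity
    linarith
  -- strain
  have hst : -(1 / 10000 * (L * X)) + 999 / 1000 * (L * X)
      ≤ ∑ i ∈ Finset.range (n + 1), s ^ (5 * i) * B (n + 1 - i) * x i t := by
    rw [Finset.sum_range_succ]
    have h3 := (abs_le.1 (g.strain' n (n + 1) (by omega) t)).1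
    have e : n + 1 - n = 1 := by omega
    rw [e]
    have hB := g.Blo (le_refl 1)
    have h4 : L * (999 / 1000) * X ≤ s ^ (5 * n) * B 1 * x n t := by
      gcongr
    have h6 : 121 / s ^ 5 * (L * a n) ≤ 1 / 20000 * (L * X) := by
      have h2 : 121 / s ^ 5 ≤ 1 / 10 ^ 6 := by
        rw [div_le_div_iff₀ h5p (by positivity)]; linarith
      calc 121 / s ^ 5 * (L * a n) ≤ 1 / 10 ^ 6 * (10 / 9 * (L * X)) := by gcongr
        _ ≤ _ := by
          have h3 : 0 < L * X := by positivity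
          linarith
    have h7 : 0 < L * X := by positivity
    linarith
  -- the next mode
  have he2 : e2 s * s ^ 5 = 1 / 1000 := by rw [e2]; field_simp
  have hz : x (n + 2) t ≤ Z := by
    refine (le_abs_self _).trans (abs_le_of_sq_le_sq ?_ hZ.le)
    refine (g.sq_le htI (le_refl (n + 2))).trans (hY.trans ?_)
    have := g.e2_small
    have : 0 < Z ^ 2 := by positivity
    nlinarith
  have h7 : C * s ^ (5 * (n + 1)) * Z * x (n + 2) t ≤ 1 / 10000 * (L * X * Z) := by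
    calc C * s ^ (5 * (n + 1)) * Z * x (n + 2) t ≤ C * s ^ (5 * (n + 1)) * Z * Z := by gcongr
      _ = (C * s ^ 5) * (L * Z * Z) := by rw [he]; ring
      _ ≤ 1 / 10 ^ 20 * (L * Z * (1 / 100 * X)) := by gcongr
      _ ≤ _ := by
        have : 0 < L * X * Z := by positivity
        nlinarith
  have h8 : s ^ (5 * (n + 1)) * ∑' k : ℕ, B (k + 1) * x (n + 1 + 1 + k) t ^ 2
      ≤ 1 / 10000 * (L * X * Z) := by
    have h9 := (g.tsB htI (n + 1 + 1) (fun j => j + 1) (fun j => by omega)).2.2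
    calc _ ≤ s ^ (5 * (n + 1)) * (1001 / 1000 * Y x (n + 1 + 1) t) := by gcongr
      _ ≤ s ^ (5 * (n + 1)) * (1001 / 1000 * (e2 s * Z ^ 2)) := by gcongr
      _ = 1001 / 1000 * (e2 s * s ^ 5) * (L * Z * Z) := by rw [he]; ring
      _ ≤ 1001 / 1000 * (e2 s * s ^ 5) * (L * Z * (1 / 100 * X)) := by rw [he2]; gcongr
      _ = 1001 / 1000 * (1 / 1000) * (1 / 100) * (L * X * Z) := by rw [he2]; ring
      _ ≤ _ := by
        have : 0 < L * X * Z := by positivity
        nlinarith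
  have hvf : vf s ν C B (fun k => x k t) (n + 1) = -(ν * s ^ (4 * (n + 1)) * Z)
      + C * L * X ^ 2 - C * s ^ (5 * (n + 1)) * Z * x (n + 2) t
      + Z * ∑ i ∈ Finset.range (n + 1), s ^ (5 * i) * B (n + 1 - i) * x i t
      - s ^ (5 * (n + 1)) * ∑' k : ℕ, B (k + 1) * x (n + 1 + 1 + k) t ^ 2 := by
    simp only [vf, hXd, hL, hZd]
    rw [if_neg (by omega)]
    simp only [Nat.add_sub_cancel]
  rw [hvf]
  have h10 : Z * (-(1 / 10000 * (L * X)) + 999 / 1000 * (L * X))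
      ≤ Z * ∑ i ∈ Finset.range (n + 1), s ^ (5 * i) * B (n + 1 - i) * x i t := by gcongr
  have h11 : ν * s ^ (4 * (n + 1)) * Z ≤ 1 / 10000 * (L * X) * Z := by gcongr
  have h12 : 0 < L * X * Z := by positivity
  nlinarith

/-- upper bound for the growth of the current mode -/
lemma Xup (g : Good s ν C K T A B x) (h : Stg s T A x n σ a)
    (hc : Cur s T x n σ a t1) {t : ℝ} (ht : t ∈ Ico (σ n) t1) (hZ : 0 ≤ x (n + 1) t) :
    vf s ν C B (fun k => x k t) n ≤ 1 / 1000 * s ^ (5 * n) * x n t ^ 2 := by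
  have hs := g.hs
  have hs0 := g.s0
  have h5 := g.s5
  have h5p : 0 < s ^ 5 := by linarith
  have hC := g.Cpos
  have hCs' := g.Cs'
  have h0 : 0 ≤ σ n := σnn h le_rfl
  have htI : t ∈ Ico 0 T := ⟨h0.trans ht.1, ht.2.trans_le hc.leT⟩
  have hub := (g.UB h hc.leT hc.le n le_rfl).1 t ht
  have hGX := g.GX h hc ht
  have ha := g.apos h n le_rfl
  have hact := (hc.act t ht).2
  have hX : 0 < x n t := (by positivity : 0 < 9 / 10 * a n).trans hact
  have h1 := g.vf_le htI n hX.le hZ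
  have h2 : (if n = 0 then 0 else C * s ^ (5 * (n - 1)) * x (n - 1) t ^ 2)
      ≤ 1 / 2000 * s ^ (5 * n) * x n t ^ 2 := by
    split_ifs with hn
    · positivity
    · have h3 := (g.UB h hc.leT hc.le (n - 1) (by omega)).2.2 (by omega) t (by
        rw [Nat.sub_add_cancel (by omega)]; exact ht)
      rw [Nat.sub_add_cancel (by omega)] at h3
      have h4 := g.abs_le_sqrt htI (le_refl (n - 1))
      have e : s ^ (5 * (n - 1)) ≤ s ^ (5 * n) := pow_le_pow_right₀ (by linarith) (by omega)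
      have h6 : x (n - 1) t ^ 2 ≤ (120 * (10 / 9 * x n t)) ^ 2 := by
        rw [← sq_abs]; gcongr; refine h4.trans (h3.trans ?_); linarith
      calc C * s ^ (5 * (n - 1)) * x (n - 1) t ^ 2
          ≤ C * s ^ (5 * n) * (120 * (10 / 9 * x n t)) ^ 2 := by gcongr
        _ = (C * (120 * (10 / 9)) ^ 2) * (s ^ (5 * n) * x n t ^ 2) := by ring
        _ ≤ 1 / 2000 * (s ^ (5 * n) * x n t ^ 2) := by gcongr; linarith
        _ = _ := by ring
  have h3 : 1001 / 1000 * U s x n t * x n t ≤ 1 / 2000 * s ^ (5 * n) * x n t ^ 2 := by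
    have h6 : 1001 / 1000 * U s x n t ≤ 1 / 2000 * (s ^ (5 * n) * x n t) := by
      have h2 : 121 / s ^ 5 ≤ 1 / 10 ^ 6 := by
        rw [div_le_div_iff₀ h5p (by positivity)]; linarith
      have h4 : 121 / s ^ 5 * (s ^ (5 * n) * a n)
          ≤ 1 / 10 ^ 6 * (10 / 9 * (s ^ (5 * n) * x n t)) := by gcongr
      have h3 : 0 < s ^ (5 * n) * x n t := by positivity
      linarith
    calc 1001 / 1000 * U s x n t * x n t ≤ 1 / 2000 * (s ^ (5 * n) * x n t) * x n t := by gcongr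
      _ = _ := by ring
  linarith

/-- lower bound for the growth of the current mode -/
lemma Xlo (g : Good s ν C K T A B x) (h : Stg s T A x n σ a)
    (hc : Cur s T x n σ a t1) {t : ℝ} (ht : t ∈ Ico (σ n) t1) (hZ : 0 < x (n + 1) t)
    (hY : Y x (n + 2) t ≤ e2 s * x (n + 1) t ^ 2) :
    -(ν * s ^ (4 * n) * x n t) - C * s ^ (5 * n) * x n t * x (n + 1) t
      - 10012 / 10000 * s ^ (5 * n) * x (n + 1) t ^ 2 ≤ vf s ν C B (fun k => x k t) n := by
  have hs0 := g.s0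
  have hC := g.Cpos
  have h0 : 0 ≤ σ n := σnn h le_rfl
  have htI : t ∈ Ico 0 T := ⟨h0.trans ht.1, ht.2.trans_le hc.leT⟩
  have hst := g.strain_nonneg h hc ht
  have ha := g.apos h n le_rfl
  have hX : 0 < x n t := (by positivity : 0 < 9 / 10 * a n).trans (hc.act t ht).2
  have h1 := (g.tsB htI (n + 1) (fun j => j + 1) (fun j => by omega)).2.2
  have h2 : Y x (n + 1) t ≤ 10001 / 10000 * x (n + 1) t ^ 2 := by
    rw [g.Y_succ htI (n + 1)]
    have := g.e2_small
    have h3 : e2 s * x (n + 1) t ^ 2 ≤ 1 / 10000 * x (n + 1) t ^ 2 := by gcongr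
    have e : n + 1 + 1 = n + 2 := rfl
    rw [e]
    linarith
  have h3 : s ^ (5 * n) * ∑' k : ℕ, B (k + 1) * x (n + 1 + k) t ^ 2
      ≤ 10012 / 10000 * s ^ (5 * n) * x (n + 1) t ^ 2 := by
    calc _ ≤ s ^ (5 * n) * (1001 / 1000 * Y x (n + 1) t) := by gcongr
      _ ≤ s ^ (5 * n) * (1001 / 1000 * (10001 / 10000 * x (n + 1) t ^ 2)) := by gcongr
      _ = 1001 / 1000 * (10001 / 10000) * (s ^ (5 * n) * x (n + 1) t ^ 2) := by ring
      _ ≤ 10012 / 10000 * (s ^ (5 * n) * x (n + 1) t ^ 2) := by gcongr; norm_num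
      _ = _ := by ring
  have h4 : 0 ≤ (if n = 0 then 0 else C * s ^ (5 * (n - 1)) * x (n - 1) t ^ 2) := by
    split_ifs <;> positivity
  have h5 : 0 ≤ x n t * ∑ i ∈ Finset.range n, s ^ (5 * i) * B (n - i) * x i t := by positivity
  unfold vf
  simp only
  linarith

end Good

end Pool.Agent.Y5
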