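import Pool.Agent.Y5.O7

/-! The induction over the stages. -/

open Set Filter Topology MeasureTheory

set_option autoImplicit false

namespace Pool.Agent.Y5.Good

variable {s ν C K T A : ℝ} {B : ℕ → ℝ} {x : ℕ → ℝ → ℝ} {n : ℕ} {σ a : ℕ → ℝ} {t1 : ℝ}

lemma next_le (g : Good s ν C K T A B x) {m : ℕ} {t : ℝ} (ht : t ∈ Ico 0 T)
    (h : Y x (m + 1) t ≤ e1 s * x m t ^ 2) : |x (m + 1) t| ≤ eh s * |x m t| := by
  have he := eh_pos (s := s)
  refine abs_le_of_sq_le_sq ?_ (by positivity)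
  refine (g.sq_le ht (le_refl (m + 1))).trans (h.trans ?_)
  rw [eh_sq, mul_pow, sq_abs]

lemma Pr_next (g : Good s ν C K T A B x) {m : ℕ} {t : ℝ} (h0 : 0 ≤ t) (ht : t < T)
    (h : ∀ τ ∈ Ioo 0 t, Y x (m + 1) τ ≤ e1 s * x m τ ^ 2)
    (hPr : Pr (fun τ => s ^ (5 * m) * |x m τ|) t ≤ 102 / 10000 * s ^ 5) :
    Pr (fun τ => s ^ (5 * (m + 1)) * |x (m + 1) τ|) t ≤ 1 / 10000 * s ^ 5 := by
  have hs0 := g.s0
  have h5 := g.s5
  have he := eh_pos (s := s)
  have he5 : s ^ (5 * (m + 1)) = s ^ 5 * s ^ (5 * m) := by rw [← pow_add]; congr 1; ring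
  have h1 := Pr_le_mul (g.cabs (m + 1)) (g.cabs m) (t := t) (c := s ^ 5 * eh s) h0 ht
    (fun τ hτ => by
      have h2 := g.next_le ⟨hτ.1.le, hτ.2.trans ht⟩ (h τ hτ)
      rw [he5]
      calc s ^ 5 * s ^ (5 * m) * |x (m + 1) τ| ≤ s ^ 5 * s ^ (5 * m) * (eh s * |x m τ|) := by
            gcongr
        _ = _ := by ring)
  refine h1.trans ?_
  have h2 := g.eh_small
  calc s ^ 5 * eh s * Pr (fun τ => s ^ (5 * m) * |x m τ|) t
      ≤ s ^ 5 * eh s * (102 / 10000 * s ^ 5) := by gcongr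
    _ = 102 / 10000 * (eh s * (s ^ 5) ^ 2) := by ring
    _ ≤ _ := by linarith

lemma preE (g : Good s ν C K T A B x) (h : Stg s T A x n σ a) :
    Pr (fun τ => s ^ (5 * n) * |x n τ|) (σ n) ≤ 102 / 10000 * s ^ 5 := by
  rcases n with _ | m
  · rw [h.σ0, Pr_zero]; have := g.s0; positivity
  · exact h.J m (by omega)

lemma preJ (g : Good s ν C K T A B x) (h : Stg s T A x n σ a) :
    Pr (fun τ => s ^ (5 * (n + 1)) * |x (n + 1) τ|) (σ n) ≤ 1 / 10000 * s ^ 5 := by
  rcases n with _ | m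
  · rw [h.σ0, Pr_zero]; have := g.s0; positivity
  · exact g.Pr_next (σnn h le_rfl) h.σT (fun τ hτ => (h.ql m (by omega) τ hτ).2)
      (h.J m (by omega))

lemma Pr_up (g : Good s ν C K T A B x) (i : ℕ) {t t' : ℝ} (h0 : 0 ≤ t) (h1 : t ≤ t')
    (ht : t' < T) : Pr (fun τ => s ^ (5 * i) * |x i τ|) t
      ≤ Pr (fun τ => s ^ (5 * i) * |x i τ|) t' :=
  Pr_mono (g.cabs i) ⟨h0, h1.trans_lt ht⟩ ⟨h0.trans h1, ht⟩ h1 fun τ _ => by
    have := g.s0; positivity

lemma preG (g : Good s ν C K T A B x) (h : Stg s T A x n σ a) (hT : t1 ≤ T)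
    (h1 : t1 ≤ σ n + 23 / 1000 * s ^ 5 / (s ^ (5 * n) * a n)) {i : ℕ} (hi : i < n) {t : ℝ}
    (ht : t ∈ Ioo 0 t1) : Pr (fun τ => s ^ (5 * i) * |x i τ|) t ≤ s ^ 5 / 25 := by
  have hs0 := g.s0
  have h5 := g.s5
  have h5p : 0 < s ^ 5 := by linarith
  have hΓ := h.Γ i hi
  have hσT : σ (i + 1) < T := (σmono h (by omega) le_rfl).trans_lt h.σT
  have hσ0 : 0 ≤ σ (i + 1) := σnn h (by omega)
  have htT : t < T := ht.2.trans_le hT
  rcases le_total t (σ (i + 1)) with h2 | h2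
  · have := g.Pr_up i ht.1.le h2 hσT
    linarith
  · have ha := g.apos h (i + 1) (by omega)
    have h3 := Pr_le_lin (g.cabs i) (α := σ (i + 1)) (t := t)
      (c := s ^ (5 * i) * (120 * a (i + 1))) hσ0 htT h2 (fun τ hτ => by
        have h4 := (g.UB h hT h1 i (by omega)).2.2 hi τ ⟨hτ.1.le, hτ.2.trans ht.2⟩
        have h6 := g.abs_le_sqrt (t := τ) ⟨hσ0.trans hτ.1.le, hτ.2.trans htT⟩ (le_refl i)
        have := h6.trans h4
        gcongr)
    have h4 := g.el' h h1 (i := i + 1) (by omega)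
    have he : s ^ (5 * (i + 1)) = s ^ (5 * i) * s ^ 5 := by rw [← pow_add]; congr 1
    have h6 : (t - σ (i + 1)) * (s ^ (5 * (i + 1)) * a (i + 1))
        ≤ (t1 - σ (i + 1)) * (s ^ (5 * (i + 1)) * a (i + 1)) := by
      have := ht.2.le
      gcongr
    have h7 : ((t - σ (i + 1)) * (s ^ (5 * i) * a (i + 1))) * s ^ 5 ≤ 233 / 10000 * s ^ 5 := by
      refine le_trans (le_of_eq ?_) (h6.trans h4)
      rw [he]; ring
    have h8 := le_of_mul_le_mul_right h7 h5p
    have h9 : s ^ (5 * i) * (120 * a (i + 1)) * (t - σ (i + 1)) ≤ 3 := by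
      have : s ^ (5 * i) * (120 * a (i + 1)) * (t - σ (i + 1))
        = 120 * ((t - σ (i + 1)) * (s ^ (5 * i) * a (i + 1))) := by ring
      linarith
    linarith

lemma x0near (g : Good s ν C K T A B x) : ∃ δ > 0, ∀ t ∈ Ioo 0 T, t < δ → x 0 t ≠ 0 := by
  have h1 := g.cont 0 0 ⟨le_rfl, g.hT⟩
  have h2 : ∀ᶠ t in 𝓝[Ico 0 T] 0, 0 < x 0 t :=
    h1.eventually (lt_mem_nhds (by rw [g.h0]; exact g.hA))
  rw [eventually_nhdsWithin_iff, Metric.eventually_nhds_iff] at h2
  obtain ⟨δ, hδ, h3⟩ := h2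
  refine ⟨δ, hδ, fun t ht htδ => ?_⟩
  have := h3 (y := t) (by rw [Real.dist_eq, sub_zero, abs_of_pos ht.1]; exact htδ)
    ⟨ht.1.le, ht.2⟩
  exact this.ne'

lemma near (g : Good s ν C K T A B x) (h : Stg s T A x n σ a) :
    ∃ δ > 0, ∀ t ∈ Ioo 0 T, t < δ → x n t ≠ 0 := by
  rcases n with _ | m
  · exact g.x0near
  · exact ⟨σ (m + 1), (σnn h (by omega : m ≤ m + 1)).trans_lt (h.σlt m (by omega)),
      fun t ht htδ => (h.ql m (by omega) t ⟨ht.1, htδ⟩).1.ne'⟩

/-- The ratio lemma for the current stage, with the integral bounds. -/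
lemma QLn (g : Good s ν C K T A B x) (h : Stg s T A x n σ a) (hc : Cur s T x n σ a t1) :
    ∀ t ∈ Ioo 0 t1, (0 < x (n + 1) t ∧ Y x (n + 2) t ≤ e1 s * x (n + 1) t ^ 2) ∧
      Pr (fun τ => s ^ (5 * n) * |x n τ|) t ≤ 313 / 10000 * s ^ 5 ∧
      Pr (fun τ => s ^ (5 * (n + 1)) * |x (n + 1) τ|) t ≤ 102 / 10000 * s ^ 5 := by
  have hs0 := g.s0
  have h5 := g.s5
  have h5p : 0 < s ^ 5 := by linarith
  have hE : ∀ t ∈ Ioo 0 t1, (∀ τ ∈ Ioo 0 t, 0 < x (n + 1) τ ∧
        Y x (n + 2) τ ≤ e2 s * x (n + 1) τ ^ 2) →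
      Pr (fun τ => s ^ (5 * n) * |x n τ|) t ≤ 313 / 10000 * s ^ 5 := by
    intro t ht hP
    have h1 := g.preE h
    rcases le_or_gt t (σ n) with h2 | h2
    · have := g.Pr_up n ht.1.le h2 h.σT
      linarith
    · have := (g.stage h hc ⟨h2, ht.2⟩ hP).2.1
      linarith
  have hJ : ∀ t ∈ Ioo 0 t1, (∀ τ ∈ Ioo 0 t, 0 < x (n + 1) τ ∧
        Y x (n + 2) τ ≤ e2 s * x (n + 1) τ ^ 2) →
      Pr (fun τ => s ^ (5 * (n + 1)) * |x (n + 1) τ|) t ≤ 102 / 10000 * s ^ 5 := by
    intro t ht hP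
    have h1 := g.preJ h
    rcases le_or_gt t (σ n) with h2 | h2
    · have := g.Pr_up (n + 1) ht.1.le h2 h.σT
      linarith
    · have := (g.stage h hc ⟨h2, ht.2⟩ hP).2.2
      linarith
  have hQ := g.QL (m := n) (t1 := t1) hc.leT (fun i hi t ht hP => by
    rcases Nat.lt_succ_iff_lt_or_eq.1 hi with h1 | h1
    · exact g.preG h hc.leT hc.le h1 ht
    · subst h1
      have := hE t ht hP
      linarith) (g.near h) hJ
  have he := g.e1_lt
  have hP : ∀ t ∈ Ioo 0 t1, ∀ τ ∈ Ioo 0 t, 0 < x (n + 1) τ ∧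
        Y x (n + 2) τ ≤ e2 s * x (n + 1) τ ^ 2 := fun t ht τ hτ => by
    have h1 := hQ τ ⟨hτ.1, hτ.2.trans ht.2⟩
    refine ⟨h1.1, h1.2.trans ?_⟩
    gcongr
  exact fun t ht => ⟨hQ t ht, hE t ht (hP t ht), hJ t ht (hP t ht)⟩

lemma curP (g : Good s ν C K T A B x) (h : Stg s T A x n σ a) (hc : Cur s T x n σ a t1) :
    ∀ t ∈ Ioo 0 t1, ∀ τ ∈ Ioo 0 t, 0 < x (n + 1) τ ∧
        Y x (n + 2) τ ≤ e2 s * x (n + 1) τ ^ 2 := fun t ht τ hτ => by
  have h1 := (g.QLn h hc τ ⟨hτ.1, hτ.2.trans ht.2⟩).1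
  have he := g.e1_lt
  refine ⟨h1.1, h1.2.trans ?_⟩
  gcongr

/-- energy bound -/
lemma energy (g : Good s ν C K T A B x) {t : ℝ} (ht : t ∈ Ico 0 T) (j : ℕ) : |x j t| ≤ A := by
  have h1 := g.grow 0 (α := 0) (t := t) (q := 0) (c := 0) le_rfl ht.1 ht.2 le_rfl le_rfl
    (fun τ _ => by simp [U]) (fun τ _ => by simp)
  have h2 : Y x 0 0 = A ^ 2 := by
    rw [g.Y_succ ⟨le_rfl, g.hT⟩ 0, g.h0]
    have : Y x (0 + 1) 0 = 0 := by
      rw [Y]
      have : ∀ j : ℕ, x (0 + 1 + j) 0 ^ 2 = 0 := fun j => by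
        have e : 0 + 1 + j = j + 1 := by omega
        rw [e, g.hn j]; simp
      simp only [this, tsum_zero]
    rw [this, add_zero]
  rw [h2, Real.sqrt_sq g.hA.le] at h1
  simp at h1
  exact (g.abs_le_sqrt ht (Nat.zero_le j)).trans h1

/-- the case of an incomplete stage -/
lemma last (g : Good s ν C K T A B x) (h : Stg s T A x n σ a) (hc : Cur s T x n σ a T) :
    ∃ M, ∀ t ∈ Ico 0 T, ∀ j, s ^ (8 * j) * |x j t| ≤ M := by
  have hs := g.hs
  have hs1 := g.s1
  have hs0 := g.s0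
  have h5 := g.s5
  have hA := g.hA
  have key : ∀ k : ℕ, (∀ t ∈ Ioo 0 T, (0 < x (n + k + 1) t ∧
      Y x (n + k + 2) t ≤ e1 s * x (n + k + 1) t ^ 2) ∧
      Pr (fun τ => s ^ (5 * (n + k + 1)) * |x (n + k + 1) τ|) t ≤ 102 / 10000 * s ^ 5) ∧
      ∀ i ≤ n + k, ∀ t ∈ Ioo 0 T, Pr (fun τ => s ^ (5 * i) * |x i τ|) t ≤ s ^ 5 / 25 := by
    intro k
    induction k with
    | zero =>
      refine ⟨fun t ht => ⟨(g.QLn h hc t ht).1, (g.QLn h hc t ht).2.2⟩, fun i hi t ht => ?_⟩
      rcases hi.eq_or_lt with h1 | h1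
      · rw [h1]
        have := (g.QLn h hc t ht).2.1
        simp only [add_zero]
        linarith
      · exact g.preG h hc.leT hc.le h1 ht
    | succ k ih =>
      obtain ⟨ih1, ih2⟩ := ih
      have hnext : ∀ t ∈ Ioo 0 T,
          Pr (fun τ => s ^ (5 * (n + k + 1 + 1)) * |x (n + k + 1 + 1) τ|) t
            ≤ 102 / 10000 * s ^ 5 := by
        intro t ht
        have := g.Pr_next (m := n + k + 1) ht.1.le ht.2
          (fun τ hτ => (ih1 τ ⟨hτ.1, hτ.2.trans ht.2⟩).1.2) (ih1 t ht).2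
        linarith
      have hall : ∀ i < n + k + 1 + 1, ∀ t ∈ Ioo 0 T,
          Pr (fun τ => s ^ (5 * i) * |x i τ|) t ≤ s ^ 5 / 25 := by
        intro i hi t ht
        rcases Nat.lt_succ_iff_lt_or_eq.1 hi with h1 | h1
        · exact ih2 i (by omega) t ht
        · rw [h1]; have := (ih1 t ht).2; linarith
      have hQ := g.QL (m := n + k + 1) (t1 := T) le_rfl (fun i hi t ht _ => hall i hi t ht)
        ⟨1, one_pos, fun t ht _ => (ih1 t ht).1.1.ne'⟩ (fun t ht _ => hnext t ht)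
      refine ⟨fun t ht => ⟨hQ t ht, hnext t ht⟩, fun i hi t ht => hall i (by omega) t ht⟩
  have he := eh_pos (s := s)
  have he8 : s ^ 8 * eh s ≤ 1 := by
    have h1 := g.eh_small
    have h2 : s ^ 8 ≤ (s ^ 5) ^ 2 := by
      rw [← pow_mul]; exact pow_le_pow_right₀ hs1.le (by norm_num)
    calc s ^ 8 * eh s ≤ (s ^ 5) ^ 2 * eh s := by gcongr
      _ = eh s * (s ^ 5) ^ 2 := by ring
      _ ≤ 1 / 10 ^ 20 := h1
      _ ≤ 1 := by norm_num
  have hgeo : ∀ t ∈ Ioo 0 T, ∀ k : ℕ, |x (n + k + 1) t| ≤ eh s ^ k * A := by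
    intro t ht k
    induction k with
    | zero => simpa using g.energy (t := t) ⟨ht.1.le, ht.2⟩ (n + 0 + 1)
    | succ k ih =>
      have h1 := g.next_le (m := n + k + 1) ⟨ht.1.le, ht.2⟩ ((key k).1 t ht).1.2
      calc |x (n + (k + 1) + 1) t| = |x (n + k + 1 + 1) t| := by congr 2
        _ ≤ eh s * |x (n + k + 1) t| := h1
        _ ≤ eh s * (eh s ^ k * A) := by gcongr
        _ = _ := by ring
  refine ⟨s ^ (8 * (n + 1)) * A, fun t ht j => ?_⟩
  rcases ht.1.eq_or_lt with h0 | h0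
  · subst h0
    rcases j with _ | j
    · rw [g.h0, abs_of_pos hA]
      have : 1 ≤ s ^ (8 * (n + 1)) := one_le_pow₀ hs1.le
      simp
      nlinarith
    · rw [g.hn j]; simp; positivity
  · rcases le_or_gt j (n + 1) with hj | hj
    · have h1 := g.energy ht j
      have h2 : s ^ (8 * j) ≤ s ^ (8 * (n + 1)) := pow_le_pow_right₀ hs1.le (by omega)
      gcongr
    · obtain ⟨k, hk⟩ : ∃ k, j = n + k + 1 := ⟨j - n - 1, by omega⟩
      have h1 := hgeo t ⟨h0, ht.2⟩ k
      rw [hk]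
      have e : s ^ (8 * (n + k + 1)) = s ^ (8 * (n + 1)) * (s ^ 8) ^ k := by
        rw [← pow_mul, ← pow_add]; congr 1; ring
      calc s ^ (8 * (n + k + 1)) * |x (n + k + 1) t|
          ≤ s ^ (8 * (n + k + 1)) * (eh s ^ k * A) := by gcongr
        _ = s ^ (8 * (n + 1)) * (s ^ 8 * eh s) ^ k * A := by rw [e, mul_pow]; ring
        _ ≤ s ^ (8 * (n + 1)) * 1 * A := by
            gcongr
            exact pow_le_one₀ (by positivity) he8
        _ = _ := by ring

/-- One step of the induction. -/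
theorem step (g : Good s ν C K T A B x) (h : Stg s T A x n σ a) :
    (T ≤ s ^ 5 / A ∧ ∃ M, ∀ t ∈ Ico 0 T, ∀ j, s ^ (8 * j) * |x j t| ≤ M) ∨
    ∃ σ' a', Stg s T A x (n + 1) σ' a' := by
  have hs := g.hs
  have hs1 := g.s1
  have hs0 := g.s0
  have h5 := g.s5
  have h5p : 0 < s ^ 5 := by linarith
  have hA := g.hA
  have h0 : 0 ≤ σ n := σnn h le_rfl
  have ha := g.apos h n le_rfl
  have hG := g.Gpos h n le_rfl
  set T' := min T (σ n + 23 / 1000 * s ^ 5 / (s ^ (5 * n) * a n)) with hT'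
  have hσT' : σ n < T' := lt_min h.σT (by
    have : 0 < 23 / 1000 * s ^ 5 / (s ^ (5 * n) * a n) := by positivity
    linarith)
  have hT'T : T' ≤ T := min_le_left _ _
  set f : ℝ → ℝ := fun t => max (Y x (n + 1) t - (1 / 100 * x n t) ^ 2) (9 / 10 * a n - x n t)
    with hf
  have hsub : Ico (σ n) T' ⊆ Ico 0 T := fun t ht => ⟨h0.trans ht.1, ht.2.trans_le hT'T⟩
  have hfc : ContinuousOn f (Ico (σ n) T') := by
    refine ContinuousOn.sup ?_ ?_
    · exact ((g.Ycont (n + 1)).mono hsub).sub ((continuousOn_const.mul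
        ((g.cont n).mono hsub)).pow 2)
    · exact continuousOn_const.sub ((g.cont n).mono hsub)
  have hXn : 0 < x n (σ n) := (by positivity : 0 < 995 / 1000 * a n).trans_le h.init
  have hf0 : f (σ n) < 0 := by
    refine max_lt ?_ ?_
    · have h1 := h.initY
      have h2 := g.e1_lt
      have h3 := g.e2_small
      have h4 : 0 < x n (σ n) ^ 2 := by positivity
      have h6 : e1 s * x n (σ n) ^ 2 < 1 / 10000 * x n (σ n) ^ 2 := by
        have : e1 s < 1 / 10000 := h2.trans_le h3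
        gcongr
      have e : (1 / 100 * x n (σ n)) ^ 2 = 1 / 10000 * x n (σ n) ^ 2 := by ring
      rw [e]; linarith
    · have := h.init; linarith
  rcases first_time hfc hf0 with hI | ⟨t1, ht1, hft1, hbelow⟩
  · -- incomplete stage
    left
    have hc : Cur s T x n σ a T' := ⟨hσT', hT'T, min_le_right _ _, fun t ht => by
      have h1 := hI t ht
      have h2 := (max_lt_iff.1 h1)
      exact ⟨by linarith [h2.1], by linarith [h2.2]⟩⟩
    have hdur : (T' - σ n) * (s ^ (5 * n) * a n) ≤ 214 / 10000 * s ^ 5 := by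
      by_contra hcon
      push Not at hcon
      set w := σ n + 214 / 10000 * s ^ 5 / (s ^ (5 * n) * a n) with hw
      have hw1 : σ n < w := by
        have : 0 < 214 / 10000 * s ^ 5 / (s ^ (5 * n) * a n) := by positivity
        linarith
      have hw2 : w < T' := by
        have : 214 / 10000 * s ^ 5 / (s ^ (5 * n) * a n) < T' - σ n := by
          rw [div_lt_iff₀ hG]; exact hcon
        linarith
      obtain ⟨t, ht1, ht2⟩ := exists_between hw2
      have h1 := g.stage_time h hc (t := t) ⟨hw1.trans ht1, ht2⟩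
        (g.curP h hc t ⟨h0.trans_lt (hw1.trans ht1), ht2⟩)
      have h2 : 214 / 10000 * s ^ 5 < (t - σ n) * (s ^ (5 * n) * a n) := by
        rw [← div_lt_iff₀ hG]; linarith
      linarith
    have hT'eq : T' = T := by
      by_contra hne
      have h1 : T' = σ n + 23 / 1000 * s ^ 5 / (s ^ (5 * n) * a n) := by
        rcases min_choice T (σ n + 23 / 1000 * s ^ 5 / (s ^ (5 * n) * a n)) with h2 | h2
        · exact absurd h2 hne
        · exact h2
      have h2 : (T' - σ n) * (s ^ (5 * n) * a n) = 23 / 1000 * s ^ 5 := by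
        rw [h1]; field_simp; ring
      linarith
    rw [hT'eq] at hc
    refine ⟨?_, g.last h hc⟩
    have h1 := g.el' h hc.le (i := 0) (Nat.zero_le n)
    rw [h.σ0, h.a0] at h1
    simp only [mul_zero, pow_zero, one_mul, sub_zero] at h1
    rw [le_div_iff₀ hA]
    linarith
  · -- complete stage
    right
    have ht1T : t1 < T := ht1.2.trans_le hT'T
    have ht10 : 0 < t1 := h0.trans_lt ht1.1
    have hc : Cur s T x n σ a t1 := ⟨ht1.1, ht1T.le, ht1.2.le.trans (min_le_right _ _),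
      fun t ht => by
        have h1 := hbelow t ht
        have h2 := (max_lt_iff.1 h1)
        exact ⟨by linarith [h2.1], by linarith [h2.2]⟩⟩
    have hX : 99 / 100 * a n ≤ x n t1 := by
      have := lim_le (f := fun τ => -(x n τ)) (T := T) (α := σ n) (t := t1)
        (c := -(99 / 100 * a n)) (g.cont n).neg h0 ht1T ht1.1 (fun τ hτ => by
          have := (g.stage h hc (t := τ) hτ (g.curP h hc τ ⟨h0.trans_lt hτ.1, hτ.2⟩)).1
          linarith)
      linarith
    have hXp : 0 < x n t1 := (by positivity : 0 < 99 / 100 * a n).trans_le hX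
    have hY1 : Y x (n + 1) t1 = (1 / 100 * x n t1) ^ 2 := by
      have h1 : 9 / 10 * a n - x n t1 < 0 := by linarith
      have h2 : max (Y x (n + 1) t1 - (1 / 100 * x n t1) ^ 2) (9 / 10 * a n - x n t1) = 0 := hft1
      rcases max_choice (Y x (n + 1) t1 - (1 / 100 * x n t1) ^ 2) (9 / 10 * a n - x n t1)
        with h3 | h3
      · rw [h3] at h2; linarith
      · rw [h3] at h2; linarith
    have hZ0 : 0 ≤ x (n + 1) t1 := by
      have := lim_le (f := fun τ => -(x (n + 1) τ)) (T := T) (α := 0) (t := t1)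
        (c := 0) (g.cont (n + 1)).neg le_rfl ht1T ht10 (fun τ hτ => by
          have := (g.QLn h hc τ hτ).1.1
          linarith)
      linarith
    have hYn2 : Y x (n + 2) t1 ≤ e1 s * x (n + 1) t1 ^ 2 := by
      have := lim_le (f := fun τ => Y x (n + 2) τ - e1 s * x (n + 1) τ ^ 2) (T := T) (α := 0)
        (t := t1) (c := 0) ((g.Ycont (n + 2)).sub (continuousOn_const.mul ((g.cont (n + 1)).pow 2)))
        le_rfl ht1T ht10 (fun τ hτ => by
          have := (g.QLn h hc τ hτ).1.2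
          linarith)
      linarith
    have hE1 : Pr (fun τ => s ^ (5 * n) * |x n τ|) t1 ≤ 314 / 10000 * s ^ 5 :=
      lim_le (T := T) (α := 0) (Pr_cont (g.cabs n)) le_rfl ht1T ht10 (fun τ hτ => by
        have := (g.QLn h hc τ hτ).2.1
        linarith)
    have hJ1 : Pr (fun τ => s ^ (5 * (n + 1)) * |x (n + 1) τ|) t1 ≤ 102 / 10000 * s ^ 5 :=
      lim_le (T := T) (α := 0) (Pr_cont (g.cabs (n + 1))) le_rfl ht1T ht10
        (fun τ hτ => (g.QLn h hc τ hτ).2.2)
    refine ⟨fun i => if i ≤ n then σ i else t1, fun i => if i ≤ n then a i else 1 / 100 * x n t1,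
      ?_⟩
    have hn1 : ¬ (n + 1 ≤ n) := by omega
    constructor
    · simp [h.σ0]
    · simp [h.a0]
    · intro i hi
      rcases Nat.lt_succ_iff_lt_or_eq.1 hi with h1 | h1
      · rw [if_pos (by omega), if_pos (by omega)]; exact h.σlt i h1
      · subst h1
        rw [if_pos le_rfl, if_neg (by omega)]; exact ht1.1
    · rw [if_neg hn1]; exact ht1T
    · intro i hi
      rcases Nat.lt_succ_iff_lt_or_eq.1 hi with h1 | h1
      · rw [if_pos (by omega), if_pos (by omega), if_pos (by omega)]; exact h.dur i h1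
      · subst h1
        rw [if_pos le_rfl, if_neg (by omega), if_pos le_rfl]
        have := hc.le
        linarith
    · intro i hi
      rcases Nat.lt_succ_iff_lt_or_eq.1 hi with h1 | h1
      · rw [if_pos (by omega), if_pos (by omega)]; exact h.agrow i h1
      · subst h1
        rw [if_pos le_rfl, if_neg (by omega)]
        linarith
    · intro i hi
      rcases Nat.lt_succ_iff_lt_or_eq.1 hi with h1 | h1
      · rw [if_pos (by omega), if_pos (by omega)]; exact h.cross i h1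
      · subst h1
        rw [if_neg (by omega), if_neg (by omega)]
        ring
    · intro i hi
      rcases Nat.lt_succ_iff_lt_or_eq.1 (Nat.lt_succ_of_le hi) with h1 | h1
      · rw [if_pos (by omega), if_pos (by omega)]; exact h.aY i (by omega)
      · subst h1
        rw [if_neg (by omega), if_neg (by omega), hY1]
        exact Real.sqrt_sq (by positivity)
    · rw [if_neg hn1, if_neg hn1]
      have h1 := g.Y_succ (t := t1) ⟨ht10.le, ht1T⟩ (n + 1)
      rw [hY1] at h1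
      have h2 : e1 s ≤ 1 / 10000 := g.e1_lt.le.trans g.e2_small
      have h3 : e1 s * x (n + 1) t1 ^ 2 ≤ 1 / 10000 * x (n + 1) t1 ^ 2 := by gcongr
      have e : n + 1 + 1 = n + 2 := rfl
      rw [e] at h1
      have h4 : (995 / 1000 * (1 / 100 * x n t1)) ^ 2 ≤ x (n + 1) t1 ^ 2 := by
        have : 0 ≤ (1 / 100 * x n t1) ^ 2 := by positivity
        nlinarith
      exact (le_abs_self _).trans (abs_le_of_sq_le_sq h4 hZ0)
    · rw [if_neg hn1]
      exact hYn2
    · intro i hi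
      rcases Nat.lt_succ_iff_lt_or_eq.1 hi with h1 | h1
      · rw [if_pos (by omega)]; exact h.ql i h1
      · subst h1
        rw [if_neg (by omega)]
        exact fun t ht => (g.QLn h hc t ht).1
    · intro i hi
      rcases Nat.lt_succ_iff_lt_or_eq.1 hi with h1 | h1
      · rw [if_pos (by omega)]; exact h.J i h1
      · subst h1
        rw [if_neg (by omega)]
        exact hJ1
    · intro i hi
      rcases Nat.lt_succ_iff_lt_or_eq.1 hi with h1 | h1
      · rw [if_pos (by omega)]; exact h.Γ i h1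
      · subst h1
        rw [if_neg (by omega)]
        exact hE1

lemma base (g : Good s ν C K T A B x) : Stg s T A x 0 (fun _ => 0) (fun _ => A) := by
  have hA := g.hA
  have hY1 : Y x (0 + 1) 0 = 0 := by
    rw [Y]
    have : ∀ j : ℕ, x (0 + 1 + j) 0 ^ 2 = 0 := fun j => by
      have e : 0 + 1 + j = j + 1 := by omega
      rw [e, g.hn j]; simp
    simp only [this, tsum_zero]
  constructor
  · rfl
  · rfl
  · intro i hi; omega
  · exact g.hT
  · intro i hi; omega
  · intro i hi; omega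
  · intro i hi; omega
  · intro i hi
    have : i = 0 := by omega
    subst this
    rw [g.Y_succ ⟨le_rfl, g.hT⟩ 0, g.h0, hY1, add_zero]
    exact Real.sqrt_sq hA.le
  · rw [g.h0]; linarith
  · rw [hY1, e1]
    positivity
  · intro i hi; omega
  · intro i hi; omega
  · intro i hi; omega

lemma agrow' (g : Good s ν C K T A B x) (h : Stg s T A x n σ a) : ∀ i ≤ n,
    (9 / 1000) ^ i * A ≤ a i := by
  intro i
  induction i with
  | zero => intro _; rw [h.a0]; simp
  | succ i ih =>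
    intro hi
    have h1 := ih (by omega)
    have h2 := h.agrow i (by omega)
    calc (9 / 1000 : ℝ) ^ (i + 1) * A = 9 / 1000 * ((9 / 1000) ^ i * A) := by ring
      _ ≤ 9 / 1000 * a i := by gcongr
      _ ≤ _ := h2

/-- The blow-up alternative. -/
theorem main (g : Good s ν C K T A B x) :
    T ≤ s ^ 5 / A ∧ ((¬ ∃ M, ∀ t ∈ Ico 0 T, ∀ j, s ^ (8 * j) * |x j t| ≤ M) →
      ∀ M, ∃ t ∈ Ico 0 T, ∃ j, M < s ^ (3 * j) * |x j t|) := by
  have hs := g.hs
  have hs1 := g.s1
  have hs0 := g.s0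
  have h5 := g.s5
  have hA := g.hA
  have hgrow : ∀ (n : ℕ) (σ a : ℕ → ℝ), Stg s T A x n σ a →
      2 ^ n * (A / 2) ≤ s ^ (3 * n) * |x n (σ n)| ∧ σ n ∈ Ico 0 T ∧ σ n ≤ s ^ 5 / A := by
    intro n σ a h
    have h1 := g.agrow' h n le_rfl
    have h2 := h.init
    refine ⟨?_, ⟨σnn h le_rfl, h.σT⟩, ?_⟩
    · have h3 : (2 : ℝ) ≤ s ^ 3 * (9 / 1000) := by
        have : s ≤ s ^ 3 := le_self_pow₀ hs1.le (by norm_num)
        linarith
      calc 2 ^ n * (A / 2) ≤ (s ^ 3 * (9 / 1000)) ^ n * (A / 2) := by gcongr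
        _ = s ^ (3 * n) * ((9 / 1000) ^ n * A / 2) := by rw [mul_pow, ← pow_mul]; ring
        _ ≤ s ^ (3 * n) * (a n / 2) := by gcongr
        _ ≤ s ^ (3 * n) * |x n (σ n)| := by
            have h4 := le_abs_self (x n (σ n))
            have h6 := g.apos h n le_rfl
            gcongr
            linarith
    · rw [le_div_iff₀ hA]
      have hG := g.Gpos h n le_rfl
      have h3 := g.el' h (t1 := σ n) (by
        have : 0 < 23 / 1000 * s ^ 5 / (s ^ (5 * n) * a n) := by positivity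
        linarith) (i := 0) (Nat.zero_le n)
      rw [h.σ0, h.a0] at h3
      simp only [mul_zero, pow_zero, one_mul, sub_zero] at h3
      linarith
  have htend : Tendsto (fun n : ℕ => (2 : ℝ) ^ n * (A / 2)) atTop atTop :=
    (tendsto_pow_atTop_atTop_of_one_lt one_lt_two).atTop_mul_const (by positivity)
  by_cases hall : ∀ n, ∃ σ a, Stg s T A x n σ a
  · refine ⟨?_, fun _ M => ?_⟩
    · by_contra hcon
      push Not at hcon
      obtain ⟨M, hM⟩ := g.sol.bdd (s ^ 5 / A) hcon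
      obtain ⟨n, hn⟩ := (htend.eventually_gt_atTop M).exists
      obtain ⟨σ, a, h⟩ := hall n
      obtain ⟨h1, h2, h3⟩ := hgrow n σ a h
      have h4 := hM (σ n) ⟨h2.1, h3⟩ n
      have h6 : s ^ (3 * n) * |x n (σ n)| ≤ s ^ (8 * n) * |x n (σ n)| := by
        gcongr
        · exact hs1.le
        · omega
      linarith
    · obtain ⟨n, hn⟩ := (htend.eventually_gt_atTop M).exists
      obtain ⟨σ, a, h⟩ := hall n
      obtain ⟨h1, h2, h3⟩ := hgrow n σ a h
      exact ⟨σ n, h2, n, hn.trans_le h1⟩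
  · have hex : T ≤ s ^ 5 / A ∧ ∃ M, ∀ t ∈ Ico 0 T, ∀ j, s ^ (8 * j) * |x j t| ≤ M := by
      by_contra hcon
      apply hall
      intro n
      induction n with
      | zero => exact ⟨_, _, g.base⟩
      | succ n ih =>
        obtain ⟨σ, a, h⟩ := ih
        rcases g.step h with h1 | h1
        · exact absurd h1 hcon
        · exact h1
    exact ⟨hex.1, fun hn => absurd hex.2 hn⟩

end Pool.Agent.Y5.Good
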