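import Pool.Agent.Y5.Stm

/-! The constrained Navier-Stokes system: solutions, and the statements of the last steps. -/

open Set Filter Topology MeasureTheory
open scoped SchwartzMap

set_option autoImplicit false

namespace Pool.Agent.Y5

/-- `∑ ∂ᵢ uᵢ`. -/
noncomputable def divg (u : E3 → E3) (y : E3) : ℝ :=
  ∑ i : Fin 3, (fderiv ℝ u y (EuclideanSpace.single i 1)) i

/-- Regular solutions on `[0, T)` of the Navier-Stokes equations with viscosity `ν` constrained to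
the closed span of the dilates `P n = packet s φ n` of the field `φ`:
at every time `u t` is a combination of the `P n` with rapidly decreasing coefficients
(locally uniformly in time), and the equation
`∂ₜ u + (u · ∇) u - ν Δ u = 0` holds when tested against every `P n`. -/
structure IsSol (s ν : ℝ) (φ : 𝓢(E3, E3)) (T : ℝ) (u : ℝ → E3 → E3) : Prop where
  span : ∃ x : ℕ → ℝ → ℝ,
    (∀ k : ℕ, ∀ T' < T, ∃ M, ∀ t ∈ Icc 0 T', ∀ n, s ^ (k * n) * |x n t| ≤ M) ∧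
    ∀ t ∈ Ico 0 T, ∀ y, HasSum (fun n => x n t • packet s φ n y) (u t y)
  eqn : ∀ n, ∀ t ∈ Ico 0 T,
    HasDerivWithinAt (fun τ => ∫ y, inner ℝ (u τ y) (packet s φ n y))
      (-(ν * gradIn (u t) (packet s φ n)) - tri (u t) (u t) (packet s φ n)) (Ico 0 T) t

/-- Fields with rapidly decreasing coefficients. -/
def S_REP : Prop := ∀ (s μ C b : ℝ) (B : ℕ → ℝ) (φ : 𝓢(E3, E3)), 1 < s → (∀ j, |B j| ≤ b) →
  Packet s φ μ C B →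
  (∀ x : ℕ → ℝ, (∀ k : ℕ, ∃ M, ∀ n, s ^ (k * n) * |x n| ≤ M) →
    ∀ y, Summable (fun n => x n • packet s φ n y)) ∧
  (∀ (x : ℕ → ℝ) (u : E3 → E3), (∀ k : ℕ, ∃ M, ∀ n, s ^ (k * n) * |x n| ≤ M) →
    (∀ y, HasSum (fun n => x n • packet s φ n y) (u y)) →
    (∃ v : 𝓢(E3, E3), ∀ y, v y = u y) ∧
    (∀ y, divg u y = 0) ∧
    (∀ n, ∫ y, inner ℝ (u y) (packet s φ n y) = x n) ∧
    (∫ y, ‖u y‖ ^ 2 = ∑' n, x n ^ 2) ∧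
    (gradIn u u = μ * ∑' n, s ^ (4 * n) * x n ^ 2) ∧
    (∀ ν : ℝ, ∀ n, -(ν * gradIn u (packet s φ n)) - tri u u (packet s φ n)
      = vf s (ν * μ) C B x n))

/-- Bounds for fields with rapidly decreasing coefficients. -/
def S_SUP : Prop := ∀ (s : ℝ) (φ : 𝓢(E3, E3)), 1 < s →
  (∃ c, 0 < c ∧ ∀ (u : E3 → E3) (n : ℕ) (M : ℝ), (∀ y, ‖u y‖ ≤ M) →
    s ^ (3 * n) * |∫ y, inner ℝ (u y) (packet s φ n y)| ≤ c * M) ∧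
  (∀ A r : ℝ, 0 < r → ∃ M, ∀ (x : ℕ → ℝ) (u : E3 → E3), (∀ n, |x n| ≤ A) →
    (∀ y, HasSum (fun n => x n • packet s φ n y) (u y)) → ∀ y, r ≤ ‖y‖ → ‖u y‖ ≤ M)

/-- Blow-up for the reduced system. -/
def S_ODE : Prop := ∀ b₁ b₂ c₁ c₂ K : ℝ, 0 < b₁ → 0 < c₁ → 0 < K →
  ∃ s₁ : ℝ, 1 < s₁ ∧ ∀ s ≥ s₁, ∃ ε ∈ Ioc (0 : ℝ) (s ^ 2)⁻¹,
    ∀ (C b : ℝ) (B : ℕ → ℝ), b₁ ≤ b → b ≤ b₂ → c₁ * ε ≤ C → C ≤ c₂ * ε →
    (∀ j, 1 ≤ j → |B j - b| * s ^ (2 * j) ≤ K) →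
    ∀ ν : ℝ, 0 ≤ ν → ∃ A₀ : ℝ, 0 < A₀ ∧ ∀ A ≥ A₀, ∃ T₁ : ℝ, 0 < T₁ ∧
      ∀ (T : ℝ) (x : ℕ → ℝ → ℝ), 0 < T → RSol s ν C B T x → x 0 0 = A → (∀ n, x (n + 1) 0 = 0) →
        T ≤ T₁ ∧ ((¬ ∃ M, ∀ t ∈ Ico 0 T, ∀ n, s ^ (8 * n) * |x n t| ≤ M) →
          ∀ M, ∃ t ∈ Ico 0 T, ∃ n, M < s ^ (3 * n) * |x n t|)

/-- The main theorem. -/
def S_MAIN : Prop := ∃ (s : ℝ) (φ : 𝓢(E3, E3)), 1 < s ∧ (∀ y, divg φ y = 0) ∧
  (∀ m n, ∫ y, inner ℝ (packet s φ m y) (packet s φ n y) = if m = n then 1 else 0) ∧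
  ∀ ν : ℝ, 0 ≤ ν → ∃ A₀ : ℝ, 0 < A₀ ∧ ∀ A ≥ A₀, ∃ (T : ℝ) (u : ℝ → E3 → E3), 0 < T ∧
    IsSol s ν φ T u ∧ (∀ y, u 0 y = A • φ y) ∧
    -- uniqueness, and `T` is the maximal time of existence
    (∀ (T' : ℝ) (v : ℝ → E3 → E3), 0 < T' → IsSol s ν φ T' v → (∀ y, v 0 y = A • φ y) →
      T' ≤ T ∧ ∀ t ∈ Ico 0 T', v t = u t) ∧
    -- at each time the field is divergence free and of Schwartz class
    (∀ t ∈ Ico 0 T, (∀ y, divg (u t) y = 0) ∧ ∃ w : 𝓢(E3, E3), ∀ y, w y = u t y) ∧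
    -- energy identity
    (∀ t ∈ Ico 0 T, HasDerivWithinAt (fun τ => ∫ y, ‖u τ y‖ ^ 2)
      (-(2 * ν * gradIn (u t) (u t))) (Ico 0 T) t) ∧
    -- blow-up of the velocity
    (∀ M : ℝ, ∃ t ∈ Ico 0 T, ∃ y, M < ‖u t y‖) ∧
    -- the velocity stays bounded away from the origin
    (∀ r > 0, ∃ M, ∀ t ∈ Ico 0 T, ∀ y, r ≤ ‖y‖ → ‖u t y‖ ≤ M)

/-- The last step. -/
def S_FIN : Prop := S_UNIQ → S_EXMAX → S_TAIL → S_PACK → S_REP → S_SUP → S_ODE → S_MAIN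

end Pool.Agent.Y5
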