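import Pool.Agent.Y5.O8
import Pool.Agent.Y5.Stm2
import Pool.Agent.Y274.TAIL

/-! Blow-up for the reduced system. -/

open Set Filter Topology MeasureTheory

set_option autoImplicit false

namespace Pool.Agent.Y5

lemma vf_scale {s ν C b : ℝ} {B B' : ℕ → ℝ} (hb : 0 < b) (hB : ∀ j, 1 ≤ j → B' j = B j / b)
    (y : ℕ → ℝ) (n : ℕ) : vf s (ν / b) (C / b) B' y n = vf s ν C B y n * (1 / b) := by
  unfold vf
  have h1 : ∑ i ∈ Finset.range n, s ^ (5 * i) * B' (n - i) * y i
      = (∑ i ∈ Finset.range n, s ^ (5 * i) * B (n - i) * y i) * (1 / b) := by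
    rw [Finset.sum_mul]
    refine Finset.sum_congr rfl fun i hi => ?_
    have := Finset.mem_range.1 hi
    rw [hB (n - i) (by omega)]
    ring
  have h2 : ∑' m : ℕ, B' (m + 1) * y (n + 1 + m) ^ 2
      = (∑' m : ℕ, B (m + 1) * y (n + 1 + m) ^ 2) * (1 / b) := by
    rw [← tsum_mul_right]
    congr 1
    ext m
    rw [hB (m + 1) (by omega)]
    ring
  rw [h1, h2]
  split_ifs <;> ring

lemma RSol_scale {s ν C b T : ℝ} {B B' : ℕ → ℝ} {x : ℕ → ℝ → ℝ} (hb : 0 < b)
    (hB : ∀ j, 1 ≤ j → B' j = B j / b) (h : RSol s ν C B T x) :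
    RSol s (ν / b) (C / b) B' (b * T) (fun n t => x n (t / b)) := by
  have hmaps : ∀ t ∈ Ico 0 (b * T), t / b ∈ Ico 0 T := fun t ht =>
    ⟨div_nonneg ht.1 hb.le, by rw [div_lt_iff₀ hb]; linarith [ht.2, mul_comm b T]⟩
  constructor
  · intro n t ht
    have h1 := h.deriv n (t / b) (hmaps t ht)
    have h2 : HasDerivWithinAt (fun t : ℝ => t / b) (1 / b) (Ico 0 (b * T)) t := by
      simpa using ((hasDerivAt_id t).div_const b).hasDerivWithinAt
    have h3 := h1.comp t h2 hmaps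
    rw [vf_scale hb hB]
    exact h3
  · intro T' hT'
    obtain ⟨M, hM⟩ := h.bdd (T' / b) (by rw [div_lt_iff₀ hb]; linarith [mul_comm b T])
    refine ⟨M, fun t ht n => hM (t / b) ⟨div_nonneg ht.1 hb.le, ?_⟩ n⟩
    have := ht.2
    gcongr

theorem t_ODE : S_ODE := by
  intro b₁ b₂ c₁ c₂ K hb₁ hc₁ hK
  refine ⟨1000000 + K / b₁ + 1000 * (|b₂| / c₁ + |c₂| / b₁), ?_, ?_⟩
  · have : 0 ≤ K / b₁ := by positivity
    have : 0 ≤ 1000 * (|b₂| / c₁ + |c₂| / b₁) := by positivity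
    linarith
  intro s hs
  have hKb : 0 ≤ K / b₁ := by positivity
  have hbc : 0 ≤ |b₂| / c₁ := by positivity
  have hcb : 0 ≤ |c₂| / b₁ := by positivity
  have hs6 : 1000000 ≤ s := by linarith
  have hs0 : 0 < s := by linarith
  have hs5 : s ≤ s ^ 5 := le_self_pow₀ (by linarith) (by norm_num)
  have h5p : 0 < s ^ 5 := by positivity
  have hexp1 : |b₂| / c₁ ≤ Real.exp (s ^ 5 / 1000) := by
    have := Real.add_one_le_exp (s ^ 5 / 1000); linarith
  have hexp2 : |c₂| / b₁ ≤ Real.exp (s ^ 5 / 1000) := by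
    have := Real.add_one_le_exp (s ^ 5 / 1000); linarith
  refine ⟨Real.exp (-(s ^ 5 / 50)), ⟨Real.exp_pos _, ?_⟩, ?_⟩
  · rw [Real.exp_neg]
    apply inv_anti₀ (by positivity)
    have h1 := Real.add_one_le_exp (s ^ 5 / 50)
    have h2 : s ^ 2 * 50 ≤ s ^ 5 := by
      calc s ^ 2 * 50 ≤ s ^ 2 * s ^ 3 := by
            have : s ≤ s ^ 3 := le_self_pow₀ (by linarith) (by norm_num)
            gcongr; linarith
        _ = s ^ 5 := by ring
    linarith
  intro C b B hb1 hb2 hC1 hC2 hB ν hν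
  have hb : 0 < b := hb₁.trans_le hb1
  have hε := Real.exp_pos (-(s ^ 5 / 50))
  have hCp : 0 < C := (by positivity : 0 < c₁ * Real.exp (-(s ^ 5 / 50))).trans_le hC1
  refine ⟨1 + ν * s ^ 10 / b, by positivity, fun A hA => ⟨s ^ 5 / A / b, ?_, ?_⟩⟩
  · have : 0 < A := (by positivity : 0 < 1 + ν * s ^ 10 / b).trans_le hA
    positivity
  have hνb : 0 ≤ ν * s ^ 10 / b := by positivity
  have hAp : 0 < A := by linarith
  intro T x hT hsol hx0 hxn
  set B' : ℕ → ℝ := fun j => if j = 0 then 1 else B j / b with hB'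
  have hBB : ∀ j, 1 ≤ j → B' j = B j / b := fun j hj => by
    simp only [hB']; rw [if_neg (by omega)]
  have hb2' : b ≤ |b₂| := hb2.trans (le_abs_self _)
  have g : Good s (ν / b) (C / b) (K / b₁) (b * T) A B' (fun n t => x n (t / b)) := by
    refine ⟨hs6, by positivity, hKb, by linarith, ?_, ?_, ?_, ?_, hAp, ?_, by positivity,
      RSol_scale hb hBB hsol, ?_, ?_, Pool.Agent.Y274.TAIL.t_TAIL⟩
    · intro j hj
      rw [hBB j hj]
      have h1 : |B j / b - 1| = |B j - b| / b := by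
        rw [← abs_of_pos hb, ← abs_div, abs_of_pos hb]; congr 1; field_simp
      rw [h1, div_mul_eq_mul_div]
      have := hB j hj
      gcongr
    · simp [hB']
    · rw [le_div_iff₀ hb]
      have h1 : Real.exp (-(21 / 1000 * s ^ 5)) * Real.exp (s ^ 5 / 1000)
          = Real.exp (-(s ^ 5 / 50)) := by
        rw [← Real.exp_add]; congr 1; ring
      have h2 : b ≤ c₁ * Real.exp (s ^ 5 / 1000) := by
        have := hb2'
        rw [div_le_iff₀ hc₁] at hexp1
        linarith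
      calc Real.exp (-(21 / 1000 * s ^ 5)) * b
          ≤ Real.exp (-(21 / 1000 * s ^ 5)) * (c₁ * Real.exp (s ^ 5 / 1000)) := by gcongr
        _ = c₁ * Real.exp (-(s ^ 5 / 50)) := by rw [← h1]; ring
        _ ≤ C := hC1
    · rw [div_le_iff₀ hb]
      have h1 : Real.exp (-(19 / 1000 * s ^ 5))
          = Real.exp (-(s ^ 5 / 50)) * Real.exp (s ^ 5 / 1000) := by
        rw [← Real.exp_add]; congr 1; ring
      have h2 : |c₂| ≤ Real.exp (s ^ 5 / 1000) * b := by
        rw [div_le_iff₀ hb₁] at hexp2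
        refine hexp2.trans ?_
        gcongr
      calc C ≤ c₂ * Real.exp (-(s ^ 5 / 50)) := hC2
        _ ≤ |c₂| * Real.exp (-(s ^ 5 / 50)) := by gcongr; exact le_abs_self _
        _ ≤ (Real.exp (s ^ 5 / 1000) * b) * Real.exp (-(s ^ 5 / 50)) := by gcongr
        _ = _ := by rw [h1]; ring
    · have : ν / b * s ^ 10 = ν * s ^ 10 / b := by ring
      rw [this]; linarith
    · simpa using hx0
    · intro n; simpa using hxn n
  obtain ⟨h1, h2⟩ := g.main
  refine ⟨?_, fun hn M => ?_⟩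
  · rw [le_div_iff₀ hb]; linarith [mul_comm b T]
  · obtain ⟨t, ht, j, hj⟩ := h2 (by
      rintro ⟨M, hM⟩
      refine hn ⟨M, fun t ht j => ?_⟩
      have := hM (b * t) ⟨by have := ht.1; positivity, by have := ht.2; gcongr⟩ j
      simpa [mul_div_cancel_left₀ _ hb.ne'] using this) M
    exact ⟨t / b, ⟨div_nonneg ht.1 hb.le, by rw [div_lt_iff₀ hb]; linarith [ht.2, mul_comm b T]⟩,
      j, hj⟩

end Pool.Agent.Y5
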